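import Mathlib

/-!
Witt ring of a field, second residues, tame symbols, unramified elements.
-/

namespace Pool.Agent.P.MP_a9963e_ag

open Matrix

/-- The relations of the Witt ring on the free abelian group `ℤ[Lˣ]` of formal sums of rank one
forms: the hyperbolic plane `⟨1, -1⟩` is zero and isometric diagonal forms are equal. -/
noncomputable def wittIdeal (L : Type) [Field L] : Ideal (MonoidAlgebra ℤ Lˣ) :=
  Ideal.span ({MonoidAlgebra.of ℤ Lˣ 1 + MonoidAlgebra.of ℤ Lˣ (-1)} ∪
    {x | ∃ (n : ℕ) (a b : Fin n → Lˣ) (P : Matrix (Fin n) (Fin n) L), IsUnit P ∧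
      Pᵀ * diagonal (fun i => (a i : L)) * P = diagonal (fun i => (b i : L)) ∧
      x = ∑ i, MonoidAlgebra.of ℤ Lˣ (a i) - ∑ i, MonoidAlgebra.of ℤ Lˣ (b i)})

/-- The Witt ring `W(L)` of nondegenerate symmetric bilinear forms (characteristic not two). -/
def Witt (L : Type) [Field L] : Type := MonoidAlgebra ℤ Lˣ ⧸ wittIdeal L

/-- The quotient ring structure. -/
noncomputable instance (L : Type) [Field L] : CommRing (Witt L) :=
  Ideal.Quotient.commRing (wittIdeal L)

/-- The class of the rank one form `⟨a⟩`. -/
noncomputable def form {L : Type} [Field L] (a : Lˣ) : Witt L :=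
  Ideal.Quotient.mk (wittIdeal L) (MonoidAlgebra.of ℤ Lˣ a)

/-- The fundamental ideal `I(L)` of even rank forms. -/
noncomputable def fund (L : Type) [Field L] : Ideal (Witt L) :=
  Ideal.span {x | ∃ a b : Lˣ, x = form a + form b}

/-- The Pfister form `⟨⟨a⟩⟩ = ⟨1, -a⟩`. -/
noncomputable def pf {L : Type} [Field L] (a : Lˣ) : Witt L := form 1 + form (-a)

section DVR

variable {L : Type} [Field L] (O : Type) [CommRing O] [IsDomain O] [IsDiscreteValuationRing O]
  [Algebra O L] [IsFractionRing O L]

/-- `q` is killed by the second residue map of the discrete valuation ring `O`: for a uniformizer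
`π` this is the additive map `d` with `d ⟨u⟩ = 0` and `d ⟨π u⟩ = ⟨ū⟩` for units `u` of `O`. -/
def ResidueZero (q : Witt L) : Prop :=
  ∀ (π : O) (πL : Lˣ), Irreducible π → (πL : L) = algebraMap O L π →
    ∀ d : Witt L →+ Witt (IsLocalRing.ResidueField O),
      (∀ u : Oˣ, d (form (Units.map (algebraMap O L : O →* L) u)) = 0 ∧
        d (form (πL * Units.map (algebraMap O L : O →* L) u)) =
          form (Units.map (IsLocalRing.residue O : O →* IsLocalRing.ResidueField O) u)) →
      d q = 0

/-- The normalized discrete valuation `Lˣ → ℤ` of `O`. -/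
noncomputable def ord (f : Lˣ) : ℤ :=
  -WithZero.log ((IsDiscreteValuationRing.maximalIdeal O).valuation L (f : L))

/-- The tame symbol at `O` of the sum of symbols `∑ {f i, g i}` is trivial: the unit
`∏ (-1) ^ (v f * v g) * f ^ (v g) / g ^ (v f)` is `1` modulo the maximal ideal. -/
def TameTrivial {m : ℕ} (f g : Fin m → Lˣ) : Prop :=
  (IsDiscreteValuationRing.maximalIdeal O).valuation L
    (((∏ i, (-1) ^ (ord O (f i) * ord O (g i)) * f i ^ ord O (g i) / g i ^ ord O (f i) : Lˣ) : L)
      - 1) < 1

end DVR

/-- The local ring of `Spec A` at the prime `P`, inside the function field `L`. -/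
noncomputable abbrev locAt (A L : Type) [CommRing A] [IsDomain A] [Field L] [Algebra A L]
    [IsFractionRing A L] (P : Ideal A) [P.IsPrime] : Subalgebra A L :=
  Localization.subalgebra.ofField L P.primeCompl P.primeCompl_le_nonZeroDivisors

end Pool.Agent.P.MP_a9963e_ag
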