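import Mathlib
import Pool.Agent.P.MP_a9963e_ag.Defs

namespace Pool.Agent.P.MP_a9963e_ag

open Matrix

section

variable {L : Type} [Field L]

/-- the quotient map -/
noncomputable def wmk (L : Type) [Field L] : MonoidAlgebra ℤ Lˣ →+* Witt L :=
  Ideal.Quotient.mk (wittIdeal L)

theorem form_eq (a : Lˣ) : form a = wmk L (MonoidAlgebra.of ℤ Lˣ a) := rfl

theorem wmk_surjective : Function.Surjective (wmk L) := Ideal.Quotient.mk_surjective

theorem wmk_eq_zero {x : MonoidAlgebra ℤ Lˣ} : wmk L x = 0 ↔ x ∈ wittIdeal L :=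
  Ideal.Quotient.eq_zero_iff_mem

open Classical in
/-- rank one form of an element, zero for zero -/
noncomputable def wf (x : L) : Witt L := if h : x = 0 then 0 else form (Units.mk0 x h)

@[simp] theorem wf_zero : wf (0 : L) = 0 := by simp [wf]

theorem wf_units (a : Lˣ) : wf (a : L) = form a := by simp [wf]

theorem form_mul (a b : Lˣ) : form (a * b) = form a * form b := by
  simp only [form_eq, map_mul]

theorem form_one : form (1 : Lˣ) = 1 := by simp only [form_eq, map_one]

@[simp] theorem wf_one : wf (1 : L) = 1 := by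
  rw [← form_one, ← wf_units]; rfl

theorem wf_mul (a b : L) : wf (a * b) = wf a * wf b := by
  by_cases ha : a = 0
  · simp [ha]
  by_cases hb : b = 0
  · simp [hb]
  lift a to Lˣ using IsUnit.mk0 a ha
  lift b to Lˣ using IsUnit.mk0 b hb
  rw [← Units.val_mul, wf_units, wf_units, wf_units, form_mul]

theorem form_sum_eq {n : ℕ} (a b : Fin n → Lˣ) (P : Matrix (Fin n) (Fin n) L) (hP : IsUnit P)
    (h : Pᵀ * diagonal (fun i => (a i : L)) * P = diagonal (fun i => (b i : L))) :
    ∑ i, form (a i) = ∑ i, form (b i) := by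
  simp only [form_eq, ← map_sum]
  rw [← sub_eq_zero, ← map_sub, wmk_eq_zero]
  exact Ideal.subset_span (Or.inr ⟨n, a, b, P, hP, h, rfl⟩)

theorem wf_neg_one : wf (-1 : L) = -1 := by
  have h : form (1 : Lˣ) + form (-1) = 0 := by
    simp only [form_eq, ← map_add]
    rw [wmk_eq_zero]
    exact Ideal.subset_span (Or.inl rfl)
  rw [form_one, ← wf_units] at h
  exact eq_neg_of_add_eq_zero_right (by simpa using h)

theorem wf_neg (a : L) : wf (-a) = -wf a := by
  rw [← neg_one_mul, wf_mul, wf_neg_one, neg_one_mul]

theorem wf_sq {b : L} (hb : b ≠ 0) : wf (b ^ 2) = 1 := by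
  lift b to Lˣ using IsUnit.mk0 b hb
  have := form_sum_eq (n := 1) (fun _ => 1) (fun _ => b ^ 2) !![(b : L)]
    (by rw [Matrix.isUnit_iff_isUnit_det]; simp)
    (by ext i j; fin_cases i; fin_cases j; simp [Matrix.mul_apply, sq])
  simp only [Finset.univ_unique, Finset.sum_singleton] at this
  rw [← Units.val_pow_eq_pow_val, wf_units, ← this, form_one]

theorem wf_mul_sq (a : L) {b : L} (hb : b ≠ 0) : wf (a * b ^ 2) = wf a := by
  rw [wf_mul, wf_sq hb, mul_one]

theorem wf_mul_self {b : L} (hb : b ≠ 0) : wf b * wf b = 1 := by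
  rw [← wf_mul, ← sq, wf_sq hb]

theorem wf_inv (b : L) : wf b⁻¹ = wf b := by
  by_cases hb : b = 0
  · simp [hb]
  rw [← wf_mul_sq b⁻¹ hb]
  congr 1
  field_simp

theorem wf_add (a b : L) : wf a + wf b = wf (a + b) + wf (a * b * (a + b)) := by
  by_cases ha : a = 0
  · simp [ha]
  by_cases hb : b = 0
  · simp [hb]
  by_cases hab : a + b = 0
  · rw [hab, eq_neg_of_add_eq_zero_right hab, wf_neg]; simp
  have := form_sum_eq (n := 2) ![Units.mk0 a ha, Units.mk0 b hb]
    ![Units.mk0 (a + b) hab, Units.mk0 (a * b * (a + b)) (by simp [ha, hb, hab])]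
    !![1, -b; 1, a]
    (by rw [Matrix.isUnit_iff_isUnit_det]; simpa using hab)
    (by
      ext i j
      fin_cases i <;> fin_cases j <;> simp [Matrix.mul_apply, Fin.sum_univ_two, diagonal] <;> ring)
  simp only [Fin.sum_univ_two, Matrix.cons_val_zero, Matrix.cons_val_one, ← wf_units] at this
  simpa using this

theorem closure_wf : AddSubgroup.closure {q : Witt L | ∃ a : L, a ≠ 0 ∧ q = wf a} = ⊤ := by
  rw [eq_top_iff]
  rintro q -
  obtain ⟨x, rfl⟩ := wmk_surjective q
  induction x using MonoidAlgebra.induction_on with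
  | of a => exact AddSubgroup.subset_closure ⟨a, a.ne_zero, by rw [wf_units, form_eq]⟩
  | add x y hx hy => rw [map_add]; exact add_mem hx hy
  | smul r x hx => rw [map_zsmul]; exact zsmul_mem hx r

theorem witt_mem (N : AddSubgroup (Witt L)) (h : ∀ a : L, a ≠ 0 → wf a ∈ N) (q : Witt L) :
    q ∈ N := by
  have : AddSubgroup.closure {q : Witt L | ∃ a : L, a ≠ 0 ∧ q = wf a} ≤ N := by
    rw [AddSubgroup.closure_le]
    rintro _ ⟨a, ha, rfl⟩
    exact h a ha
  rw [closure_wf] at this
  exact this trivial

theorem witt_hom_ext {M : Type} [AddCommGroup M] {d d' : Witt L →+ M}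
    (h : ∀ a : L, a ≠ 0 → d (wf a) = d' (wf a)) : d = d' := by
  ext q
  exact witt_mem (d.eqLocus d') h q

end

section chain

variable {L : Type} [Field L] {M : Type} [AddCommGroup M]

/-- the relations of the Witt group -/
structure WRel {S : Type} [CommRing S] (f : S → M) : Prop where
  sq : ∀ a b, b ≠ 0 → f (a * b ^ 2) = f a
  neg : ∀ a, f (-a) = -f a
  add : ∀ a b, f a + f b = f (a + b) + f (a * b * (a + b))

variable {V : Type} [AddCommGroup V] [Module L V] {ι : Type} [DecidableEq ι]

structure Frame (B : LinearMap.BilinForm L V) (s : Finset ι) (e : ι → V) : Prop where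
  orth : ∀ i ∈ s, ∀ j ∈ s, i ≠ j → B (e i) (e j) = 0
  aniso : ∀ i ∈ s, B (e i) (e i) ≠ 0

omit [DecidableEq ι] in
theorem frame_sq {B : LinearMap.BilinForm L V} {s : Finset ι} {e : ι → V} (he : Frame B s e)
    (c : ι → L) (j : ι) (hj : j ∈ s) : B (∑ i ∈ s, c i • e i) (e j) = c j * B (e j) (e j) := by
  simp only [map_sum, map_smul, LinearMap.sum_apply, LinearMap.smul_apply, smul_eq_mul]
  rw [Finset.sum_eq_single j]
  · intro i hi hij
    rw [he.orth i hi j hj hij, mul_zero]
  · intro h; exact absurd hj h

open Classical in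
theorem frame_rep (h2 : (2 : L) ≠ 0) {f : L → M} (hf : WRel f) {B : LinearMap.BilinForm L V}
    (hB : ∀ x y, B x y = B y x) (s : Finset ι) (x : V) (hx : B x x ≠ 0) (n : ℕ) :
    ∀ (e : ι → V) (c : ι → L), Frame B s e → x = ∑ i ∈ s, c i • e i →
      (s.filter fun i => c i ≠ 0).card = n →
      ∃ (e' : ι → V) (i₀ : ι), i₀ ∈ s ∧ Frame B s e' ∧ e' i₀ = x ∧
        Submodule.span L (e' '' s) = Submodule.span L (e '' s) ∧
        ∑ i ∈ s, f (B (e' i) (e' i)) = ∑ i ∈ s, f (B (e i) (e i)) := by
  classical
  induction n using Nat.strong_induction_on with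
  | _ n ih =>
  intro e c he hxe hn
  set T := s.filter fun i => c i ≠ 0 with hT
  have hxT : x = ∑ i ∈ T, c i • e i := by
    rw [hxe, hT, Finset.sum_filter_of_ne]
    intro i _ h h0
    exact h (by rw [h0, zero_smul])
  have hxx : B x x = ∑ i ∈ T, c i ^ 2 * B (e i) (e i) := by
    conv_lhs => rw [hxT]
    rw [map_sum]
    refine Finset.sum_congr rfl fun i hi => ?_
    have hTs : Frame B T e := ⟨fun i hi j hj => he.orth i (Finset.mem_filter.1 hi).1 j
      (Finset.mem_filter.1 hj).1, fun i hi => he.aniso i (Finset.mem_filter.1 hi).1⟩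
    rw [map_smul, frame_sq hTs c i hi, smul_eq_mul]
    ring
  by_cases hpair : ∃ i ∈ T, ∃ j ∈ T, i ≠ j ∧
      c i ^ 2 * B (e i) (e i) + c j ^ 2 * B (e j) (e j) ≠ 0
  · obtain ⟨i, hi, j, hj, hij, hy⟩ := hpair
    obtain ⟨his, hci⟩ := Finset.mem_filter.1 hi
    obtain ⟨hjs, hcj⟩ := Finset.mem_filter.1 hj
    set ai := B (e i) (e i) with hai
    set aj := B (e j) (e j) with haj
    set y := c i ^ 2 * ai + c j ^ 2 * aj with hydef
    have hai0 : ai ≠ 0 := he.aniso i his
    have haj0 : aj ≠ 0 := he.aniso j hjs
    have hij0 : B (e i) (e j) = 0 := he.orth i his j hjs hij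
    have hji0 : B (e j) (e i) = 0 := he.orth j hjs i his hij.symm
    let u := c i • e i + c j • e j
    let w := -(aj * c j) • e i + (ai * c i) • e j
    let e₁ : ι → V := fun k => if k = i then u else if k = j then w else e k
    let c₁ : ι → L := fun k => if k = i then 1 else if k = j then 0 else c k
    have e1i : e₁ i = u := by simp [e₁]
    have e1j : e₁ j = w := by simp [e₁, hij.symm]
    have e1k : ∀ k, k ≠ i → k ≠ j → e₁ k = e k := fun k h1 h2 => by simp [e₁, h1, h2]
    have huu : B u u = y := by
      simp only [u, map_add, map_smul, LinearMap.add_apply, LinearMap.smul_apply, smul_eq_mul,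
        hij0, hji0, ← hai, ← haj]; ring
    have hww : B w w = ai * aj * y := by
      simp only [w, map_add, map_smul, LinearMap.add_apply, LinearMap.smul_apply, smul_eq_mul,
        hij0, hji0, ← hai, ← haj]; ring
    have huw : B u w = 0 := by
      simp only [u, w, map_add, map_smul, LinearMap.add_apply, LinearMap.smul_apply, smul_eq_mul,
        hij0, hji0, ← hai, ← haj]; ring
    have huk : ∀ k ∈ s, k ≠ i → k ≠ j → B u (e k) = 0 := fun k hk h1 h2 => by
      simp only [u, map_add, map_smul, LinearMap.add_apply, LinearMap.smul_apply, smul_eq_mul,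
        he.orth i his k hk h1.symm, he.orth j hjs k hk h2.symm]; ring
    have hwk : ∀ k ∈ s, k ≠ i → k ≠ j → B w (e k) = 0 := fun k hk h1 h2 => by
      simp only [w, map_add, map_smul, LinearMap.add_apply, LinearMap.smul_apply, smul_eq_mul,
        he.orth i his k hk h1.symm, he.orth j hjs k hk h2.symm]; ring
    have he₁ : Frame B s e₁ := by
      constructor
      · intro k hk l hl hkl
        by_cases h1 : k = i
        · subst h1
          by_cases h2 : l = j
          · subst h2; rw [e1i, e1j, huw]
          · rw [e1i, e1k l hkl.symm h2, huk l hl hkl.symm h2]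
        by_cases h2 : k = j
        · subst h2
          by_cases h3 : l = i
          · subst h3; rw [e1i, e1j, hB, huw]
          · rw [e1j, e1k l h3 hkl.symm, hwk l hl h3 hkl.symm]
        rw [e1k k h1 h2]
        by_cases h3 : l = i
        · subst h3; rw [e1i, hB, huk k hk h1 h2]
        by_cases h4 : l = j
        · subst h4; rw [e1j, hB, hwk k hk h1 h2]
        rw [e1k l h3 h4, he.orth k hk l hl hkl]
      · intro k hk
        by_cases h1 : k = i
        · subst h1; rw [e1i, huu]; exact hy
        by_cases h2 : k = j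
        · subst h2; rw [e1j, hww]; exact mul_ne_zero (mul_ne_zero hai0 haj0) hy
        rw [e1k k h1 h2]; exact he.aniso k hk
    have hsplit : ∀ {N : Type} [AddCommMonoid N] (g : ι → N),
        ∑ k ∈ s, g k = g i + (g j + ∑ k ∈ (s.erase i).erase j, g k) := by
      intro N _ g
      rw [Finset.add_sum_erase _ _ (Finset.mem_erase.2 ⟨hij.symm, hjs⟩),
        Finset.add_sum_erase _ _ his]
    have hx₁ : x = ∑ k ∈ s, c₁ k • e₁ k := by
      rw [hxe, hsplit, hsplit (fun k => c₁ k • e₁ k), e1i, e1j]
      simp only [c₁, if_true, hij.symm, if_false, one_smul, zero_smul, zero_add, u, add_assoc]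
      congr 2
      refine Finset.sum_congr rfl fun k hk => ?_
      simp only [Finset.mem_erase] at hk
      rw [e1k k hk.2.1 hk.1, if_neg hk.2.1, if_neg hk.1]
    have hcard : (s.filter fun k => c₁ k ≠ 0).card < n := by
      rw [← hn]
      apply Finset.card_lt_card
      refine ⟨fun k hk => ?_, fun h => ?_⟩
      · obtain ⟨hk1, hk2⟩ := Finset.mem_filter.1 hk
        by_cases h1 : k = i
        · exact h1 ▸ hi
        by_cases h2 : k = j
        · exact h2 ▸ hj
        exact Finset.mem_filter.2 ⟨hk1, by simpa [c₁, h1, h2] using hk2⟩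
      · have := (Finset.mem_filter.1 (h hj)).2
        simp [c₁, hij.symm] at this
    obtain ⟨e', i₀, hi₀, he', hx', hsp, hsum⟩ := ih _ hcard e₁ c₁ he₁ hx₁ rfl
    refine ⟨e', i₀, hi₀, he', hx', hsp.trans ?_, hsum.trans ?_⟩
    · have mi : e i ∈ Submodule.span L (e '' s) := Submodule.subset_span ⟨i, his, rfl⟩
      have mj : e j ∈ Submodule.span L (e '' s) := Submodule.subset_span ⟨j, hjs, rfl⟩
      have mu : u ∈ Submodule.span L (e₁ '' s) := Submodule.subset_span ⟨i, his, e1i⟩
      have mw : w ∈ Submodule.span L (e₁ '' s) := Submodule.subset_span ⟨j, hjs, e1j⟩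
      apply le_antisymm <;> rw [Submodule.span_le] <;> rintro _ ⟨k, hk, rfl⟩
      · by_cases h1 : k = i
        · subst h1; rw [e1i]
          exact add_mem (Submodule.smul_mem _ _ mi) (Submodule.smul_mem _ _ mj)
        by_cases h2 : k = j
        · subst h2; rw [e1j]
          exact add_mem (Submodule.smul_mem _ _ mi) (Submodule.smul_mem _ _ mj)
        rw [e1k k h1 h2]; exact Submodule.subset_span ⟨k, hk, rfl⟩
      · by_cases h1 : k = i
        · subst h1
          have : e k = y⁻¹ • ((ai * c k) • u - c j • w) := by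
            rw [eq_inv_smul_iff₀ hy]
            simp only [u, w, hydef]
            module
          rw [this]
          exact Submodule.smul_mem _ _ (sub_mem (Submodule.smul_mem _ _ mu)
            (Submodule.smul_mem _ _ mw))
        by_cases h2 : k = j
        · subst h2
          have : e k = y⁻¹ • ((aj * c k) • u + c i • w) := by
            rw [eq_inv_smul_iff₀ hy]
            simp only [u, w, hydef]
            module
          rw [this]
          exact Submodule.smul_mem _ _ (add_mem (Submodule.smul_mem _ _ mu)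
            (Submodule.smul_mem _ _ mw))
        rw [← e1k k h1 h2]; exact Submodule.subset_span ⟨k, hk, rfl⟩
    · rw [hsplit, hsplit (fun k => f (B (e k) (e k))), e1i, e1j, huu, hww, ← add_assoc,
        ← add_assoc, ← hai, ← haj]
      congr 1
      · rw [← hf.sq ai _ hci, ← hf.sq aj _ hcj, hf.add (ai * c i ^ 2),
          ← hf.sq (ai * aj * y) _ (mul_ne_zero hci hcj)]
        congr 2 <;> rw [hydef] <;> ring
      · refine Finset.sum_congr rfl fun k hk => ?_
        simp only [Finset.mem_erase] at hk
        rw [e1k k hk.2.1 hk.1]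
  · push Not at hpair
    have hT1 : ∃ i, T = {i} := by
      rw [← Finset.card_eq_one]
      by_contra hc
      rcases Nat.lt_or_gt_of_ne hc with h | h
      · have : T = ∅ := Finset.card_eq_zero.1 (by omega)
        rw [this] at hxx
        exact hx (by simpa using hxx)
      · obtain ⟨i, hi, j, hj, hij⟩ := Finset.one_lt_card.1 h
        by_cases h3 : ∃ k ∈ T, k ≠ i ∧ k ≠ j
        · obtain ⟨k, hk, hki, hkj⟩ := h3
          have h1 := hpair i hi j hj hij
          have h2' := hpair i hi k hk hki.symm
          have h3 := hpair j hj k hk hkj.symm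
          have : 2 * (c i ^ 2 * B (e i) (e i)) = 0 := by linear_combination h1 + h2' - h3
          obtain ⟨his, hci⟩ := Finset.mem_filter.1 hi
          exact mul_ne_zero h2 (mul_ne_zero (pow_ne_zero 2 hci) (he.aniso i his)) this
        · have : T = {i, j} := by
            ext k
            simp only [Finset.mem_insert, Finset.mem_singleton]
            constructor
            · intro hk
              by_contra hc
              push Not at hc
              exact h3 ⟨k, hk, hc⟩
            · rintro (rfl | rfl) <;> assumption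
          rw [this, Finset.sum_pair hij, hpair i hi j hj hij] at hxx
          exact hx hxx
    obtain ⟨i, hi⟩ := hT1
    have hiT : i ∈ T := by rw [hi]; simp
    obtain ⟨his, hci⟩ := Finset.mem_filter.1 hiT
    rw [hi, Finset.sum_singleton] at hxT hxx
    let e₁ : ι → V := fun k => if k = i then x else e k
    have e1i : e₁ i = x := by simp [e₁]
    have e1k : ∀ k, k ≠ i → e₁ k = e k := fun k h1 => by simp [e₁, h1]
    have hxk : ∀ k ∈ s, k ≠ i → B x (e k) = 0 := fun k hk h => by
      rw [hxT]; simp [he.orth i his k hk h.symm]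
    refine ⟨e₁, i, his, ⟨?_, ?_⟩, e1i, ?_, ?_⟩
    · intro k hk l hl hkl
      by_cases h1 : k = i
      · subst h1; rw [e1i, e1k l hkl.symm, hxk l hl hkl.symm]
      rw [e1k k h1]
      by_cases h3 : l = i
      · subst h3; rw [e1i, hB, hxk k hk h1]
      rw [e1k l h3, he.orth k hk l hl hkl]
    · intro k hk
      by_cases h1 : k = i
      · subst h1; rw [e1i]; exact hx
      rw [e1k k h1]; exact he.aniso k hk
    · apply le_antisymm <;> rw [Submodule.span_le] <;> rintro _ ⟨k, hk, rfl⟩
      · by_cases h1 : k = i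
        · subst h1; rw [e1i, hxT]
          exact Submodule.smul_mem _ _ (Submodule.subset_span ⟨k, hk, rfl⟩)
        rw [e1k k h1]; exact Submodule.subset_span ⟨k, hk, rfl⟩
      · by_cases h1 : k = i
        · subst h1
          have : e k = (c k)⁻¹ • e₁ k := by rw [e1i, hxT, smul_smul, inv_mul_cancel₀ hci, one_smul]
          rw [this]
          exact Submodule.smul_mem _ _ (Submodule.subset_span ⟨k, hk, rfl⟩)
        rw [← e1k k h1]; exact Submodule.subset_span ⟨k, hk, rfl⟩
    · refine Finset.sum_congr rfl fun k hk => ?_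
      by_cases h1 : k = i
      · subst h1; rw [e1i, hxx, mul_comm, hf.sq _ _ hci]
      rw [e1k k h1]

omit [DecidableEq ι] in
theorem mem_span_finset {s : Finset ι} {e : ι → V} {x : V} (hx : x ∈ Submodule.span L (e '' s)) :
    ∃ c : ι → L, x = ∑ i ∈ s, c i • e i := by
  obtain ⟨c, hc⟩ := (Submodule.mem_span_image_finset_iff_exists_fun' L).1 hx
  exact ⟨c, hc.symm⟩

theorem frame_erase {B : LinearMap.BilinForm L V} {s : Finset ι} {e : ι → V} (he : Frame B s e)
    {i : ι} (hi : i ∈ s) {x : V} (hx : x ∈ Submodule.span L (e '' s)) (h0 : B x (e i) = 0) :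
    x ∈ Submodule.span L (e '' (s.erase i : Finset ι)) := by
  obtain ⟨c, rfl⟩ := mem_span_finset hx
  rw [frame_sq he c i hi, mul_eq_zero, or_iff_left (he.aniso i hi)] at h0
  rw [← Finset.add_sum_erase _ _ hi, h0, zero_smul, zero_add]
  exact Submodule.sum_mem _ fun k hk => Submodule.smul_mem _ _ (Submodule.subset_span ⟨k, hk, rfl⟩)

/-- Witt's chain equivalence theorem -/
theorem frame_chain (h2 : (2 : L) ≠ 0) {f : L → M} (hf : WRel f) {B : LinearMap.BilinForm L V}
    (hB : ∀ x y, B x y = B y x) (e' : ι → V) (t : Finset ι) :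
    ∀ (s : Finset ι) (e : ι → V), Frame B s e → Frame B t e' →
      Submodule.span L (e '' s) = Submodule.span L (e' '' t) →
      ∑ i ∈ s, f (B (e i) (e i)) = ∑ i ∈ t, f (B (e' i) (e' i)) := by
  classical
  induction t using Finset.induction_on with
  | empty =>
    intro s e he _ hsp
    have : s = ∅ := by
      rw [Finset.eq_empty_iff_forall_notMem]
      intro i hi
      have : e i ∈ Submodule.span L (e '' s) := Submodule.subset_span ⟨i, hi, rfl⟩
      rw [hsp] at this
      simp only [Finset.coe_empty, Set.image_empty, Submodule.span_empty, Submodule.mem_bot] at this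
      exact he.aniso i hi (by simp [this])
    simp [this]
  | insert j t hj ih =>
    intro s e he he' hsp
    have hjm : j ∈ insert j t := Finset.mem_insert_self j t
    have hx : e' j ∈ Submodule.span L (e '' s) := hsp ▸ Submodule.subset_span ⟨j, hjm, rfl⟩
    obtain ⟨c, hc⟩ := mem_span_finset hx
    obtain ⟨e₁, i₀, hi₀, he₁, hx₁, hsp₁, hsum⟩ :=
      frame_rep h2 hf hB s (e' j) (he'.aniso j hjm) _ e c he hc rfl
    rw [← hsum, Finset.sum_insert hj, ← Finset.add_sum_erase _ _ hi₀, hx₁]
    congr 1
    apply ih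
    · exact ⟨fun a ha b hb => he₁.orth a (Finset.mem_of_mem_erase ha) b (Finset.mem_of_mem_erase hb),
        fun a ha => he₁.aniso a (Finset.mem_of_mem_erase ha)⟩
    · exact ⟨fun a ha b hb => he'.orth a (Finset.mem_insert_of_mem ha) b
        (Finset.mem_insert_of_mem hb), fun a ha => he'.aniso a (Finset.mem_insert_of_mem ha)⟩
    · apply le_antisymm <;> rw [Submodule.span_le] <;> rintro _ ⟨k, hk, rfl⟩
      · have hk' := Finset.mem_erase.1 hk
        have := frame_erase he' hjm (x := e₁ k)
          (by rw [← hsp, ← hsp₁]; exact Submodule.subset_span ⟨k, hk'.2, rfl⟩)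
          (by rw [← hx₁]; exact he₁.orth k hk'.2 i₀ hi₀ hk'.1)
        rwa [Finset.erase_insert hj] at this
      · have hkj : k ≠ j := fun h => hj (h ▸ hk)
        exact frame_erase he₁ hi₀ (x := e' k)
          (by rw [hsp₁, hsp]; exact Submodule.subset_span ⟨k, Finset.mem_insert_of_mem hk, rfl⟩)
          (by rw [hx₁]; exact he'.orth k (Finset.mem_insert_of_mem hk) j hjm hkj)

theorem matrix_chain (h2 : (2 : L) ≠ 0) {f : L → M} (hf : WRel f) {n : ℕ} (a b : Fin n → L)
    (ha : ∀ i, a i ≠ 0) (hb : ∀ i, b i ≠ 0) (P : Matrix (Fin n) (Fin n) L) (hP : IsUnit P)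
    (h : Pᵀ * diagonal a * P = diagonal b) : ∑ i, f (a i) = ∑ i, f (b i) := by
  let B : LinearMap.BilinForm L (Fin n → L) := Matrix.toBilin' (diagonal a)
  have hBe : ∀ x y, B x y = ∑ i, x i * a i * y i := by
    intro x y
    simp only [B, Matrix.toBilin'_apply]
    refine Finset.sum_congr rfl fun i _ => ?_
    rw [Finset.sum_eq_single i]
    · simp
    · intro j _ hj; simp [diagonal, hj.symm]
    · simp
  have hB : ∀ x y, B x y = B y x := fun x y => by
    rw [hBe, hBe]; exact Finset.sum_congr rfl fun i _ => by ring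
  have h1 : ∀ i j, B (Pi.single i 1) (Pi.single j 1) = diagonal a i j := by
    intro i j; simp [B, Matrix.toBilin'_single]
  have h2' : ∀ i j, B (Pᵀ i) (Pᵀ j) = diagonal b i j := by
    intro i j
    rw [← h, hBe, Matrix.mul_apply]
    refine Finset.sum_congr rfl fun k _ => ?_
    simp [Matrix.mul_diagonal]
  have := frame_chain h2 hf hB (fun j => Pᵀ j) Finset.univ Finset.univ (fun i => Pi.single i 1)
    ⟨fun i _ j _ hij => by rw [h1]; simp [hij], fun i _ => by rw [h1]; simp [ha]⟩
    ⟨fun i _ j _ hij => by rw [h2']; simp [hij], fun i _ => by rw [h2']; simp [hb]⟩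
    (by
      simp only [Finset.coe_univ, Set.image_univ]
      have e1 : Submodule.span L (Set.range fun i : Fin n => (Pi.single i 1 : Fin n → L)) = ⊤ := by
        have := (Pi.basisFun L (Fin n)).span_eq
        convert this
        simp
      have e2 : Submodule.span L (Set.range fun j => Pᵀ j) = ⊤ := by
        have := Matrix.mulVec_surjective_iff_isUnit.2 hP
        rw [← Matrix.coe_mulVecLin, ← LinearMap.range_eq_top, Matrix.range_mulVecLin] at this
        exact this
      rw [e1, e2])
  simpa only [h1, h2', diagonal_apply_eq] using this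

/-- The additive universal property of the Witt ring. -/
theorem exists_lift (h2 : (2 : L) ≠ 0) {f : L → M} (h0 : f 0 = 0) (hf : WRel f) :
    ∃ d : Witt L →+ M, ∀ a, d (wf a) = f a := by
  let D : MonoidAlgebra ℤ Lˣ →+ M :=
    (Finsupp.liftAddHom fun x : Lˣ => (smulAddHom ℤ M).flip (f x)).comp
      MonoidAlgebra.coeffAddEquiv.toAddMonoidHom
  have hD : ∀ a : Lˣ, D (MonoidAlgebra.of ℤ Lˣ a) = f a := by
    intro a; simp [D]
  have hker : ∀ x ∈ wittIdeal L, D x = 0 := by
    have key : ∀ x ∈ wittIdeal L, ∀ y, D (y * x) = 0 := by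
      intro x hx
      induction hx using Submodule.span_induction with
      | zero => simp
      | add x y _ _ hx hy => intro z; rw [mul_add, map_add, hx, hy, add_zero]
      | smul r x _ hx => intro z; rw [smul_eq_mul, ← mul_assoc, hx]
      | mem x hx =>
        intro y
        induction y using MonoidAlgebra.induction_on with
        | add y z hy hz => rw [add_mul, map_add, hy, hz, add_zero]
        | smul r y hy => rw [smul_mul_assoc, map_zsmul, hy, smul_zero]
        | of c =>
          rcases hx with rfl | ⟨n, a, b, P, hP, h, rfl⟩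
          · rw [mul_add, ← map_mul, ← map_mul, map_add, hD, hD]
            simp [hf.neg]
          · rw [mul_sub, Finset.mul_sum, Finset.mul_sum, map_sub, map_sum, map_sum, sub_eq_zero]
            simp only [← map_mul, hD]
            apply matrix_chain h2 hf (fun i => ((c * a i : Lˣ) : L)) (fun i => ((c * b i : Lˣ) : L))
              (fun i => Units.ne_zero _) (fun i => Units.ne_zero _) P hP
            have e1 : ∀ a : Fin n → Lˣ, diagonal (fun i => ((c * a i : Lˣ) : L))
                = (c : L) • diagonal (fun i => (a i : L)) := by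
              intro a; ext i j; simp [diagonal]
            rw [e1, e1, ← h]
            simp
    intro x hx
    simpa using key x hx 1
  refine ⟨QuotientAddGroup.lift (wittIdeal L).toAddSubgroup D hker, fun a => ?_⟩
  by_cases ha : a = 0
  · rw [ha, wf_zero, map_zero, h0]
  lift a to Lˣ using IsUnit.mk0 a ha
  rw [wf_units]
  exact hD a

end chain

end Pool.Agent.P.MP_a9963e_ag
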