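import Mathlib
import Pool.Agent.P.MP_a9963e_ag.Basic

namespace Pool.Agent.P.MP_a9963e_ag

variable {S : Type} [CommRing S] {L κ : Type} [Field L] [Field κ] {M : Type} [AddCommGroup M]

/-- every element of the field is a fraction of elements of the image -/
def FracSurj (ψ : S →+* κ) : Prop := ∀ x : κ, ∃ a b : S, ψ b ≠ 0 ∧ x * ψ b = ψ a

theorem wf_frac {ψ : S →+* κ} {x : κ} {a b : S} (hb : ψ b ≠ 0) (h : x * ψ b = ψ a) :
    wf x = wf (ψ (a * b)) := by
  rw [← wf_mul_sq x hb, map_mul, ← h]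
  congr 1
  ring

theorem exists_extend {N : Type} {ψ : S →+* κ} (hψ : FracSurj ψ) {f : S → N}
    (hc : ∀ a b, ψ a = ψ b → f a = f b) (hsq : ∀ a b, ψ b ≠ 0 → f (a * b ^ 2) = f a) :
    ∃ F : κ → N, ∀ x a b, ψ b ≠ 0 → x * ψ b = ψ a → F x = f (a * b) := by
  choose num den hden hnum using hψ
  refine ⟨fun x => f (num x * den x), fun x a b hb h => ?_⟩
  change f (num x * den x) = _
  rw [← hsq (num x * den x) b hb, ← hsq (a * b) (den x) (hden x)]
  apply hc
  simp only [map_mul, map_pow, ← h, ← hnum]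
  ring

theorem exists_lift_ring (h2 : (2 : κ) ≠ 0) {ψ : S →+* κ} (hψ : FracSurj ψ) {f : S → M}
    (hc : ∀ a b, ψ a = ψ b → f a = f b) (h0 : f 0 = 0)
    (hsq : ∀ a b, ψ b ≠ 0 → f (a * b ^ 2) = f a) (hneg : ∀ a, f (-a) = -f a)
    (hadd : ∀ a b, f a + f b = f (a + b) + f (a * b * (a + b))) :
    ∃ d : Witt κ →+ M, ∀ a, d (wf (ψ a)) = f a := by
  obtain ⟨F, hF⟩ := exists_extend hψ hc hsq
  have hF1 : ∀ a, F (ψ a) = f a := fun a => by simpa using hF (ψ a) a 1 (by simp) (by simp)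
  suffices h : WRel F by
    obtain ⟨d, hd⟩ := exists_lift h2 (f := F) (by simpa [h0] using hF1 0) h
    exact ⟨d, fun a => by rw [hd, hF1]⟩
  refine ⟨?_, ?_, ?_⟩
  · intro x y hy
    obtain ⟨a, b, hb, h⟩ := hψ x
    obtain ⟨c, e, he, h'⟩ := hψ y
    have hc0 : ψ c ≠ 0 := by rw [← h']; exact mul_ne_zero hy he
    rw [hF x a b hb h, hF (x * y ^ 2) (a * c ^ 2) (b * e ^ 2) (by simp [hb, he])
      (by simp only [map_mul, map_pow, ← h, ← h']; ring),
      ← hsq (a * b) (c * e) (by simp [hc0, he])]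
    congr 1
    ring
  · intro x
    obtain ⟨a, b, hb, h⟩ := hψ x
    rw [hF x a b hb h, hF (-x) (-a) b hb (by simp [← h]), neg_mul, hneg]
  · intro x y
    obtain ⟨a, b, hb, h⟩ := hψ x
    obtain ⟨c, e, he, h'⟩ := hψ y
    have hD : ψ (b * e) ≠ 0 := by simp [hb, he]
    rw [hF x (a * e) (b * e) hD (by simp only [map_mul, ← h]; ring),
      hF y (c * b) (b * e) hD (by simp only [map_mul, ← h']; ring),
      hF (x + y) (a * e + c * b) (b * e) hD (by simp only [map_mul, map_add, ← h, ← h']; ring),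
      hF (x * y * (x + y)) (a * e * (c * b) * (a * e + c * b)) ((b * e) ^ 3)
        (by simp [hb, he]) (by simp only [map_mul, map_add, map_pow, ← h, ← h']; ring), hadd]
    congr 2 <;> ring

theorem witt_mem_ring {ψ : S →+* κ} (hψ : FracSurj ψ) (N : AddSubgroup (Witt κ))
    (h : ∀ a : S, ψ a ≠ 0 → wf (ψ a) ∈ N) (q : Witt κ) : q ∈ N := by
  refine witt_mem N (fun x hx => ?_) q
  obtain ⟨a, b, hb, hab⟩ := hψ x
  rw [wf_frac hb hab]
  apply h
  rw [map_mul, ← hab]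
  simp [hx, hb]

theorem wf_pow_even {x : L} (hx : x ≠ 0) {n : ℕ} (hn : Even n) (y : L) :
    wf (x ^ n * y) = wf y := by
  obtain ⟨k, rfl⟩ := hn
  rw [← wf_mul_sq y (pow_ne_zero k hx)]
  congr 1
  ring

theorem wf_pow_odd {x : L} (hx : x ≠ 0) {n : ℕ} (hn : Odd n) (y : L) :
    wf (x ^ n * y) = wf (x * y) := by
  obtain ⟨k, rfl⟩ := hn
  rw [← wf_mul_sq (x * y) (pow_ne_zero k hx)]
  congr 1
  ring

section prime

variable [IsDomain S] [WfDvdMonoid S] {π : S}

theorem exists_pow_factor (hπ : Prime π) {a : S} (ha : a ≠ 0) :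
    ∃ (n : ℕ) (a' : S), ¬ π ∣ a' ∧ a = π ^ n * a' :=
  WfDvdMonoid.max_power_factor ha hπ.irreducible

omit [WfDvdMonoid S] in
theorem pow_factor_unique (hπ : Prime π) {n m : ℕ} {a b : S} (ha : ¬ π ∣ a) (hb : ¬ π ∣ b)
    (h : π ^ n * a = π ^ m * b) : n = m ∧ a = b := by
  have key : ∀ {n m : ℕ} {a b : S}, ¬ π ∣ a → π ^ n * a = π ^ m * b → m ≤ n := by
    intro n m a b ha h
    by_contra hlt
    push Not at hlt
    obtain ⟨k, rfl⟩ := Nat.exists_eq_add_of_lt hlt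
    rw [add_assoc, pow_add, mul_assoc] at h
    have := mul_left_cancel₀ (pow_ne_zero n hπ.ne_zero) h
    exact ha ⟨π ^ k * b, by rw [this]; ring⟩
  have e : n = m := le_antisymm (key hb h.symm) (key ha h)
  subst e
  exact ⟨rfl, mul_left_cancel₀ (pow_ne_zero n hπ.ne_zero) h⟩

theorem witt_mem_prime (hπ : Prime π) {φ : S →+* L} (hi : Function.Injective φ)
    (hφ : FracSurj φ) (N : AddSubgroup (Witt L))
    (h : ∀ a : S, ¬ π ∣ a → wf (φ a) ∈ N ∧ wf (φ (π * a)) ∈ N) (q : Witt L) : q ∈ N := by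
  refine witt_mem_ring hφ N (fun a ha => ?_) q
  have ha0 : a ≠ 0 := by rintro rfl; simp at ha
  obtain ⟨n, a', h1, rfl⟩ := exists_pow_factor hπ ha0
  have hπ0 : φ π ≠ 0 := (map_ne_zero_iff φ hi).2 hπ.ne_zero
  rw [map_mul, map_pow]
  rcases Nat.even_or_odd n with hn | hn
  · rw [wf_pow_even hπ0 hn]; exact (h a' h1).1
  · rw [wf_pow_odd hπ0 hn, ← map_mul]; exact (h a' h1).2

/-- first and second residue maps -/
theorem exists_res_par (h2 : (2 : L) ≠ 0) (hπ : Prime π) {φ : S →+* L}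
    (hi : Function.Injective φ) (hφ : FracSurj φ) (ψ : S →+* κ) (hψ : ∀ a, ψ a = 0 ↔ π ∣ a)
    (ε : ℕ) : ∃ d : Witt L →+ Witt κ, ∀ (n : ℕ) (a : S), ¬ π ∣ a →
      d (wf (φ (π ^ n * a))) = if n % 2 = ε then wf (ψ a) else 0 := by
  classical
  have hex : ∀ a : S, a ≠ 0 → ∃ (n : ℕ) (a' : S), ¬ π ∣ a' ∧ a = π ^ n * a' :=
    fun a ha => exists_pow_factor hπ ha
  choose! nn uu huu hnu using hex
  let f : S → Witt κ := fun a => if a = 0 then 0 else if nn a % 2 = ε then wf (ψ (uu a)) else 0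
  have hf0 : f 0 = 0 := by simp [f]
  have hne : ∀ (n : ℕ) (a : S), ¬ π ∣ a → π ^ n * a ≠ 0 := fun n a ha =>
    mul_ne_zero (pow_ne_zero n hπ.ne_zero) (by rintro rfl; exact ha (dvd_zero _))
  have hf : ∀ (n : ℕ) (a : S), ¬ π ∣ a → f (π ^ n * a) = if n % 2 = ε then wf (ψ a) else 0 := by
    intro n a ha
    have h0 := hne n a ha
    obtain ⟨e1, e2⟩ := pow_factor_unique hπ ha (huu _ h0) (hnu _ h0)
    simp only [f, if_neg h0, ← e1, ← e2]
  have hmul : ∀ {a b : S}, ¬ π ∣ a → ¬ π ∣ b → ¬ π ∣ a * b := fun ha hb h =>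
    (hπ.dvd_or_dvd h).elim ha hb
  have hψ0 : ∀ {a : S}, ¬ π ∣ a → ψ a ≠ 0 := fun ha h => ha ((hψ _).1 h)
  have hψπ : ψ π = 0 := (hψ π).2 dvd_rfl
  have hneg : ∀ a, f (-a) = -f a := by
    intro a
    by_cases ha : a = 0
    · simp [ha, hf0]
    obtain ⟨n, a', h1, rfl⟩ := exists_pow_factor hπ ha
    rw [← mul_neg, hf n _ (by simpa using h1), hf n _ h1, map_neg, wf_neg]
    split_ifs <;> simp
  have hlt : ∀ (n k : ℕ) (a b : S), ¬ π ∣ a → ¬ π ∣ b →
      f (π ^ n * a) + f (π ^ (n + k + 1) * b) = f (π ^ n * a + π ^ (n + k + 1) * b) +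
        f (π ^ n * a * (π ^ (n + k + 1) * b) * (π ^ n * a + π ^ (n + k + 1) * b)) := by
    intro n k a b ha hb
    have hc : ¬ π ∣ a + π ^ (k + 1) * b := fun h =>
      ha ((dvd_add_left (Dvd.intro (π ^ k * b) (by ring))).1 h)
    have e1 : π ^ n * a + π ^ (n + k + 1) * b = π ^ n * (a + π ^ (k + 1) * b) := by ring
    have e2 : π ^ n * a * (π ^ (n + k + 1) * b) * (π ^ n * (a + π ^ (k + 1) * b))
        = π ^ (n + k + 1 + 2 * n) * (a * b * (a + π ^ (k + 1) * b)) := by ring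
    rw [e1, e2, hf _ _ ha, hf _ _ hb, hf _ _ hc, hf _ _ (hmul (hmul ha hb) hc),
      Nat.add_mul_mod_self_left]
    simp only [map_add, map_mul, map_pow, hψπ, ne_eq, Nat.add_eq_zero_iff, one_ne_zero, and_false,
      not_false_eq_true, zero_pow, zero_mul, add_zero]
    rw [show ψ a * ψ b * ψ a = ψ b * ψ a ^ 2 by ring, wf_mul_sq _ (hψ0 ha)]
  suffices h : (∀ a b, φ b ≠ 0 → f (a * b ^ 2) = f a) ∧
      ∀ a b, f a + f b = f (a + b) + f (a * b * (a + b)) by
    obtain ⟨d, hd⟩ := exists_lift_ring h2 hφ (f := f) (fun a b h => by rw [hi h]) hf0 h.1 hneg h.2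
    exact ⟨d, fun n a ha => by rw [hd, hf n a ha]⟩
  constructor
  · intro a b hb
    by_cases ha : a = 0
    · simp [ha]
    have hb0 : b ≠ 0 := by rintro rfl; simp at hb
    obtain ⟨n, a', h1, rfl⟩ := exists_pow_factor hπ ha
    obtain ⟨m, b', h2, rfl⟩ := exists_pow_factor hπ hb0
    rw [show π ^ n * a' * (π ^ m * b') ^ 2 = π ^ (n + 2 * m) * (a' * (b' * b')) by ring,
      hf _ _ (hmul h1 (hmul h2 h2)), hf _ _ h1, Nat.add_mul_mod_self_left, map_mul, map_mul, ← sq,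
      wf_mul_sq _ (hψ0 h2)]
  · intro a b
    by_cases ha : a = 0
    · simp [ha, hf0]
    by_cases hb : b = 0
    · simp [hb, hf0]
    obtain ⟨n, a', h1, rfl⟩ := exists_pow_factor hπ ha
    obtain ⟨m, b', h2, rfl⟩ := exists_pow_factor hπ hb
    rcases lt_trichotomy n m with h | rfl | h
    · obtain ⟨k, rfl⟩ := Nat.exists_eq_add_of_lt h
      exact hlt n k a' b' h1 h2
    · by_cases h3 : π ∣ a' + b'
      · have e0 : ψ b' = -ψ a' := by
          have := (hψ _).2 h3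
          rw [map_add] at this
          exact eq_neg_of_add_eq_zero_right this
        have e1 : f (π ^ n * a') + f (π ^ n * b') = 0 := by
          rw [hf _ _ h1, hf _ _ h2, e0, wf_neg]
          split_ifs <;> simp
        rw [e1]
        by_cases hc : π ^ n * a' + π ^ n * b' = 0
        · simp [hc, hf0]
        obtain ⟨k, c', h4, hc'⟩ := exists_pow_factor hπ hc
        rw [hc', show π ^ n * a' * (π ^ n * b') * (π ^ k * c') = π ^ (k + 2 * n) * (a' * b' * c')
          by ring, hf _ _ h4, hf _ _ (hmul (hmul h1 h2) h4), Nat.add_mul_mod_self_left]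
        simp only [map_mul, e0]
        rw [show ψ a' * -ψ a' * ψ c' = -(ψ c' * ψ a' ^ 2) by ring, wf_neg, wf_mul_sq _ (hψ0 h1)]
        split_ifs <;> simp
      · rw [← mul_add, show π ^ n * a' * (π ^ n * b') * (π ^ n * (a' + b'))
          = π ^ (n + 2 * n) * (a' * b' * (a' + b')) by ring, hf _ _ h1, hf _ _ h2, hf _ _ h3,
          hf _ _ (hmul (hmul h1 h2) h3), Nat.add_mul_mod_self_left]
        split_ifs
        · simp only [map_mul, map_add]; exact wf_add _ _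
        · simp
    · obtain ⟨k, rfl⟩ := Nat.exists_eq_add_of_lt h
      rw [add_comm, add_comm (π ^ (m + k + 1) * a'), mul_comm (π ^ (m + k + 1) * a')]
      exact hlt m k b' a' h2 h1

theorem exists_res (h2 : (2 : L) ≠ 0) (hπ : Prime π) {φ : S →+* L}
    (hi : Function.Injective φ) (hφ : FracSurj φ) (ψ : S →+* κ) (hψ : ∀ a, ψ a = 0 ↔ π ∣ a) :
    ∃ d0 d1 : Witt L →+ Witt κ, ∀ a : S, ¬ π ∣ a →
      d0 (wf (φ a)) = wf (ψ a) ∧ d0 (wf (φ (π * a))) = 0 ∧
      d1 (wf (φ a)) = 0 ∧ d1 (wf (φ (π * a))) = wf (ψ a) := by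
  obtain ⟨d0, h0⟩ := exists_res_par h2 hπ hi hφ ψ hψ 0
  obtain ⟨d1, h1⟩ := exists_res_par h2 hπ hi hφ ψ hψ 1
  refine ⟨d0, d1, fun a ha => ⟨?_, ?_, ?_, ?_⟩⟩
  · simpa using h0 0 a ha
  · simpa using h0 1 a ha
  · simpa using h1 0 a ha
  · simpa using h1 1 a ha

/-- the subgroup generated by forms of elements prime to `π` -/
noncomputable def Unr (φ : S →+* L) (π : S) : AddSubgroup (Witt L) :=
  AddSubgroup.closure {q | ∃ a : S, ¬ π ∣ a ∧ q = wf (φ a)}

omit [IsDomain S] [WfDvdMonoid S] in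
theorem mem_Unr {φ : S →+* L} {a : S} (ha : ¬ π ∣ a) : wf (φ a) ∈ Unr φ π :=
  AddSubgroup.subset_closure ⟨a, ha, rfl⟩

omit [IsDomain S] [WfDvdMonoid S] in
theorem Unr_le_ker {φ : S →+* L} (d : Witt L →+ M) (hd : ∀ a, ¬ π ∣ a → d (wf (φ a)) = 0)
    {q : Witt L} (hq : q ∈ Unr φ π) : d q = 0 := by
  have : Unr φ π ≤ d.ker := by
    rw [Unr, AddSubgroup.closure_le]
    rintro _ ⟨a, ha, rfl⟩
    exact hd a ha
  exact this hq

/-- the kernel of the second residue is generated by unit forms -/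
theorem mem_Unr_of_res (h2 : (2 : κ) ≠ 0) (hπ : Prime π) {φ : S →+* L}
    (hi : Function.Injective φ) (hφ : FracSurj φ) {ψ : S →+* κ} (hψ : ∀ a, ψ a = 0 ↔ π ∣ a)
    (hψs : FracSurj ψ) (d : Witt L →+ Witt κ)
    (hd : ∀ a, ¬ π ∣ a → d (wf (φ a)) = 0 ∧ d (wf (φ (π * a))) = wf (ψ a))
    {q : Witt L} (hq : d q = 0) : q ∈ Unr φ π := by
  classical
  let mk := QuotientAddGroup.mk' (Unr φ π)
  have hmk : ∀ a, ¬ π ∣ a → mk (wf (φ a)) = 0 := fun a ha =>
    (QuotientAddGroup.eq_zero_iff _).2 (mem_Unr ha)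
  have hπ0 : φ π ≠ 0 := (map_ne_zero_iff φ hi).2 hπ.ne_zero
  have hmul : ∀ {a b : S}, ¬ π ∣ a → ¬ π ∣ b → ¬ π ∣ a * b := fun ha hb h =>
    (hπ.dvd_or_dvd h).elim ha hb
  have step1 : ∀ a x, ¬ π ∣ a → ¬ π ∣ x → mk (wf (φ (π * (a + π * x)))) = mk (wf (φ (π * a))) := by
    intro a x ha hx
    have hb : ¬ π ∣ a + π * x := fun h => ha ((dvd_add_left (dvd_mul_right π x)).1 h)
    have := congrArg mk (wf_add (φ (π * a)) (φ (π ^ 2 * x)))
    rw [map_add, map_add, ← map_add φ, ← map_mul φ, ← map_mul φ,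
      show π * a + π ^ 2 * x = π * (a + π * x) by ring,
      show π * a * (π ^ 2 * x) * (π * (a + π * x)) = π ^ 4 * (a * x * (a + π * x)) by ring,
      map_mul φ (π ^ 2), map_mul φ (π ^ 4), map_pow, map_pow, wf_pow_even hπ0 (by decide),
      wf_pow_even hπ0 (by decide), hmk x hx, hmk _ (hmul (hmul ha hx) hb)] at this
    simpa using this.symm
  have step2 : ∀ a x, ¬ π ∣ a → mk (wf (φ (π * (a + π * x)))) = mk (wf (φ (π * a))) := by
    intro a x ha
    by_cases hx : π ∣ x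
    · have h1 : ¬ π ∣ 1 := hπ.not_dvd_one
      have hb : ¬ π ∣ a + π * 1 := fun h => ha ((dvd_add_left (dvd_mul_right π 1)).1 h)
      have hx1 : ¬ π ∣ x - 1 := fun h => h1 (by simpa using dvd_sub hx h)
      rw [← step1 a 1 ha h1, ← step1 _ (x - 1) hb hx1]
      congr 4
      ring
    · exact step1 a x ha hx
  let f : S → Witt L ⧸ Unr φ π := fun a => if π ∣ a then 0 else mk (wf (φ (π * a)))
  have hc : ∀ a b, ψ a = ψ b → f a = f b := by
    intro a b h
    have : π ∣ b - a := (hψ _).1 (by rw [map_sub, h, sub_self])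
    obtain ⟨x, hx⟩ := this
    have hb : b = a + π * x := by rw [← hx]; ring
    subst hb
    by_cases ha : π ∣ a
    · simp [f, ha, dvd_add ha (dvd_mul_right π x)]
    · have hb : ¬ π ∣ a + π * x := fun h => ha ((dvd_add_left (dvd_mul_right π x)).1 h)
      simp only [f, if_neg ha, if_neg hb, step2 a x ha]
  have hneg : ∀ a, f (-a) = -f a := by
    intro a
    simp only [f, dvd_neg, mul_neg, map_neg, wf_neg]
    split_ifs <;> simp
  have hf0 : ∀ a, π ∣ a → f a = 0 := fun a ha => by simp [f, ha]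
  suffices h : (∀ a b, ψ b ≠ 0 → f (a * b ^ 2) = f a) ∧
      ∀ a b, f a + f b = f (a + b) + f (a * b * (a + b)) by
    obtain ⟨σ, hσ⟩ := exists_lift_ring h2 hψs hc (hf0 0 (dvd_zero _)) h.1 hneg h.2
    have key : ∀ q, q ∈ (σ.comp d - mk).ker := by
      intro q
      refine witt_mem_prime hπ hi hφ _ (fun a ha => ⟨?_, ?_⟩) q
      · simp [AddMonoidHom.mem_ker, (hd a ha).1, hmk a ha]
      · rw [AddMonoidHom.mem_ker, AddMonoidHom.sub_apply, AddMonoidHom.comp_apply, (hd a ha).2, hσ]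
        simp [f, ha]
    have := key q
    rw [AddMonoidHom.mem_ker, AddMonoidHom.sub_apply, AddMonoidHom.comp_apply, hq, map_zero,
      zero_sub, neg_eq_zero] at this
    exact (QuotientAddGroup.eq_zero_iff _).1 this
  constructor
  · intro a b hb
    have hb' : ¬ π ∣ b := fun h => hb ((hψ _).2 h)
    by_cases ha : π ∣ a
    · rw [hf0 a ha, hf0 _ (ha.mul_right _)]
    · have : ¬ π ∣ a * b ^ 2 := by rw [sq]; exact hmul ha (hmul hb' hb')
      simp only [f, if_neg ha, if_neg this]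
      rw [← mul_assoc, map_mul φ (π * a), map_pow, wf_mul_sq]
      exact (map_ne_zero_iff φ hi).2 (by rintro rfl; exact hb' (dvd_zero _))
  · intro a b
    by_cases ha : π ∣ a
    · rw [hf0 a ha, hf0 _ ((ha.mul_right _).mul_right _), hc (a + b) b (by simp [(hψ a).2 ha])]
      simp
    by_cases hb : π ∣ b
    · rw [hf0 b hb, hf0 _ ((hb.mul_left _).mul_right _), hc (a + b) a (by simp [(hψ b).2 hb])]
    by_cases hab : π ∣ a + b
    · rw [hf0 _ hab, hf0 _ (hab.mul_left _), hc b (-a), hneg]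
      · simp
      · have := (hψ _).2 hab
        rw [map_add] at this
        rw [map_neg]
        exact eq_neg_of_add_eq_zero_right this
    simp only [f, if_neg ha, if_neg hb, if_neg hab, if_neg (hmul (hmul ha hb) hab)]
    rw [← map_add, ← map_add, wf_add, ← map_add φ, ← map_mul φ, ← map_mul φ, ← mul_add,
      show π * a * (π * b) * (π * (a + b)) = π ^ 2 * (π * (a * b * (a + b))) by ring,
      map_mul φ (π ^ 2), map_pow, wf_pow_even hπ0 (by decide)]

end prime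

/-- functoriality -/
theorem exists_wmap (h2 : (2 : κ) ≠ 0) (j : κ →+* L) :
    ∃ i : Witt κ →+ Witt L, ∀ a, i (wf a) = wf (j a) :=
  exists_lift h2 (by simp) ⟨fun a b hb => by
    rw [map_mul, map_pow, wf_mul_sq _ ((map_ne_zero j).2 hb)], fun a => by rw [map_neg, wf_neg],
    fun a b => by simp only [map_add, map_mul]; exact wf_add _ _⟩

end Pool.Agent.P.MP_a9963e_ag
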