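import Mathlib
import Pool.Agent.P.MP_a9963e_ag.Res

namespace Pool.Agent.P.MP_a9963e_ag

open MvPolynomial
open scoped MonomialOrder

variable {F L : Type} [Field F] [Field L] {σ : Type}

/-- a homomorphism to an elementary abelian two-group that comes from a valuation -/
structure Par (v : L → σ → ZMod 2) : Prop where
  mul : ∀ x y, x ≠ 0 → y ≠ 0 → v (x * y) = v x + v y
  neg : ∀ x, v (-x) = v x
  add : ∀ x y, x ≠ 0 → y ≠ 0 → x + y ≠ 0 → v (x + y) = v x ∨ v (x + y) = v y ∨ v x = v y

theorem vadd_self (w : σ → ZMod 2) : w + w = 0 := by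
  ext i
  have : ∀ x : ZMod 2, x + x = 0 := by decide
  exact this _

theorem exists_par (m : MonomialOrder σ) {φ : MvPolynomial σ F →+* L} (hi : Function.Injective φ)
    (hs : FracSurj φ) : ∃ v : L → σ → ZMod 2, Par v ∧
      ∀ f, f ≠ 0 → v (φ f) = fun i => (m.degree f i : ZMod 2) := by
  let g : MvPolynomial σ F → σ → ZMod 2 := fun f i => (m.degree f i : ZMod 2)
  have hg : ∀ a b, a ≠ 0 → b ≠ 0 → g (a * b) = g a + g b := by
    intro a b ha hb
    ext i
    simp [g, m.degree_mul ha hb]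
  have hne : ∀ {b}, φ b ≠ 0 → b ≠ 0 := by rintro b hb rfl; simp at hb
  obtain ⟨v, hv⟩ := exists_extend hs (f := g) (fun a b h => by rw [hi h]) (fun a b hb => by
    by_cases ha : a = 0
    · simp [ha]
    rw [sq, hg _ _ ha (mul_ne_zero (hne hb) (hne hb)), hg _ _ (hne hb) (hne hb), vadd_self,
      add_zero])
  refine ⟨v, ⟨?_, ?_, ?_⟩, fun f _ => by simpa using hv (φ f) f 1 (by simp) (by simp)⟩
  · intro x y hx hy
    obtain ⟨a, b, hb, h⟩ := hs x
    obtain ⟨c, e, he, h'⟩ := hs y
    have ha : a ≠ 0 := hne (by rw [← h]; exact mul_ne_zero hx hb)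
    have hc : c ≠ 0 := hne (by rw [← h']; exact mul_ne_zero hy he)
    rw [hv x a b hb h, hv y c e he h', hv (x * y) (a * c) (b * e) (by simp [hb, he])
      (by simp only [map_mul, ← h, ← h']; ring),
      ← hg _ _ (mul_ne_zero ha (hne hb)) (mul_ne_zero hc (hne he))]
    congr 1
    ring
  · intro x
    obtain ⟨a, b, hb, h⟩ := hs x
    rw [hv x a b hb h, hv (-x) (-a) b hb (by simp [← h]), neg_mul]
    simp [g, m.degree_neg]
  · intro x y hx hy hxy
    obtain ⟨a, b, hb, h⟩ := hs x
    obtain ⟨c, e, he, h'⟩ := hs y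
    have hD : φ (b * e) ≠ 0 := by simp [hb, he]
    rw [hv x (a * e) (b * e) hD (by simp only [map_mul, ← h]; ring),
      hv y (c * b) (b * e) hD (by simp only [map_mul, ← h']; ring),
      hv (x + y) (a * e + c * b) (b * e) hD (by simp only [map_mul, map_add, ← h, ← h']; ring),
      add_mul]
    generalize a * e * (b * e) = p
    generalize c * b * (b * e) = q
    rcases lt_trichotomy (m.toSyn (m.degree p)) (m.toSyn (m.degree q)) with h | h | h
    · exact Or.inr (Or.inl (by simp only [g, m.degree_add_eq_right_of_lt h]))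
    · exact Or.inr (Or.inr (by simp only [g, m.toSyn.injective h]))
    · exact Or.inl (by simp only [g, m.degree_add_of_lt h])

theorem Par.sq {v : L → σ → ZMod 2} (hv : Par v) {x y : L} (hx : x ≠ 0) (hy : y ≠ 0) :
    v (x * y ^ 2) = v x := by
  rw [_root_.sq, hv.mul _ _ hx (mul_ne_zero hy hy), hv.mul _ _ hy hy, vadd_self, add_zero]

theorem Par.one {v : L → σ → ZMod 2} (hv : Par v) : v 1 = 0 := by
  have := hv.mul 1 1 one_ne_zero one_ne_zero
  rwa [mul_one, vadd_self] at this

theorem Par.pow {v : L → σ → ZMod 2} (hv : Par v) {x : L} (hx : x ≠ 0) (n : ℕ) :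
    v (x ^ n) = (n : ZMod 2) • v x := by
  induction n with
  | zero => simp [hv.one]
  | succ n ih => rw [pow_succ, hv.mul _ _ (pow_ne_zero n hx) hx, ih]; push_cast; rw [add_smul, one_smul]

theorem Par.exists_fun (h2 : (2 : L) ≠ 0) {v : L → σ → ZMod 2} (hv : Par v)
    (Ψ : (σ → ZMod 2) → ZMod 2) :
    ∃ d : Witt L →+ ZMod 2, ∀ x, x ≠ 0 → d (wf x) = Ψ (v x) := by
  classical
  have hself : ∀ x : ZMod 2, x + x = 0 := by decide
  have hneg : ∀ x : ZMod 2, -x = x := by decide
  obtain ⟨d, hd⟩ := exists_lift h2 (f := fun x : L => if x = 0 then 0 else Ψ (v x)) (by simp)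
    ⟨fun a b hb => by
      by_cases ha : a = 0
      · simp [ha]
      · simp [ha, hb, hv.sq ha hb],
    fun a => by simp [hv.neg, hneg],
    fun a b => by
      by_cases ha : a = 0
      · simp [ha]
      by_cases hb : b = 0
      · simp [hb]
      by_cases hab : a + b = 0
      · simp [hab, ha, eq_neg_of_add_eq_zero_right hab, hv.neg, hself]
      simp only [ha, hb, hab, mul_eq_zero, or_self, if_false]
      rw [hv.mul _ _ (mul_ne_zero ha hb) hab, hv.mul _ _ ha hb]
      rcases hv.add a b ha hb hab with h | h | h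
      · rw [h, add_right_comm, vadd_self, zero_add]
      · rw [h, add_assoc, vadd_self, add_zero, add_comm]
      · rw [h, vadd_self, zero_add, hself, hself]⟩
  exact ⟨d, fun x hx => by rw [hd, if_neg hx]⟩

theorem fund_step {M : Type} [AddCommGroup M] (d : Witt L →+ M) (J : Ideal (Witt L)) (y : Witt L)
    (h : ∀ a b : Lˣ, ∀ z ∈ J, d (y * (form a + form b) * z) = 0) :
    ∀ z ∈ fund L * J, d (y * z) = 0 := by
  have key : ∀ w ∈ fund L, ∀ z ∈ J, d (y * w * z) = 0 := by
    intro w hw
    induction hw using Submodule.span_induction with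
    | mem x hx => obtain ⟨a, b, rfl⟩ := hx; exact h a b
    | zero => simp
    | add x x' _ _ hx hx' => intro z hz; rw [mul_add, add_mul, map_add, hx z hz, hx' z hz, add_zero]
    | smul r x _ hx =>
      intro z hz
      rw [smul_eq_mul, show y * (r * x) * z = y * x * (r * z) by ring]
      exact hx _ (J.mul_mem_left r hz)
  intro z hz
  refine Submodule.mul_induction_on hz (fun w hw z hz => ?_) (fun a b ha hb => ?_)
  · rw [← mul_assoc]; exact key w hw z hz
  · rw [mul_add, map_add, ha, hb, add_zero]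

theorem top_step {M : Type} [AddCommGroup M] (d : Witt L →+ M) (y : Witt L)
    (h : ∀ c : Lˣ, d (y * form c) = 0) (z : Witt L) : d (y * z) = 0 := by
  refine witt_mem (d.comp (AddMonoidHom.mulLeft y)).ker (fun a ha => ?_) z
  lift a to Lˣ using IsUnit.mk0 a ha
  rw [wf_units]
  exact h a

theorem Par.kill_sq {v : L → σ → ZMod 2} (hv : Par v) (i : σ) {d : Witt L →+ ZMod 2}
    (hd : ∀ x, x ≠ 0 → d (wf x) = v x i) {q : Witt L} (hq : q ∈ fund L ^ 2) : d q = 0 := by
  rw [show fund L ^ 2 = fund L * (fund L * ⊤) by simp [_root_.sq]] at hq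
  rw [← one_mul q]
  refine fund_step d _ 1 (fun a b => fund_step d _ _ fun a' b' z _ => top_step d _ (fun c => ?_) z)
    q hq
  simp only [one_mul, mul_add, add_mul, map_add, ← form_mul]
  simp only [← wf_units, hd _ (Units.ne_zero _)]
  simp only [Units.val_mul, hv.mul _ _ (mul_ne_zero (Units.ne_zero _) (Units.ne_zero _))
    (Units.ne_zero _), hv.mul _ _ (Units.ne_zero _) (Units.ne_zero _), Pi.add_apply]
  generalize v a i = x1, v b i = x2, v a' i = x3, v b' i = x4, v c i = x5
  revert x1 x2 x3 x4 x5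
  decide

theorem Par.kill_cube {v : L → σ → ZMod 2} (hv : Par v) (i j : σ) {d : Witt L →+ ZMod 2}
    (hd : ∀ x, x ≠ 0 → d (wf x) = v x i * v x j) {q : Witt L} (hq : q ∈ fund L ^ 3) : d q = 0 := by
  rw [show fund L ^ 3 = fund L * (fund L * (fund L * ⊤)) by simp [pow_succ, mul_assoc]] at hq
  rw [← one_mul q]
  refine fund_step d _ 1 (fun a b => fund_step d _ _ fun a' b' => fund_step d _ _
    fun a'' b'' z _ => top_step d _ (fun c => ?_) z) q hq
  simp only [one_mul, mul_add, add_mul, map_add, ← form_mul]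
  simp only [← wf_units, hd _ (Units.ne_zero _)]
  simp only [Units.val_mul, hv.mul _ _ (mul_ne_zero (mul_ne_zero (Units.ne_zero _) (Units.ne_zero _))
    (Units.ne_zero _)) (Units.ne_zero _),
    hv.mul _ _ (mul_ne_zero (Units.ne_zero _) (Units.ne_zero _))
    (Units.ne_zero _), hv.mul _ _ (Units.ne_zero _) (Units.ne_zero _), Pi.add_apply]
  generalize v a i = x1, v b i = x2, v a' i = x3, v b' i = x4, v a'' i = x5, v b'' i = x6,
    v c i = x7, v a j = y1, v b j = y2, v a' j = y3, v b' j = y4, v a'' j = y5, v b'' j = y6,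
    v c j = y7
  have h2 : (2 : ZMod 2) = 0 := by decide
  linear_combination ((x1 + x2) * (2 * y1 + 2 * y2 + y3 + y4 + y5 + y6 + 2 * y7)
    + (x3 + x4) * (y1 + y2 + y5 + y6 + 2 * y7) + (x5 + x6) * (y1 + y2 + y3 + y4 + 2 * y7)
    + x7 * (2 * (y1 + y2 + y3 + y4 + y5 + y6) + 4 * y7)
    - 2 * (x1 * y2 + x2 * y1) + 2 * (x3 * y3 + x4 * y4 + x5 * y5 + x6 * y6)) * h2

end Pool.Agent.P.MP_a9963e_ag
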