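import Mathlib
import Pool.Agent.P.MP_a9963e_ag.Res

namespace Pool.Agent.P.MP_a9963e_ag

open Polynomial

variable {K L : Type} [Field K] [Field L]

/-- all monic irreducible factors are allowed -/
def Al (A : Set K[X]) (g : K[X]) : Prop := g ≠ 0 ∧ ∀ p, Irreducible p → p.Monic → p ∣ g → p ∈ A

theorem Al.mul {A : Set K[X]} {g h : K[X]} (hg : Al A g) (hh : Al A h) : Al A (g * h) :=
  ⟨mul_ne_zero hg.1 hh.1, fun p hp hm hd =>
    (hp.prime.dvd_or_dvd hd).elim (hg.2 p hp hm) (hh.2 p hp hm)⟩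

theorem Al.of_dvd {A : Set K[X]} {g h : K[X]} (hh : Al A h) (hd : g ∣ h) : Al A g :=
  ⟨ne_zero_of_dvd_ne_zero hh.1 hd, fun p hp hm h => hh.2 p hp hm (h.trans hd)⟩

theorem Al.mono {A B : Set K[X]} (h : A ⊆ B) {g : K[X]} (hg : Al A g) : Al B g :=
  ⟨hg.1, fun p hp hm hd => h (hg.2 p hp hm hd)⟩

theorem Al.one (A : Set K[X]) : Al A 1 :=
  ⟨one_ne_zero, fun _ hp _ hd => absurd (isUnit_of_dvd_one hd) hp.not_isUnit⟩

noncomputable def LA (φ : K[X] →+* L) (A : Set K[X]) : AddSubgroup (Witt L) :=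
  AddSubgroup.closure {q | ∃ g, Al A g ∧ q = wf (φ g)}

theorem mem_LA {φ : K[X] →+* L} {A : Set K[X]} {g : K[X]} (hg : Al A g) : wf (φ g) ∈ LA φ A :=
  AddSubgroup.subset_closure ⟨g, hg, rfl⟩

theorem LA_mono (φ : K[X] →+* L) {A B : Set K[X]} (h : A ⊆ B) : LA φ A ≤ LA φ B :=
  AddSubgroup.closure_mono (by rintro _ ⟨g, hg, rfl⟩; exact ⟨g, hg.mono h, rfl⟩)

theorem milnor_step (hK : (2 : K) ≠ 0) (hL : (2 : L) ≠ 0) {φ : K[X] →+* L}
    (hi : Function.Injective φ) (hφ : FracSurj φ) {A : Set K[X]} {p : K[X]} (hp : Irreducible p)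
    (hm : p.Monic) (hpA : p ∉ A)
    (hA1 : ∀ r, Irreducible r → r.Monic → r.natDegree < p.natDegree → r ∈ A)
    (hA2 : ∀ r ∈ A, r.natDegree ≤ p.natDegree) {q : Witt L} (hq : q ∈ LA φ (insert p A))
    (hu : q ∈ Unr φ p) : q ∈ LA φ A := by
  have _ : Fact (Irreducible p) := ⟨hp⟩
  let ψ : K[X] →+* AdjoinRoot p := AdjoinRoot.mk p
  have hψ : ∀ a, ψ a = 0 ↔ p ∣ a := fun a => AdjoinRoot.mk_eq_zero
  have hψs : FracSurj ψ := fun x => by
    obtain ⟨a, rfl⟩ := AdjoinRoot.mk_surjective x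
    exact ⟨a, 1, by simp, by simp [ψ]⟩
  have hκ : (2 : AdjoinRoot p) ≠ 0 := by
    rw [← map_ofNat (algebraMap K (AdjoinRoot p)) 2]
    exact (_root_.map_ne_zero _).2 hK
  obtain ⟨_, d, hd⟩ := exists_res hL hp.prime hi hφ ψ hψ
  have hdq : d q = 0 := Unr_le_ker d (fun a ha => (hd a ha).2.2.1) hu
  let mk := QuotientAddGroup.mk' (LA φ A)
  have hmk : ∀ a, Al A a → mk (wf (φ a)) = 0 := fun a ha =>
    (QuotientAddGroup.eq_zero_iff _).2 (mem_LA ha)
  have hp1 : p ≠ 1 := hp.ne_one
  have hφ0 : ∀ {a : K[X]}, a ≠ 0 → φ a ≠ 0 := fun ha => (map_ne_zero_iff φ hi).2 ha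
  have hsmall : ∀ {g : K[X]}, g ≠ 0 → g.natDegree < p.natDegree → Al A g := fun h0 hg =>
    ⟨h0, fun r hr hrm hd => hA1 r hr hrm (lt_of_le_of_lt (natDegree_le_of_dvd hd h0) hg)⟩
  have hmod : ∀ a : K[X], (a %ₘ p).natDegree < p.natDegree := fun a =>
    natDegree_modByMonic_lt a hm hp1
  have base : ∀ g h G : K[X], Al A g → g.natDegree ≤ p.natDegree → h.natDegree < p.natDegree →
      Al A G → mk (wf (φ (p * (g * h) * G))) = mk (wf (φ (p * ((g * h) %ₘ p) * G))) := by
    intro g h G hg hgd hh hG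
    by_cases h0 : h = 0
    · simp [h0]
    have hAh := hsmall h0 hh
    set k := (g * h) /ₘ p with hk
    set r := (g * h) %ₘ p with hr
    have e : r + p * k = g * h := modByMonic_add_div _ _
    by_cases hk0 : k = 0
    · rw [← e, hk0]; simp
    have hr0 : r ≠ 0 := fun h' => hpA ((hg.mul hAh).2 p hp hm ⟨k, by rw [← e, h', zero_add]⟩)
    have hAk : Al A k := hsmall hk0 (by
      rw [hk, natDegree_divByMonic _ hm, natDegree_mul hg.1 h0]; omega)
    have hAr : Al A r := hsmall hr0 (hmod _)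
    have := congrArg (fun x => mk (x * wf (φ (k * r * G)))) (wf_add (φ r) (φ (p * k)))
    simp only [add_mul, ← wf_mul, ← map_mul φ, ← map_add φ, e, map_add] at this
    rw [show r * (k * r * G) = (k * G) * r ^ 2 by ring,
      show p * k * (k * r * G) = (p * r * G) * k ^ 2 by ring,
      show r * (p * k) * (g * h) * (k * r * G) = (p * (g * h) * G) * (k * r) ^ 2 by ring,
      map_mul φ _ (r ^ 2), map_mul φ _ (k ^ 2), map_mul φ _ ((k * r) ^ 2), map_pow, map_pow, map_pow,
      wf_mul_sq _ (hφ0 hr0), wf_mul_sq _ (hφ0 hk0), wf_mul_sq _ (hφ0 (mul_ne_zero hk0 hr0)),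
      hmk _ (hAk.mul hG), hmk _ ((hg.mul hAh).mul ((hAk.mul hAr).mul hG))] at this
    simpa using this.symm
  have red : ∀ g : K[X], Al A g → ∀ h G : K[X], h.natDegree < p.natDegree → Al A G →
      mk (wf (φ (p * (g * h) * G))) = mk (wf (φ (p * ((g * h) %ₘ p) * G))) := by
    intro g
    induction g using WfDvdMonoid.induction_on_irreducible with
    | zero => intro h; exact absurd rfl h.1
    | unit u hu =>
      intro hg h G hh hG
      exact base u h G hg (by rw [natDegree_eq_zero_of_isUnit hu]; omega) hh hG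
    | mul a i _ hirr ih =>
      intro hg h G hh hG
      have hi' : Al A i := hg.of_dvd (dvd_mul_right _ _)
      have ha' : Al A a := hg.of_dvd (dvd_mul_left _ _)
      have hid : i.natDegree ≤ p.natDegree := by
        have hl : i.leadingCoeff ≠ 0 := leadingCoeff_ne_zero.2 hirr.ne_zero
        have hu : IsUnit (C (i.leadingCoeff)⁻¹) := isUnit_C.2 (IsUnit.mk0 _ (inv_ne_zero hl))
        have := hA2 _ (hi'.2 (i * C (i.leadingCoeff)⁻¹) ((irreducible_mul_isUnit hu).2 hirr)
          (monic_mul_leadingCoeff_inv hirr.ne_zero) ((hu.mul_right_dvd).2 dvd_rfl))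
        rwa [natDegree_mul_C (inv_ne_zero hl)] at this
      rw [show p * (i * a * h) * G = p * (a * h) * (i * G) by ring, ih ha' h _ hh (hi'.mul hG),
        show p * ((a * h) %ₘ p) * (i * G) = p * (i * ((a * h) %ₘ p)) * G by ring,
        base i _ G hi' hid (hmod _) hG]
      congr 5
      apply modByMonic_eq_of_dvd_sub hm
      rw [mul_assoc, ← mul_sub]
      exact (dvd_modByMonic_sub _ _).mul_left _
  let f : K[X] → Witt L ⧸ LA φ A := fun a => mk (wf (φ (p * (a %ₘ p))))
  have hc : ∀ a b, ψ a = ψ b → f a = f b := by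
    intro a b h
    have : a %ₘ p = b %ₘ p :=
      modByMonic_eq_of_dvd_sub hm ((hψ _).1 (by rw [map_sub, h, sub_self]))
    simp only [f, this]
  have hψmod : ∀ a, ψ (a %ₘ p) = ψ a := fun a => by
    rw [← sub_eq_zero, ← map_sub, hψ]; exact dvd_modByMonic_sub _ _
  have red' : ∀ g h : K[X], Al A g → h.natDegree < p.natDegree →
      mk (wf (φ (p * (g * h)))) = f (g * h) := fun g h hg hh => by
    simpa only [mul_one] using red g hg h 1 hh (Al.one A)
  have hsq : ∀ a b, ψ b ≠ 0 → f (a * b ^ 2) = f a := by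
    intro a b hb
    have hb0 : b %ₘ p ≠ 0 := fun h => hb (by rw [← hψmod, h, map_zero])
    have hAb := hsmall hb0 (hmod b)
    rw [hc (a * b ^ 2) ((b %ₘ p) * (b %ₘ p) * (a %ₘ p)) (by simp only [map_mul, map_pow, hψmod]; ring),
      ← red' _ _ (hAb.mul hAb) (hmod a)]
    simp only [f]
    rw [show p * (b %ₘ p * (b %ₘ p) * (a %ₘ p)) = p * (a %ₘ p) * (b %ₘ p) ^ 2 by ring,
      map_mul φ _ (_ ^ 2), map_pow, wf_mul_sq _ (hφ0 hb0)]
  have hneg : ∀ a, f (-a) = -f a := by
    intro a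
    simp only [f, neg_modByMonic, mul_neg, map_neg, wf_neg]
  have hadd : ∀ a b, f a + f b = f (a + b) + f (a * b * (a + b)) := by
    intro a b
    have e : f (a * b * (a + b)) = mk (wf (φ (p * ((a %ₘ p) * (b %ₘ p) * ((a + b) %ₘ p))))) := by
      rw [hc (a * b * (a + b)) ((a %ₘ p) * (b %ₘ p) * ((a + b) %ₘ p))
        (by simp only [map_mul, hψmod])]
      by_cases ha : a %ₘ p = 0
      · simp [ha, f]
      by_cases hb : b %ₘ p = 0
      · simp [hb, f]
      exact (red' _ _ ((hsmall ha (hmod a)).mul (hsmall hb (hmod b))) (hmod _)).symm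
    rw [e]
    simp only [f]
    rw [← map_add, ← map_add, wf_add, ← map_add φ, ← map_mul φ, ← map_mul φ, ← mul_add,
      ← add_modByMonic,
      show p * (a %ₘ p) * (p * (b %ₘ p)) * (p * ((a + b) %ₘ p))
        = p * (a %ₘ p * (b %ₘ p) * ((a + b) %ₘ p)) * p ^ 2 by ring,
      map_mul φ _ (p ^ 2), map_pow, wf_mul_sq _ (hφ0 hp.ne_zero)]
  obtain ⟨σ, hσ⟩ := exists_lift_ring hκ hψs hc (by simp [f]) hsq hneg hadd
  have key : LA φ (insert p A) ≤ (σ.comp d - mk).ker := by
    rw [LA, AddSubgroup.closure_le]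
    rintro _ ⟨g, hg, rfl⟩
    obtain ⟨n, a, ha, rfl⟩ := exists_pow_factor hp.prime hg.1
    have hAa : Al A a := by
      have := hg.of_dvd (dvd_mul_left a (p ^ n))
      refine ⟨this.1, fun r hr hrm hdv => ?_⟩
      rcases this.2 r hr hrm hdv with h | h
      · exact absurd (h ▸ hdv) ha
      · exact h
    rw [SetLike.mem_coe, AddMonoidHom.mem_ker, AddMonoidHom.sub_apply, AddMonoidHom.comp_apply,
      map_mul, map_pow]
    rcases Nat.even_or_odd n with hn | hn
    · rw [wf_pow_even (hφ0 hp.ne_zero) hn, (hd a ha).2.2.1, hmk a hAa]; simp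
    · rw [wf_pow_odd (hφ0 hp.ne_zero) hn, ← map_mul, (hd a ha).2.2.2, hσ, sub_eq_zero]
      have := red' a 1 hAa (by simpa using hp.natDegree_pos)
      simpa using this.symm
  have := key hq
  rw [AddMonoidHom.mem_ker, AddMonoidHom.sub_apply, AddMonoidHom.comp_apply, hdq, map_zero,
    zero_sub, neg_eq_zero] at this
  exact (QuotientAddGroup.eq_zero_iff _).1 this

/-- allowed factors: `X` and polynomials of degree at most `d` -/
def AA (K : Type) [Field K] (d : ℕ) : Set K[X] := {r | r = X ∨ r.natDegree ≤ d}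

/-- Milnor's theorem for the punctured affine line -/
theorem milnor_gm (hK : (2 : K) ≠ 0) (hL : (2 : L) ≠ 0) {φ : K[X] →+* L}
    (hi : Function.Injective φ) (hφ : FracSurj φ) {q : Witt L}
    (hu : ∀ p : K[X], Irreducible p → p.Monic → p ≠ X → q ∈ Unr φ p) :
    q ∈ AddSubgroup.closure {x | ∃ a : K, x = wf (φ (C a)) ∨ x = wf (φ (X * C a))} := by
  classical
  have h1 : ∃ d, q ∈ LA φ (AA K d) := by
    let N : AddSubgroup (Witt L) := ⨆ d, LA φ (AA K d)
    have hdir : Directed (· ≤ ·) fun d => LA φ (AA K d) :=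
      Monotone.directed_le fun a b hab => LA_mono φ fun r hr => hr.imp id fun h => h.trans hab
    rw [← AddSubgroup.mem_iSup_of_directed hdir]
    refine witt_mem_ring hφ _ (fun a ha => ?_) q
    have ha0 : a ≠ 0 := by rintro rfl; simp at ha
    exact AddSubgroup.mem_iSup_of_mem a.natDegree
      (mem_LA ⟨ha0, fun r _ _ hd => Or.inr (natDegree_le_of_dvd hd ha0)⟩)
  have h2 : ∀ d, q ∈ LA φ (AA K (d + 1)) → q ∈ LA φ (AA K d) := by
    intro d hq
    let I := {T : Finset K[X] // ∀ r ∈ T, Irreducible r ∧ r.Monic ∧ r.natDegree = d + 1}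
    have h3 : ∃ T : I, q ∈ LA φ (AA K d ∪ T.1) := by
      have _ : Nonempty I := ⟨⟨∅, by simp⟩⟩
      have hdir : Directed (· ≤ ·) fun T : I => LA φ (AA K d ∪ T.1) := by
        intro T T'
        refine ⟨⟨T.1 ∪ T'.1, fun r hr => ?_⟩, LA_mono φ ?_, LA_mono φ ?_⟩
        · exact (Finset.mem_union.1 hr).elim (T.2 r) (T'.2 r)
        · exact Set.union_subset_union_right _ (by simp)
        · exact Set.union_subset_union_right _ (by simp)
      rw [← AddSubgroup.mem_iSup_of_directed hdir]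
      revert hq
      apply (AddSubgroup.closure_le _).2
      rintro _ ⟨g, hg, rfl⟩
      let T : I := ⟨(UniqueFactorizationMonoid.normalizedFactors g).toFinset.filter
        (fun r => Irreducible r ∧ r.Monic ∧ r.natDegree = d + 1),
        fun r hr => (Finset.mem_filter.1 hr).2⟩
      refine AddSubgroup.mem_iSup_of_mem T (mem_LA ⟨hg.1, fun r hr hrm hd => ?_⟩)
      rcases hg.2 r hr hrm hd with h | h
      · exact Or.inl (Or.inl h)
      rcases Nat.lt_or_eq_of_le h with h | h
      · exact Or.inl (Or.inr (by omega))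
      · refine Or.inr (Finset.mem_coe.2 (Finset.mem_filter.2 ⟨?_, hr, hrm, h⟩))
        rw [Multiset.mem_toFinset, Polynomial.mem_normalizedFactors_iff hg.1]
        exact ⟨hr, hrm, hd⟩
    obtain ⟨⟨T, hT⟩, hq⟩ := h3
    induction T using Finset.induction_on with
    | empty => simpa using hq
    | insert p T hpT ih =>
      apply ih (fun r hr => hT r (Finset.mem_insert_of_mem hr))
      obtain ⟨hp, hm, hd⟩ := hT p (Finset.mem_insert_self _ _)
      simp only [Finset.coe_insert, Set.union_insert] at hq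
      by_cases hX : p = X
      · have hmem : p ∈ AA K d ∪ (T : Set K[X]) := Or.inl (Or.inl hX)
        rwa [Set.insert_eq_of_mem hmem] at hq
      refine milnor_step hK hL hi hφ hp hm ?_ ?_ ?_ hq (hu p hp hm hX)
      · rintro ((h | h) | h)
        · exact hX h
        · omega
        · exact hpT h
      · intro r _ _ h
        exact Or.inl (Or.inr (by omega))
      · rintro r ((h | h) | h)
        · rw [h, natDegree_X]; omega
        · omega
        · exact (hT r (Finset.mem_insert_of_mem h)).2.2.le.trans hd.ge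
  have h4 : q ∈ LA φ (AA K 0) := by
    obtain ⟨d, hd⟩ := h1
    induction d with
    | zero => exact hd
    | succ d ih => exact ih (h2 d hd)
  revert h4
  apply (AddSubgroup.closure_le _).2
  rintro _ ⟨g, hg, rfl⟩
  obtain ⟨n, a, ha, rfl⟩ := exists_pow_factor (prime_X (R := K)) hg.1
  have hAa := hg.of_dvd (dvd_mul_left a (X ^ n))
  have hua : IsUnit a := by
    by_contra hna
    obtain ⟨r, hrm, hr, hd⟩ := exists_monic_irreducible_factor a hna
    rcases hAa.2 r hr hrm hd with rfl | h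
    · exact ha hd
    · exact absurd hr.natDegree_pos (by omega)
  obtain ⟨c, -, rfl⟩ := Polynomial.isUnit_iff.1 hua
  have hX : φ X ≠ 0 := (map_ne_zero_iff φ hi).2 X_ne_zero
  apply AddSubgroup.subset_closure
  refine ⟨c, ?_⟩
  rw [map_mul, map_pow]
  rcases Nat.even_or_odd n with hn | hn
  · exact Or.inl (wf_pow_even hX hn _)
  · exact Or.inr (by rw [wf_pow_odd hX hn, map_mul])

end Pool.Agent.P.MP_a9963e_ag
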