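import Mathlib
import Pool.Agent.P.MP_a9963e_ag.Milnor

namespace Pool.Agent.P.MP_a9963e_ag

theorem fracSurj_algebraMap (R K : Type) [CommRing R] [IsDomain R] [Field K] [Algebra R K]
    [IsFractionRing R K] : FracSurj (algebraMap R K) := by
  intro x
  obtain ⟨a, b, hb, rfl⟩ := IsFractionRing.div_surjective (A := R) x
  have : algebraMap R K b ≠ 0 := IsFractionRing.to_map_ne_zero_of_mem_nonZeroDivisors hb
  exact ⟨a, b, this, div_mul_cancel₀ _ this⟩

theorem isFractionRing_of_fracSurj {R K : Type} [CommRing R] [Field K] [Algebra R K]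
    (hi : Function.Injective (algebraMap R K)) (hs : FracSurj (algebraMap R K)) :
    IsFractionRing R K := by
  have _ : FaithfulSMul R K := (faithfulSMul_iff_algebraMap_injective R K).2 hi
  refine IsFractionRing.of_field R K fun z => ?_
  obtain ⟨a, b, hb, h⟩ := hs z
  exact ⟨a, b, by rw [eq_div_iff hb, h]⟩

theorem exists_field_lift {R K L : Type} [CommRing R] [IsDomain R] [Field K] [Field L]
    {φ : R →+* K} (hi : Function.Injective φ) (hs : FracSurj φ) {g : R →+* L}
    (hg : Function.Injective g) : ∃ j : K →+* L, ∀ a, j (φ a) = g a := by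
  let _ := φ.toAlgebra
  have _ : IsFractionRing R K := isFractionRing_of_fracSurj hi hs
  exact ⟨IsFractionRing.lift hg, fun a => IsFractionRing.lift_algebraMap hg a⟩

theorem two_ne_zero_of_hom {R K : Type} [CommRing R] [Field K] (h2 : IsUnit (2 : R))
    (f : R →+* K) : (2 : K) ≠ 0 := by
  have := h2.map f
  rw [map_ofNat] at this
  exact this.ne_zero

open Polynomial

theorem clear_denom {R K : Type} [CommRing R] [Field K] {φ : R →+* K} (hs : FracSurj φ)
    (f : K[X]) : ∃ (r : R) (f' : R[X]), φ r ≠ 0 ∧ f'.map φ = C (φ r) * f := by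
  induction f using Polynomial.induction_on' with
  | add p q hp hq =>
    obtain ⟨r, f, hr, h⟩ := hp
    obtain ⟨s, g, hs, h'⟩ := hq
    refine ⟨r * s, C s * f + C r * g, by simp [hr, hs], ?_⟩
    simp only [Polynomial.map_add, Polynomial.map_mul, map_C, h, h', map_mul]
    ring
  | monomial n a =>
    obtain ⟨x, y, hy, h⟩ := hs a
    exact ⟨y, monomial n x, hy, by rw [map_monomial, C_mul_monomial, ← h, mul_comm]⟩

theorem torus_step {R K L : Type} [CommRing R] [IsDomain R] [UniqueFactorizationMonoid R]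
    [Field K] [Field L] (h2 : IsUnit (2 : R)) {φR : R →+* K} (hiR : Function.Injective φR)
    (hsR : FracSurj φR) {φ : R[X] →+* L} (hi : Function.Injective φ) (hs : FracSurj φ)
    {q : Witt L} (hu : ∀ π : R[X], Prime π → 0 < π.natDegree → ¬ π ∣ X → q ∈ Unr φ π) :
    ∃ (i : Witt K →+ Witt L) (q0 q1 : Witt K), (∀ a, i (wf (φR a)) = wf (φ (C a))) ∧
      q = i q0 + wf (φ X) * i q1 ∧
      ∀ ϖ : R, Prime ϖ → q ∈ Unr φ (C ϖ) → q0 ∈ Unr φR ϖ ∧ q1 ∈ Unr φR ϖ := by
  have hK : (2 : K) ≠ 0 := two_ne_zero_of_hom h2 φR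
  have hL : (2 : L) ≠ 0 := two_ne_zero_of_hom h2 (φ.comp C)
  obtain ⟨j, hj⟩ := exists_field_lift hiR hsR (g := φ.comp C) (hi.comp C_injective)
  let φK : K[X] →+* L := eval₂RingHom j (φ X)
  have hφK : ∀ a : R[X], φK (a.map φR) = φ a := by
    intro a
    have : φK.comp (mapRingHom φR) = φ := by
      apply Polynomial.ringHom_ext
      · intro a; simp [φK, hj]
      · simp [φK]
    exact congrArg (fun f : R[X] →+* L => f a) this
  have hmapi : Function.Injective (Polynomial.map φR) := map_injective φR hiR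
  have hiK : Function.Injective φK := by
    rw [injective_iff_map_eq_zero]
    intro f hf
    obtain ⟨r, f', hr, h⟩ := clear_denom hsR f
    have : φ f' = 0 := by rw [← hφK, h, map_mul, hf, mul_zero]
    have : f' = 0 := hi (by rw [this, map_zero])
    rw [this, Polynomial.map_zero] at h
    exact (mul_eq_zero.1 h.symm).resolve_left (by simpa using hr)
  have hsK : FracSurj φK := fun x => by
    obtain ⟨a, b, hb, h⟩ := hs x
    exact ⟨a.map φR, b.map φR, by rwa [hφK], by rw [hφK, hφK, h]⟩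
  have hdvd : ∀ {π a : R[X]}, Prime π → 0 < π.natDegree → π.map φR ∣ a.map φR → π ∣ a := by
    rintro π a hπ hd ⟨g, hg⟩
    obtain ⟨r, g', hr, h⟩ := clear_denom hsR g
    have : C r * a = π * g' := hmapi (by
      simp only [Polynomial.map_mul, map_C, hg, h]; ring)
    rcases hπ.dvd_or_dvd ⟨g', this⟩ with h | h
    · have := natDegree_le_of_dvd h (by rintro h; simp at h; simp [h] at hr)
      simp at this
      omega
    · exact h
  have huK : ∀ p : K[X], Irreducible p → p.Monic → p ≠ X → q ∈ Unr φK p := by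
    intro p hp hm hX
    have _ : (Ideal.span {p}).IsPrime := (Ideal.span_singleton_prime hp.ne_zero).2 hp.prime
    have hI : (Ideal.comap (mapRingHom φR) (Ideal.span {p})).IsPrime := inferInstance
    obtain ⟨π, hπp, hπ⟩ := hI.exists_mem_prime_of_ne_bot (by
      obtain ⟨r, f', hr, h⟩ := clear_denom hsR p
      rw [Submodule.ne_bot_iff]
      refine ⟨f', ?_, ?_⟩
      · rw [Ideal.mem_comap, Ideal.mem_span_singleton, coe_mapRingHom, h]
        exact dvd_mul_left _ _
      · rintro rfl
        rw [Polynomial.map_zero] at h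
        exact mul_ne_zero (by simpa using hr) hp.ne_zero h.symm)
    rw [Ideal.mem_comap, Ideal.mem_span_singleton, coe_mapRingHom] at hπp
    have hπ0 : π.map φR ≠ 0 := fun h => hπ.ne_zero (hmapi (by rw [h, Polynomial.map_zero]))
    have hd : 0 < π.natDegree := by
      have := natDegree_le_of_dvd hπp hπ0
      rw [natDegree_map_eq_of_injective hiR] at this
      exact lt_of_lt_of_le hp.natDegree_pos this
    have hprime : Prime (π.map φR) := by
      refine ⟨hπ0, fun h => ?_, fun f g h => ?_⟩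
      · have := natDegree_eq_zero_of_isUnit h
        rw [natDegree_map_eq_of_injective hiR] at this
        omega
      · obtain ⟨r, f', hr, h1⟩ := clear_denom hsR f
        obtain ⟨s, g', hs, h2⟩ := clear_denom hsR g
        have : π ∣ f' * g' := hdvd hπ hd (by
          rw [Polynomial.map_mul, h1, h2, show C (φR r) * f * (C (φR s) * g)
            = C (φR r) * C (φR s) * (f * g) by ring]
          exact h.mul_left _)
        rcases hπ.dvd_or_dvd this with h | h
        · have := Polynomial.map_dvd φR h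
          rw [h1] at this
          exact Or.inl ((isUnit_C.2 (IsUnit.mk0 _ hr)).dvd_mul_left.1 this)
        · have := Polynomial.map_dvd φR h
          rw [h2] at this
          exact Or.inr ((isUnit_C.2 (IsUnit.mk0 _ hs)).dvd_mul_left.1 this)
    have hass : Associated p (π.map φR) := hp.associated_of_dvd hprime.irreducible hπp
    have hπX : ¬ π ∣ X := fun h => by
      have := hπp.trans (Polynomial.map_dvd φR h)
      rw [map_X] at this
      exact hX (eq_of_monic_of_associated hm monic_X (hp.associated_of_dvd irreducible_X this))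
    have := hu π hπ hd hπX
    revert this
    apply AddSubgroup.closure_mono
    rintro _ ⟨a, ha, rfl⟩
    exact ⟨a.map φR, fun h => ha (hdvd hπ hd (hass.dvd_iff_dvd_left.1 h)), by rw [hφK]⟩
  have hmil := milnor_gm hK hL hiK hsK huK
  obtain ⟨i, hiw⟩ := exists_wmap hK j
  have hia : ∀ a, i (wf (φR a)) = wf (φ (C a)) := fun a => by rw [hiw, hj]; rfl
  have hdec : ∃ q0 q1, q = i q0 + wf (φ X) * i q1 := by
    clear hu huK
    induction hmil using AddSubgroup.closure_induction with
    | mem x hx =>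
      obtain ⟨a, rfl | rfl⟩ := hx
      · exact ⟨wf a, 0, by simp [φK, hiw]⟩
      · exact ⟨0, wf a, by simp [φK, hiw, wf_mul]; exact mul_comm _ _⟩
    | zero => exact ⟨0, 0, by simp⟩
    | add x y _ _ hx hy =>
      obtain ⟨a, b, rfl⟩ := hx
      obtain ⟨c, d, rfl⟩ := hy
      exact ⟨a + c, b + d, by simp only [map_add]; ring⟩
    | neg x _ hx =>
      obtain ⟨a, b, rfl⟩ := hx
      exact ⟨-a, -b, by simp only [map_neg]; ring⟩
  obtain ⟨q0, q1, hq⟩ := hdec
  refine ⟨i, q0, q1, hia, hq, fun ϖ hϖ hqu => ?_⟩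
  have _ : (Ideal.span {ϖ}).IsPrime := (Ideal.span_singleton_prime hϖ.ne_zero).2 hϖ
  let κ := FractionRing (R ⧸ Ideal.span {ϖ})
  let ψR : R →+* κ := (algebraMap _ κ).comp (Ideal.Quotient.mk (Ideal.span {ϖ}))
  have hψR : ∀ a, ψR a = 0 ↔ ϖ ∣ a := fun a => by
    simp [ψR, Ideal.Quotient.eq_zero_iff_mem, Ideal.mem_span_singleton]
  have hsψR : FracSurj ψR := fun x => by
    obtain ⟨a, b, hb, h⟩ := fracSurj_algebraMap (R ⧸ Ideal.span {ϖ}) κ x
    obtain ⟨a, rfl⟩ := Ideal.Quotient.mk_surjective a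
    obtain ⟨b, rfl⟩ := Ideal.Quotient.mk_surjective b
    exact ⟨a, b, hb, h⟩
  have hκ : (2 : κ) ≠ 0 := two_ne_zero_of_hom h2 ψR
  let κ' := FractionRing κ[X]
  let ι : κ[X] →+* κ' := algebraMap κ[X] κ'
  have hιi : Function.Injective ι := IsFractionRing.injective _ _
  let ψ : R[X] →+* κ' := ι.comp (mapRingHom ψR)
  have hψ : ∀ a, ψ a = 0 ↔ C ϖ ∣ a := fun a => by
    rw [C_dvd_iff_dvd_coeff]
    simp only [ψ, RingHom.comp_apply, map_eq_zero_iff ι hιi, coe_mapRingHom, Polynomial.ext_iff,
      coeff_map, coeff_zero, hψR]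
  have hκ' : (2 : κ') ≠ 0 := two_ne_zero_of_hom h2 (ψ.comp C)
  have hCϖ : Prime (C ϖ) := prime_C_iff.2 hϖ
  obtain ⟨_, D, hD⟩ := exists_res hL hCϖ hi hs ψ hψ
  obtain ⟨e0, e1, he⟩ := exists_res hκ' (prime_X (R := κ)) hιi (fracSurj_algebraMap _ _)
    (evalRingHom 0) (fun a => by simp [X_dvd_iff, coeff_zero_eq_eval_zero])
  obtain ⟨_, d, hd⟩ := exists_res hK hϖ hiR hsR ψR hψR
  have hDq : D q = 0 := Unr_le_ker D (fun a ha => (hD a ha).2.2.1) hqu
  let i' : Witt K →+ Witt L := (AddMonoidHom.mulLeft (wf (φ X))).comp i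
  have key : ∀ x, x ∈ ((e0.comp (D.comp i) - d).ker ⊓ (e1.comp (D.comp i)).ker) ⊓
      ((e0.comp (D.comp i')).ker ⊓ (e1.comp (D.comp i') - d).ker) := by
    intro x
    refine witt_mem_prime hϖ hiR hsR _ (fun a ha => ?_) x
    have h1 : ¬ C ϖ ∣ C a := fun h => ha (by simpa using (C_dvd_iff_dvd_coeff _ _).1 h 0)
    have h2 : ¬ C ϖ ∣ X * C a := fun h => ha (by simpa using (C_dvd_iff_dvd_coeff _ _).1 h 1)
    have h3 : ¬ X ∣ C (ψR a) := fun h => ha ((hψR a).1 (by simpa using X_dvd_iff.1 h))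
    have e1' : ψ (C a) = ι (C (ψR a)) := by simp [ψ]
    have e2' : ψ (X * C a) = ι (X * C (ψR a)) := by simp [ψ]
    have e3 : wf (φ X) * wf (φ (C a)) = wf (φ (X * C a)) := by rw [← wf_mul, ← map_mul]
    have e4 : wf (φ X) * wf (φ (C (ϖ * a))) = wf (φ (C ϖ * (X * C a))) := by
      rw [← wf_mul, ← map_mul, map_mul C]; congr 2; ring
    simp only [AddSubgroup.mem_inf, AddMonoidHom.mem_ker, AddMonoidHom.sub_apply,
      AddMonoidHom.comp_apply, i', AddMonoidHom.coe_mulLeft, hia, e3, e4]
    rw [map_mul C, (hD _ h1).2.2.1, (hD _ h2).2.2.1, (hD _ h1).2.2.2, (hD _ h2).2.2.2, e1', e2',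
      (he _ h3).1, (he _ h3).2.1, (he _ h3).2.2.1, (he _ h3).2.2.2, (hd a ha).2.2.1,
      (hd a ha).2.2.2]
    simp
  have k0 := key q0
  have k1 := key q1
  simp only [AddSubgroup.mem_inf, AddMonoidHom.mem_ker, AddMonoidHom.sub_apply,
    AddMonoidHom.comp_apply, i', AddMonoidHom.coe_mulLeft, sub_eq_zero] at k0 k1
  have z0 := congrArg e0 hDq
  have z1 := congrArg e1 hDq
  rw [hq, map_add, map_add, map_zero] at z0 z1
  rw [k0.1.1, k1.2.1, add_zero] at z0
  rw [k0.1.2, k1.2.2, zero_add] at z1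
  exact ⟨mem_Unr_of_res hκ hϖ hiR hsR hψR hsψR d (fun a ha => (hd a ha).2.2) z0,
    mem_Unr_of_res hκ hϖ hiR hsR hψR hsψR d (fun a ha => (hd a ha).2.2) z1⟩

/-- forms unramified on a split torus are sums of monomial forms -/
theorem torus_mono {F : Type} [Field F] (h2 : (2 : F) ≠ 0) (n : ℕ) :
    ∀ {L : Type} [Field L] (φ : MvPolynomial (Fin n) F →+* L), Function.Injective φ → FracSurj φ →
      ∀ q : Witt L, (∀ π, Prime π → (∀ i, ¬ π ∣ MvPolynomial.X i) → q ∈ Unr φ π) →
      q ∈ AddSubgroup.closure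
        {x | ∃ (m : Fin n →₀ ℕ) (c : F), x = wf (φ (MvPolynomial.monomial m c))} := by
  induction n with
  | zero =>
    intro L _ φ _ hs q _
    refine witt_mem_ring hs _ (fun a _ => ?_) q
    apply AddSubgroup.subset_closure
    refine ⟨0, a.coeff 0, ?_⟩
    rw [MvPolynomial.monomial_zero', ← MvPolynomial.eq_C_of_isEmpty]
  | succ n ih =>
    intro L _ φ hi hs q hu
    let R := MvPolynomial (Fin n) F
    let e := (MvPolynomial.finSuccEquiv F n).symm.toRingEquiv
    let φ' : R[X] →+* L := φ.comp e.toRingHom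
    have hi' : Function.Injective φ' := hi.comp e.injective
    have hs' : FracSurj φ' := fun x => by
      obtain ⟨a, b, hb, h⟩ := hs x
      exact ⟨e.symm a, e.symm b, by simpa [φ'] using hb, by simpa [φ'] using h⟩
    have hX0 : e X = MvPolynomial.X 0 := by
      simp [e, ← MvPolynomial.finSuccEquiv_X_zero]
    have hXs : ∀ i : Fin n, e (C (MvPolynomial.X i)) = MvPolynomial.X i.succ := fun i => by
      simp [e, ← MvPolynomial.finSuccEquiv_X_succ]
    have htr : ∀ π : R[X], Prime π → ¬ π ∣ X → (∀ i, ¬ π ∣ C (MvPolynomial.X i)) →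
        q ∈ Unr φ' π := by
      intro π hπ h1 h2
      have := hu (e π) ((MulEquiv.prime_iff e).2 hπ) (fun i => by
        refine Fin.cases ?_ (fun i => ?_) i
        · rw [← hX0, map_dvd_iff]; exact h1
        · rw [← hXs, map_dvd_iff]; exact h2 i)
      revert this
      apply AddSubgroup.closure_mono
      rintro _ ⟨a, ha, rfl⟩
      refine ⟨e.symm a, fun h => ha ?_, by simp [φ']⟩
      simpa using map_dvd e h
    have h2R : IsUnit (2 : R) := by
      rw [← map_ofNat (MvPolynomial.C : F →+* R) 2]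
      exact (IsUnit.mk0 _ h2).map _
    obtain ⟨i, q0, q1, hia, hq, hd⟩ := torus_step h2R (IsFractionRing.injective R (FractionRing R))
      (fracSurj_algebraMap R (FractionRing R)) hi' hs' (q := q) (fun π hπ hd hX =>
        htr π hπ hX fun i h => by
          have := natDegree_le_of_dvd h (C_ne_zero.2 (MvPolynomial.X_ne_zero i))
          simp at this
          omega)
    have hun : ∀ ϖ : R, Prime ϖ → (∀ i, ¬ ϖ ∣ MvPolynomial.X i) → q ∈ Unr φ' (C ϖ) := by
      intro ϖ hϖ h
      refine htr _ (prime_C_iff.2 hϖ) (fun h => ?_) (fun i hi => h i ?_)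
      · exact hϖ.not_dvd_one (by simpa using (C_dvd_iff_dvd_coeff _ _).1 h 1)
      · simpa using (C_dvd_iff_dvd_coeff _ _).1 hi 0
    have m0 := ih _ (IsFractionRing.injective R (FractionRing R))
      (fracSurj_algebraMap R (FractionRing R)) q0 (fun ϖ hϖ h => (hd ϖ hϖ (hun ϖ hϖ h)).1)
    have m1 := ih _ (IsFractionRing.injective R (FractionRing R))
      (fracSurj_algebraMap R (FractionRing R)) q1 (fun ϖ hϖ h => (hd ϖ hϖ (hun ϖ hϖ h)).2)
    have hmon : ∀ (k : ℕ) (m : Fin n →₀ ℕ) (c : F), e (X ^ k * C (MvPolynomial.monomial m c))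
        = MvPolynomial.monomial (Finsupp.cons k m) c := by
      intro k m c
      apply e.symm.injective
      rw [RingEquiv.symm_apply_apply]
      change _ = MvPolynomial.finSuccEquiv F n _
      ext j m'
      rw [MvPolynomial.finSuccEquiv_coeff_coeff, MvPolynomial.coeff_monomial, coeff_X_pow_mul',
        coeff_C]
      simp only [Finsupp.cons_injective2.eq_iff]
      by_cases hj : k = j
      · subst hj; simp [MvPolynomial.coeff_monomial]
      · rw [if_neg (fun h : k = j ∧ m = m' => hj h.1)]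
        split_ifs with h1 h2
        · omega
        · simp
        · simp
    set N := AddSubgroup.closure
        {x | ∃ (m : Fin (n + 1) →₀ ℕ) (c : F), x = wf (φ (MvPolynomial.monomial m c))}
    have key : ∀ x ∈ AddSubgroup.closure {x | ∃ (m : Fin n →₀ ℕ) (c : F),
        x = wf (algebraMap R (FractionRing R) (MvPolynomial.monomial m c))},
        x ∈ N.comap i ⊓ N.comap ((AddMonoidHom.mulLeft (wf (φ' X))).comp i) := by
      apply (AddSubgroup.closure_le _).2
      rintro _ ⟨m, c, rfl⟩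
      refine ⟨AddSubgroup.subset_closure ⟨Finsupp.cons 0 m, c, ?_⟩,
        AddSubgroup.subset_closure ⟨Finsupp.cons 1 m, c, ?_⟩⟩
      · rw [hia, ← hmon]; simp [φ']
      · rw [AddMonoidHom.comp_apply, hia, ← hmon]; simp [φ', wf_mul]; exact mul_comm _ _
    rw [hq]
    exact add_mem (key q0 m0).1 (key q1 m1).2

end Pool.Agent.P.MP_a9963e_ag
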