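import Mathlib
import Pool.Agent.P.MP_a9963e_ag.Torus

namespace Pool.Agent.P.MP_a9963e_ag

open IsDedekindDomain

section DVR

variable {L : Type} [Field L] (O : Type) [CommRing O] [IsDomain O] [IsDiscreteValuationRing O]
  [Algebra O L] [IsFractionRing O L]

/-- the valuation of `O` on `L` -/
noncomputable abbrev vv (L : Type) [Field L] (O : Type) [CommRing O] [IsDomain O]
    [IsDiscreteValuationRing O] [Algebra O L] [IsFractionRing O L] :=
  (IsDiscreteValuationRing.maximalIdeal O).valuation L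

theorem not_dvd_iff_isUnit {ϖ : O} (hϖ : Irreducible ϖ) (a : O) : ¬ ϖ ∣ a ↔ IsUnit a := by
  rw [← Ideal.mem_span_singleton, ← hϖ.maximalIdeal_eq, IsLocalRing.mem_maximalIdeal,
    mem_nonunits_iff, not_not]

theorem ResidueZero.mem_Unr (h2 : IsUnit (2 : O)) {ϖ : O} (hϖ : Irreducible ϖ) {q : Witt L}
    (hq : ResidueZero O q) : q ∈ Unr (algebraMap O L) ϖ := by
  have hi := IsFractionRing.injective O L
  have hs := fracSurj_algebraMap O L
  have hψ : ∀ a, IsLocalRing.residue O a = 0 ↔ ϖ ∣ a := fun a => by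
    rw [IsLocalRing.residue_eq_zero_iff, hϖ.maximalIdeal_eq, Ideal.mem_span_singleton]
  have hψs : FracSurj (IsLocalRing.residue O) := fun x => by
    obtain ⟨a, rfl⟩ := IsLocalRing.residue_surjective x
    exact ⟨a, 1, by simp, by simp⟩
  obtain ⟨_, d, hd⟩ := exists_res (two_ne_zero_of_hom h2 (algebraMap O L)) hϖ.prime hi hs _ hψ
  refine mem_Unr_of_res (two_ne_zero_of_hom h2 (IsLocalRing.residue O)) hϖ.prime hi hs hψ hψs d
    (fun a ha => (hd a ha).2.2) ?_
  refine hq ϖ (Units.mk0 (algebraMap O L ϖ) ((map_ne_zero_iff _ hi).2 hϖ.ne_zero)) hϖ rfl d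
    fun u => ?_
  have hu := (not_dvd_iff_isUnit O hϖ u).2 u.isUnit
  rw [← wf_units, ← wf_units, ← wf_units]
  exact ⟨(hd u hu).2.2.1, by simpa using (hd u hu).2.2.2⟩

theorem residueZero_of_mem {q : Witt L}
    (hq : q ∈ AddSubgroup.closure {x | ∃ y : L, vv L O y = 1 ∧ x = wf y}) : ResidueZero O q := by
  intro π πL _ _ d hd
  have : AddSubgroup.closure {x | ∃ y : L, vv L O y = 1 ∧ x = wf y} ≤ d.ker := by
    rw [AddSubgroup.closure_le]
    rintro _ ⟨y, hy, rfl⟩
    have : y ∈ MonoidHom.mker (vv L O) := hy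
    rw [IsDiscreteValuationRing.mker_valuation_eq_isUnitSubmonoid] at this
    obtain ⟨_, ⟨u, rfl⟩, rfl⟩ := this
    have := (hd u).1
    rwa [← wf_units] at this
  exact this hq

theorem ord_eq_zero_iff (f : Lˣ) : ord O f = 0 ↔ vv L O f = 1 := by
  have h0 : vv L O f ≠ 0 := by simp
  rw [ord, neg_eq_zero]
  constructor
  · intro h
    rw [← WithZero.exp_log h0, h, WithZero.exp_zero]
  · intro h
    rw [h, WithZero.log_one]

end DVR

theorem prime_transfer {S A L : Type} [CommRing S] [IsDomain S] [WfDvdMonoid S] [CommRing A]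
    [IsDomain A] [Field L] [Algebra A L] [IsFractionRing A L] (h2 : IsUnit (2 : S)) {φ : S →+* L}
    (hi : Function.Injective φ) {π : S} (hπ : Prime π)
    (h1 : ∀ x : A, ∃ f g, ¬ π ∣ g ∧ algebraMap A L x * φ g = φ f)
    (h3 : ∀ f : S, ∃ (x y : A) (f' g' : S), ¬ π ∣ f' ∧ ¬ π ∣ g' ∧
      algebraMap A L y * φ g' = φ f' ∧ φ f * algebraMap A L y = algebraMap A L x) :
    ∃ (P : Ideal A) (_ : P.IsPrime) (_ : IsDiscreteValuationRing (locAt A L P)),
      (∀ q : Witt L, ResidueZero (locAt A L P) q → q ∈ Unr φ π) ∧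
      (∀ g, ¬ π ∣ g → vv L (locAt A L P) (φ g) = 1) ∧ vv L (locAt A L P) (φ π) < 1 := by
  have hmul : ∀ {a b : S}, ¬ π ∣ a → ¬ π ∣ b → ¬ π ∣ a * b := fun ha hb h =>
    (hπ.dvd_or_dvd h).elim ha hb
  have hne : ∀ {a : S}, ¬ π ∣ a → φ a ≠ 0 := fun ha =>
    (map_ne_zero_iff φ hi).2 (by rintro rfl; exact ha (dvd_zero _))
  have huniq : ∀ {x : L} {f g f' g' : S}, x * φ g = φ f → x * φ g' = φ f' → f * g' = f' * g := by
    intro x f g f' g' h h'
    apply hi
    rw [map_mul, map_mul, ← h, ← h']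
    ring
  let P : Ideal A :=
    { carrier := {x | ∃ f g, ¬ π ∣ g ∧ π ∣ f ∧ algebraMap A L x * φ g = φ f}
      add_mem' := by
        rintro a b ⟨f, g, hg, hf, h⟩ ⟨f', g', hg', hf', h'⟩
        refine ⟨f * g' + f' * g, g * g', hmul hg hg', dvd_add (hf.mul_right _) (hf'.mul_right _), ?_⟩
        simp only [map_add, map_mul, ← h, ← h']; ring
      zero_mem' := ⟨0, 1, hπ.not_dvd_one, dvd_zero _, by simp⟩
      smul_mem' := by
        rintro c a ⟨f, g, hg, hf, h⟩
        obtain ⟨f', g', hg', h'⟩ := h1 c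
        refine ⟨f * f', g * g', hmul hg hg', hf.mul_right _, ?_⟩
        simp only [smul_eq_mul, map_mul, ← h, ← h']; ring }
  have hP : ∀ {x : A} {f g : S}, ¬ π ∣ g → algebraMap A L x * φ g = φ f → (x ∈ P ↔ π ∣ f) := by
    intro x f g hg h
    refine ⟨?_, fun hf => ⟨f, g, hg, hf, h⟩⟩
    rintro ⟨f', g', hg', hf', h'⟩
    have := huniq h h'
    exact (hπ.dvd_or_dvd (this ▸ hf'.mul_right g)).resolve_right hg'
  have hPp : P.IsPrime := by
    constructor
    · rw [Ideal.ne_top_iff_one, hP (f := 1) (g := 1) hπ.not_dvd_one (by simp)]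
      exact hπ.not_dvd_one
    · intro x y hxy
      obtain ⟨f, g, hg, h⟩ := h1 x
      obtain ⟨f', g', hg', h'⟩ := h1 y
      rw [hP hg h, hP hg' h']
      rw [hP (f := f * f') (hmul hg hg') (by simp only [map_mul, ← h, ← h']; ring)] at hxy
      exact hπ.dvd_or_dvd hxy
  have hO : ∀ x : L, x ∈ locAt A L P ↔ ∃ f g, ¬ π ∣ g ∧ x * φ g = φ f := by
    intro x
    constructor
    · rintro ⟨a, s, hs, rfl⟩
      obtain ⟨f, g, hg, h⟩ := h1 a
      obtain ⟨f', g', hg', h'⟩ := h1 s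
      have hf' : ¬ π ∣ f' := fun hh => hs ((hP hg' h').2 hh)
      have hs0 : algebraMap A L s ≠ 0 := fun h0 => hne hf' (by rw [← h', h0, zero_mul])
      refine ⟨f * g', g * f', hmul hg hf', ?_⟩
      simp only [map_mul, ← h, ← h']
      field_simp
    · rintro ⟨f, g, hg, h⟩
      obtain ⟨x1, y1, f1, g1, hf1, hg1, e1, e1'⟩ := h3 f
      obtain ⟨x2, y2, f2, g2, hf2, hg2, e2, e2'⟩ := h3 g
      have hy1 : algebraMap A L y1 ≠ 0 := fun h0 => hne hf1 (by rw [← e1, h0, zero_mul])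
      have hy2 : algebraMap A L y2 ≠ 0 := fun h0 => hne hf2 (by rw [← e2, h0, zero_mul])
      refine ⟨x1 * y2, x2 * y1, ?_, ?_⟩
      · intro hmem
        rw [SetLike.mem_coe, hP (f := g * f2 * f1) (g := g2 * g1) (hmul hg2 hg1)
          (by simp only [map_mul, ← e1, ← e2, ← e2']; ring)] at hmem
        exact hmul (hmul hg hf2) hf1 hmem
      · have := hne hg
        simp only [map_mul, ← e1', ← e2', ← h]
        field_simp
  let ι : S →+* locAt A L P := φ.codRestrict (locAt A L P).toSubring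
    (fun a => (hO _).2 ⟨a, 1, hπ.not_dvd_one, by simp⟩)
  have hι : ∀ a, ((ι a : locAt A L P) : L) = φ a := fun a => rfl
  have hunit : ∀ (z : locAt A L P) f g, ¬ π ∣ f → (z : L) * φ g = φ f → IsUnit z := by
    intro z f g hf h
    have hz : (z : L) ≠ 0 := fun h0 => hne hf (by rw [← h, h0, zero_mul])
    refine IsUnit.of_mul_eq_one ⟨(z : L)⁻¹, (hO _).2 ⟨g, f, hf, ?_⟩⟩ (Subtype.ext ?_)
    · rw [← h]; field_simp
    · simp [hz]
  have hnu : ∀ (z : locAt A L P) f g, ¬ π ∣ g → π ∣ f → (z : L) * φ g = φ f → ¬ IsUnit z := by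
    intro z f g hg hf h hz
    obtain ⟨w, hw⟩ := hz.exists_right_inv
    obtain ⟨f', g', hg', h'⟩ := (hO w).1 w.2
    have hw' : (z : L) * w = 1 := congrArg Subtype.val hw
    have : f * f' = g * g' := hi (by
      rw [map_mul, map_mul, ← h, ← h']
      linear_combination (φ g * φ g') * hw')
    exact hmul hg hg' (this ▸ hf.mul_right f')
  have hirr : Irreducible (ι π) := by
    refine ⟨hnu _ π 1 hπ.not_dvd_one dvd_rfl (by simp [hι]), fun a b hab => ?_⟩
    obtain ⟨f, g, hg, h⟩ := (hO a).1 a.2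
    obtain ⟨f', g', hg', h'⟩ := (hO b).1 b.2
    have hab' : φ π = (a : L) * b := congrArg Subtype.val hab
    have e : f * f' = π * (g * g') := hi (by
      simp only [map_mul, ← h, ← h', hab']; ring)
    by_contra hc
    push Not at hc
    have hf : π ∣ f := by by_contra hf; exact hc.1 (hunit a f g hf h)
    have hf' : π ∣ f' := by by_contra hf; exact hc.2 (hunit b f' g' hf h')
    obtain ⟨k, rfl⟩ := hf
    obtain ⟨k', rfl⟩ := hf'
    have : π * (k * k') = g * g' := mul_left_cancel₀ hπ.ne_zero (by rw [← e]; ring)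
    exact hmul hg hg' ⟨_, this.symm⟩
  have hdvr : IsDiscreteValuationRing (locAt A L P) := by
    apply IsDiscreteValuationRing.ofHasUnitMulPowIrreducibleFactorization
    refine ⟨ι π, hirr, fun {x} hx => ?_⟩
    obtain ⟨f, g, hg, h⟩ := (hO x).1 x.2
    have hf0 : f ≠ 0 := by
      rintro rfl
      rw [map_zero, mul_eq_zero, or_iff_left (hne hg)] at h
      exact hx (Subtype.ext h)
    obtain ⟨n, f', hf', rfl⟩ := exists_pow_factor hπ hf0
    have hz : φ f' / φ g * φ g = φ f' := div_mul_cancel₀ _ (hne hg)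
    obtain ⟨u, hu⟩ := hunit ⟨φ f' / φ g, (hO _).2 ⟨f', g, hg, hz⟩⟩ f' g hf' hz
    refine ⟨n, u, Subtype.ext ?_⟩
    have := hne hg
    rw [hu]
    change φ π ^ n * (φ f' / φ g) = x
    rw [← mul_div_assoc, ← map_pow, ← map_mul, ← h]
    field_simp
  refine ⟨P, hPp, hdvr, fun q hq => ?_, fun g hg => ?_, ?_⟩
  · have h2' : IsUnit (2 : locAt A L P) := by simpa only [map_ofNat] using h2.map ι
    have := hq.mem_Unr _ h2' hirr
    revert this
    apply AddSubgroup.closure_mono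
    rintro _ ⟨z, hz, rfl⟩
    obtain ⟨f, g, hg, h⟩ := (hO z).1 z.2
    have hf : ¬ π ∣ f := fun hf => hnu z f g hg hf h ((not_dvd_iff_isUnit _ hirr z).1 hz)
    exact ⟨f * g, hmul hf hg, wf_frac (hne hg) h⟩
  · have := hunit (ι g) g 1 hg (by simp [hι])
    change vv L (locAt A L P) (algebraMap (locAt A L P) L (ι g)) = 1
    rw [HeightOneSpectrum.valuation_eq_one_iff_notMem]
    exact fun h => h this
  · change vv L (locAt A L P) (algebraMap (locAt A L P) L (ι π)) < 1
    rw [HeightOneSpectrum.valuation_lt_one_iff_mem]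
    exact hirr.not_isUnit

end Pool.Agent.P.MP_a9963e_ag
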