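import Mathlib
import Pool.Agent.P.MP_a9963e_ag.Local
import Pool.Agent.P.MP_a9963e_ag.Deg

namespace Pool.Agent.P.MP_a9963e_ag

open MvPolynomial

/-- polynomials in four variables -/
abbrev S4 (F : Type) [Field F] := MvPolynomial (Fin 4) F

/-- evaluation at a point -/
noncomputable def ev (F : Type) [Field F] {L : Type} [Field L] [Algebra F L] (y : Fin 4 → L) :
    S4 F →+* L := (aeval y : S4 F →ₐ[F] L).toRingHom

/-- `y` is a system of rational coordinates of `L` -/
structure Coord (F : Type) [Field F] {L : Type} [Field L] [Algebra F L] (y : Fin 4 → L) : Prop where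
  inj : Function.Injective (ev F y)
  surj : FracSurj (ev F y)

variable {F L : Type} [Field F] [Field L] [Algebra F L]

theorem ev_apply (y : Fin 4 → L) (f : S4 F) : ev F y f = aeval y f := rfl

@[simp] theorem ev_X (y : Fin 4 → L) (i : Fin 4) : ev F y (X i) = y i := by simp [ev_apply]

@[simp] theorem ev_C (y : Fin 4 → L) (c : F) : ev F y (C c) = algebraMap F L c := by
  simp [ev_apply]

theorem FracSurj.isAlgebraic {y : Fin 4 → L} (h : FracSurj (ev F y)) :
    Algebra.IsAlgebraic (Algebra.adjoin F (Set.range y)) L := by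
  have hm : ∀ f : S4 F, ev F y f ∈ Algebra.adjoin F (Set.range y) := fun f => by
    rw [Algebra.adjoin_range_eq_range_aeval]; exact ⟨f, rfl⟩
  have : IsFractionRing (Algebra.adjoin F (Set.range y)) L :=
    isFractionRing_of_fracSurj Subtype.val_injective fun x => by
      obtain ⟨a, b, hb, h⟩ := h x
      exact ⟨⟨_, hm a⟩, ⟨_, hm b⟩, hb, h⟩
  exact IsLocalization.isAlgebraic _ (nonZeroDivisors (Algebra.adjoin F (Set.range y)))

theorem Coord.of_mem {x y : Fin 4 → L} (hx : Coord F x)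
    (h : ∀ i, x i ∈ IntermediateField.adjoin F (Set.range y)) : Coord F y := by
  have hs : FracSurj (ev F y) := by
    intro z
    have hm : ∀ f : S4 F, ev F x f ∈ IntermediateField.adjoin F (Set.range y) := fun f => by
      induction f using MvPolynomial.induction_on with
      | C c => rw [ev_C]; exact IntermediateField.algebraMap_mem _ c
      | add p q hp hq => rw [map_add]; exact add_mem hp hq
      | mul_X p i hp => rw [map_mul, ev_X]; exact mul_mem hp (h i)
    obtain ⟨a, b, hb, e⟩ := hx.surj z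
    have : z ∈ IntermediateField.adjoin F (Set.range y) := by
      rw [eq_div_of_mul_eq hb e]; exact div_mem (hm a) (hm b)
    obtain ⟨r, s, rfl⟩ := (IntermediateField.mem_adjoin_range_iff _ _ _).1 this
    by_cases hs : aeval y s = 0
    · exact ⟨0, 1, by simp, by simp [hs]⟩
    · exact ⟨r, s, hs, div_mul_cancel₀ _ hs⟩
  refine ⟨?_, hs⟩
  have h1 : IsTranscendenceBasis F x :=
    (AlgebraicIndependent.isTranscendenceBasis_iff_isAlgebraic hx.inj).2 hx.surj.isAlgebraic
  have := hs.isAlgebraic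
  exact (Algebra.IsAlgebraic.isTranscendenceBasis_of_le_trdeg_of_finite F y
    h1.cardinalMk_eq_trdeg.le).1

/-- the localization of a subalgebra at the powers of an element -/
def loc (B : Subalgebra F L) (y : L) (hy : y ∈ B) : Subalgebra F L where
  carrier := {x | ∃ n : ℕ, x * y ^ n ∈ B}
  mul_mem' := by
    rintro a b ⟨n, hn⟩ ⟨m, hm⟩
    exact ⟨n + m, by convert mul_mem hn hm using 1; ring⟩
  add_mem' := by
    rintro a b ⟨n, hn⟩ ⟨m, hm⟩
    exact ⟨n + m, by
      convert add_mem (mul_mem hn (pow_mem hy m)) (mul_mem hm (pow_mem hy n)) using 1; ring⟩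
  algebraMap_mem' r := ⟨0, by simp⟩

theorem le_loc {B : Subalgebra F L} {y : L} (hy : y ∈ B) : B ≤ loc B y hy :=
  fun x hx => ⟨0, by simpa using hx⟩

theorem mem_loc_one {B : Subalgebra F L} {y x : L} (hy : y ∈ B) (hx : x * y ∈ B) :
    x ∈ loc B y hy := ⟨1, by simpa using hx⟩

theorem inv_mem_loc {B : Subalgebra F L} {y : L} (hy : y ∈ B) : y⁻¹ ∈ loc B y hy := by
  by_cases h : y = 0
  · simp [h]
  · exact mem_loc_one hy (by rw [inv_mul_cancel₀ h]; exact one_mem _)

theorem loc_le {B C : Subalgebra F L} {y : L} (hy : y ∈ B) (h0 : y ≠ 0) (h : B ≤ C)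
    (hi : y⁻¹ ∈ C) : loc B y hy ≤ C := by
  rintro x ⟨n, hn⟩
  convert mul_mem (h hn) (pow_mem hi n) using 1
  rw [mul_assoc, ← mul_pow, mul_inv_cancel₀ h0, one_pow, mul_one]

theorem range_le {y : Fin 4 → L} {C : Subalgebra F L} (h : ∀ i, y i ∈ C) :
    (aeval y : S4 F →ₐ[F] L).range ≤ C := by
  rw [← Algebra.adjoin_range_eq_range_aeval, Algebra.adjoin_le_iff]
  rintro _ ⟨i, rfl⟩
  exact h i

theorem isAway {A B : Subalgebra F L} (h : A ≤ B) {y : L} (hy : y ∈ A) (h0 : y ≠ 0)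
    (hi : y⁻¹ ∈ B) (hs : B ≤ loc A y hy) :
    letI := (Subalgebra.inclusion h).toRingHom.toAlgebra
    IsLocalization.Away (⟨y, hy⟩ : A) B := by
  let _ := (Subalgebra.inclusion h).toRingHom.toAlgebra
  refine IsLocalization.Away.mk _ (IsUnit.of_mul_eq_one ⟨y⁻¹, hi⟩ (Subtype.ext ?_)) ?_ ?_
  · exact mul_inv_cancel₀ h0
  · intro x
    obtain ⟨n, hn⟩ := hs x.2
    exact ⟨n, ⟨_, hn⟩, Subtype.ext rfl⟩
  · intro a b hab
    exact ⟨0, by rw [Subalgebra.inclusion_injective h hab]⟩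

theorem smooth_loc {y : Fin 4 → L} (hy : Coord F y) {g : L}
    (hg : g ∈ (aeval y : S4 F →ₐ[F] L).range) (h0 : g ≠ 0) : Algebra.Smooth F (loc _ g hg) := by
  have h1 : Algebra.Smooth F (S4 F) := {}
  have h2 : Algebra.Smooth F (aeval y : S4 F →ₐ[F] L).range :=
    .of_equiv (AlgEquiv.ofInjective _ hy.inj)
  let _ := (Subalgebra.inclusion (le_loc hg)).toRingHom.toAlgebra
  have := isAway (le_loc hg) hg h0 (inv_mem_loc hg) le_rfl
  have h3 := Algebra.Smooth.of_isLocalization_Away (A := loc _ g hg)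
    (⟨g, hg⟩ : (aeval y : S4 F →ₐ[F] L).range)
  have : IsScalarTower F (aeval y : S4 F →ₐ[F] L).range (loc _ g hg) :=
    .of_algebraMap_eq fun _ => rfl
  exact .comp F (aeval y : S4 F →ₐ[F] L).range _

theorem smooth_glue {A B C : Subalgebra F L} (hB : A ≤ B) (hC : A ≤ C) {y z : L} (hy : y ∈ A)
    (hz : z ∈ A) (hy0 : y ≠ 0) (hz0 : z ≠ 0) (hyi : y⁻¹ ∈ B) (hzi : z⁻¹ ∈ C)
    (hsB : B ≤ loc A y hy) (hsC : C ≤ loc A z hz) {u w : L} (hu : u ∈ A) (hw : w ∈ A)
    (h1 : u * y + w * z = 1) (sB : Algebra.Smooth F B) (sC : Algebra.Smooth F C) :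
    Algebra.Smooth F A := by
  rw [← RingHom.smooth_algebraMap]
  refine RingHom.Smooth.ofLocalizationSpanTarget.ofIsLocalization RingHom.Smooth.respectsIso _
    {⟨y, hy⟩, ⟨z, hz⟩} ?_ ?_
  · rw [Ideal.eq_top_iff_one, Ideal.mem_span_pair]
    exact ⟨⟨u, hu⟩, ⟨w, hw⟩, Subtype.ext h1⟩
  · rintro ⟨_, rfl | rfl⟩
    · exact ⟨B, inferInstance, _, isAway hB hy hy0 hyi hsB, RingHom.smooth_algebraMap.2 sB⟩
    · exact ⟨C, inferInstance, _, isAway hC hz hz0 hzi hsC, RingHom.smooth_algebraMap.2 sC⟩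

end Pool.Agent.P.MP_a9963e_ag
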