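import Mathlib
import Pool.Agent.P.MP_a9963e_ag.Chart

namespace Pool.Agent.P.MP_a9963e_ag

open MvPolynomial
open scoped MonomialOrder

variable {F L : Type} [Field F] [Field L] [Algebra F L]

theorem Coord.ne_zero {y : Fin 4 → L} (hy : Coord F y) {f : S4 F} (hf : constantCoeff f ≠ 0) :
    ev F y f ≠ 0 := (map_ne_zero_iff _ hy.inj).2 (by rintro rfl; simp at hf)

theorem Coord.ne_zero_X {y : Fin 4 → L} (hy : Coord F y) (i : Fin 4) : y i ≠ 0 := by
  rw [← ev_X (F := F) y i]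
  exact (map_ne_zero_iff _ hy.inj).2 (X_ne_zero i)

theorem Coord.ne_zero_sub {y : Fin 4 → L} (hy : Coord F y) (i j : Fin 4) : 1 - y i * y j ≠ 0 := by
  have := hy.ne_zero (f := 1 - X i * X j) (by simp)
  rwa [map_sub, map_one, map_mul, ev_X, ev_X] at this

theorem not_X_dvd {f : S4 F} (hf : constantCoeff f ≠ 0) (i : Fin 4) : ¬ X i ∣ f := by
  rintro ⟨g, rfl⟩
  simp at hf

theorem Coord.exists_par {y : Fin 4 → L} (hy : Coord F y) :
    ∃ v : L → Fin 4 → ZMod 2, Par v ∧ (∀ γ : F, γ ≠ 0 → v (algebraMap F L γ) = 0) ∧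
      (∀ i, v (y i) = Pi.single i 1) ∧ v (1 - y 2 * y 3) = Pi.single 2 1 + Pi.single 3 1 := by
  obtain ⟨v, hv, h⟩ := Pool.Agent.P.MP_a9963e_ag.exists_par MonomialOrder.lex hy.inj hy.surj
  have hX : ∀ i, v (y i) = Pi.single i 1 := fun i => by
    rw [← ev_X (F := F) y i, h _ (X_ne_zero i), MonomialOrder.degree_X]
    ext j
    rw [Finsupp.single_apply, Pi.single_apply]
    simp [eq_comm]
  refine ⟨v, hv, fun γ hγ => ?_, hX, ?_⟩
  · rw [← ev_C y, h _ (by simpa using hγ), MonomialOrder.degree_C]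
    rfl
  · have e : (MonomialOrder.lex (σ := Fin 4)).degree (X 2 * X 3 - 1 : S4 F)
        = (MonomialOrder.lex (σ := Fin 4)).degree (X 2 * X 3 : S4 F) := by
      apply MonomialOrder.degree_sub_of_lt
      rw [MonomialOrder.degree_one, map_zero, ← MonomialOrder.bot_eq_zero, bot_lt_iff_ne_bot,
        MonomialOrder.bot_eq_zero, MonomialOrder.degree_mul (X_ne_zero _) (X_ne_zero _),
        MonomialOrder.degree_X, MonomialOrder.degree_X, map_ne_zero_iff _ (AddEquiv.injective _)]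
      simp
    have h1 := h (X 2 * X 3 - 1) (by
      intro h0
      simpa using congrArg constantCoeff h0)
    rw [e, ← h _ (mul_ne_zero (X_ne_zero _) (X_ne_zero _))] at h1
    rw [← hv.neg, ← hX, ← hX, ← hv.mul _ _ (hy.ne_zero_X _) (hy.ne_zero_X _)]
    simpa using h1

theorem coord_X (F : Type) [Field F] :
    Coord F (fun i => algebraMap (S4 F) (FractionRing (S4 F)) (X i)) := by
  have : ev F (fun i => algebraMap (S4 F) (FractionRing (S4 F)) (X i))
      = algebraMap (S4 F) (FractionRing (S4 F)) := by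
    apply MvPolynomial.ringHom_ext
    · intro r
      rw [ev_C, IsScalarTower.algebraMap_apply F (S4 F) (FractionRing (S4 F))]
      rfl
    · simp
  constructor
  · rw [this]; exact IsFractionRing.injective _ _
  · rw [this]; exact fracSurj_algebraMap _ _

/-- the local ring of the polynomial ring at a prime element, inside `L` -/
def locP (F : Type) [Field F] [Algebra F L] (y : Fin 4 → L) {π : S4 F} (hπ : Prime π) :
    Subalgebra F L where
  carrier := {x | ∃ f g, ¬ π ∣ g ∧ x * ev F y g = ev F y f}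
  mul_mem' := by
    rintro a b ⟨f, g, hg, h⟩ ⟨f', g', hg', h'⟩
    refine ⟨f * f', g * g', fun e => (hπ.dvd_or_dvd e).elim hg hg', ?_⟩
    simp only [map_mul, ← h, ← h']; ring
  add_mem' := by
    rintro a b ⟨f, g, hg, h⟩ ⟨f', g', hg', h'⟩
    refine ⟨f * g' + f' * g, g * g', fun e => (hπ.dvd_or_dvd e).elim hg hg', ?_⟩
    simp only [map_mul, map_add, ← h, ← h']; ring
  algebraMap_mem' r := ⟨C r, 1, hπ.not_dvd_one, by simp⟩

theorem mem_locP (y : Fin 4 → L) {π : S4 F} (hπ : Prime π) (i : Fin 4) : y i ∈ locP F y hπ :=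
  ⟨X i, 1, hπ.not_dvd_one, by simp⟩

theorem inv_mem_locP {y : Fin 4 → L} (hy : Coord F y) {π : S4 F} (hπ : Prime π) {g : S4 F}
    (hg : ¬ π ∣ g) : (ev F y g)⁻¹ ∈ locP F y hπ :=
  ⟨1, g, hg, by
    rw [inv_mul_cancel₀ ((map_ne_zero_iff _ hy.inj).2 (by rintro rfl; simp at hg)), map_one]⟩

theorem transfer (h2 : (2 : F) ≠ 0) {y : Fin 4 → L} (hy : Coord F y) {π : S4 F} (hπ : Prime π)
    (A : Subalgebra F L) [IsFractionRing A L] (hA : A ≤ locP F y hπ) {u : L} (hu : u ∈ A)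
    (hy' : ∀ i, y i ∈ loc A u hu) {f g : S4 F} (hf : ¬ π ∣ f) (hg : ¬ π ∣ g)
    (e : u * ev F y g = ev F y f) :
    ∃ (P : Ideal A) (_ : P.IsPrime) (_ : IsDiscreteValuationRing (locAt A L P)),
      (∀ q : Witt L, ResidueZero (locAt A L P) q → q ∈ Unr (ev F y) π) ∧
      (∀ g, ¬ π ∣ g → vv L (locAt A L P) (ev F y g) = 1) ∧ vv L (locAt A L P) (ev F y π) < 1 := by
  refine prime_transfer (by simpa only [map_ofNat] using (IsUnit.mk0 _ h2).map (C : F →+* S4 F))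
    hy.inj hπ (fun x => hA x.2) fun k => ?_
  obtain ⟨n, hn⟩ := range_le hy' ⟨k, rfl⟩
  refine ⟨⟨_, hn⟩, ⟨u, hu⟩ ^ n, f ^ n, g ^ n, fun h => hf (hπ.dvd_of_dvd_pow h),
    fun h => hg (hπ.dvd_of_dvd_pow h), ?_, rfl⟩
  rw [map_pow, map_pow, map_pow, ← e, mul_pow]
  rfl

/-- the coordinate ring of a chart -/
noncomputable def Oc (F : Type) [Field F] [Algebra F L] (y : Fin 4 → L) : Subalgebra F L :=
  loc (aeval y : S4 F →ₐ[F] L).range ((1 - y 0 * y 1) * (1 - y 2 * y 3))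
    ⟨(1 - X 0 * X 1) * (1 - X 2 * X 3), by simp⟩

theorem mem_Oc (y : Fin 4 → L) (i : Fin 4) : y i ∈ Oc F y := le_loc _ ⟨X i, by simp⟩

theorem Coord.inv_mem_Oc {y : Fin 4 → L} (hy : Coord F y) :
    (1 - y 0 * y 1)⁻¹ ∈ Oc F y ∧ (1 - y 2 * y 3)⁻¹ ∈ Oc F y := by
  have h1 := hy.ne_zero_sub 0 1
  have h2 := hy.ne_zero_sub 2 3
  constructor
  · exact mem_loc_one _ ⟨1 - X 2 * X 3, by simp [h1]⟩
  · exact mem_loc_one _ ⟨1 - X 0 * X 1, by simp; field_simp⟩

theorem Coord.Oc_le {y : Fin 4 → L} (hy : Coord F y) {B : Subalgebra F L} (h : ∀ i, y i ∈ B)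
    (h1 : (1 - y 0 * y 1)⁻¹ ∈ B) (h2 : (1 - y 2 * y 3)⁻¹ ∈ B) : Oc F y ≤ B :=
  loc_le _ (mul_ne_zero (hy.ne_zero_sub 0 1) (hy.ne_zero_sub 2 3)) (range_le h)
    (by rw [mul_inv]; exact mul_mem h1 h2)

theorem Coord.smooth_Oc {y : Fin 4 → L} (hy : Coord F y) : Algebra.Smooth F (Oc F y) :=
  smooth_loc hy _ (mul_ne_zero (hy.ne_zero_sub 0 1) (hy.ne_zero_sub 2 3))

theorem kill_eq_zero_iff (a : S4 F) :
    (aeval (Function.update X 0 0) : S4 F →ₐ[F] S4 F) a = 0 ↔ X 0 ∣ a := by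
  constructor
  · intro h
    have : X 0 ∣ a - (aeval (Function.update X 0 0) : S4 F →ₐ[F] S4 F) a := by
      clear h
      induction a using MvPolynomial.induction_on with
      | C c => simp
      | add p q hp hq => convert dvd_add hp hq using 1; rw [map_add]; ring
      | mul_X p i hp =>
        by_cases hi : i = 0
        · subst hi; simp
        · rw [map_mul, aeval_X, Function.update_of_ne hi, ← sub_mul]
          exact hp.mul_right _
    rwa [h, sub_zero] at this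
  · rintro ⟨b, rfl⟩
    simp

theorem divisor (h2 : (2 : F) ≠ 0) {y : Fin 4 → L} (hy : Coord F y)
    (A : Subalgebra F L) [IsFractionRing A L] (hA : A ≤ Oc F y) {u : L} (hu : u ∈ A)
    (hy' : ∀ i, y i ∈ loc A u hu) {f g : S4 F} (hf : constantCoeff f ≠ 0)
    (hg : constantCoeff g ≠ 0) (e : u * ev F y g = ev F y f) :
    ∃ (P : Ideal A) (_ : P.IsPrime) (_ : IsDiscreteValuationRing (locAt A L P)),
      (∀ Ψ : ZMod 2 → ZMod 2 → ZMod 2, ∃ μ : Witt L →+ ZMod 2,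
        (∀ q, ResidueZero (locAt A L P) q → μ q = 0) ∧ ∀ (γ : F) (e0 e1 e2 e3 : ℕ), γ ≠ 0 →
          μ (wf (algebraMap F L γ * y 0 ^ e0 * (1 - y 0 * y 1) ^ e1 * y 2 ^ e2
            * (1 - y 2 * y 3) ^ e3)) = e0 * Ψ e2 e3) ∧
      vv L (locAt A L P) (y 0) < 1 ∧ vv L (locAt A L P) (1 - y 0 * y 1) = 1 ∧
      vv L (locAt A L P) (y 2) = 1 ∧ vv L (locAt A L P) (1 - y 2 * y 3) = 1 ∧
      ∀ γ : F, γ ≠ 0 → vv L (locAt A L P) (algebraMap F L γ) = 1 := by
  have hπ : Prime (X 0 : S4 F) := X_prime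
  have n1 : ¬ (X 0 : S4 F) ∣ 1 - X 0 * X 1 := not_X_dvd (by simp) 0
  have n2 : ¬ (X 0 : S4 F) ∣ X 2 := by rw [X_dvd_X]; decide
  have n3 : ¬ (X 0 : S4 F) ∣ 1 - X 2 * X 3 := not_X_dvd (by simp) 0
  have n4 : ∀ γ : F, γ ≠ 0 → ¬ (X 0 : S4 F) ∣ C γ := fun γ h => not_X_dvd (by simpa using h) 0
  obtain ⟨P, hP, hD, h1, h3, h4⟩ := transfer h2 hy hπ A (hA.trans (hy.Oc_le (mem_locP y hπ)
    (by simpa using inv_mem_locP hy hπ n1) (by simpa using inv_mem_locP hy hπ n3))) hu hy'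
    (not_X_dvd hf 0) (not_X_dvd hg 0) e
  refine ⟨P, hP, hD, fun Ψ => ?_, by simpa using h4, by simpa using h3 _ n1,
    by simpa using h3 _ n2, by simpa using h3 _ n3, fun γ h => by simpa using h3 _ (n4 γ h)⟩
  let κ := FractionRing (S4 F)
  let ψ : S4 F →+* κ := (algebraMap (S4 F) κ).comp
    (aeval (Function.update X 0 0) : S4 F →ₐ[F] S4 F).toRingHom
  have hψ : ∀ a, ψ a = 0 ↔ X 0 ∣ a := fun a => by
    rw [← kill_eq_zero_iff]
    exact map_eq_zero_iff _ (IsFractionRing.injective (S4 F) κ)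
  have h2L : (2 : L) ≠ 0 := two_ne_zero_of_hom (IsUnit.mk0 _ h2) (algebraMap F L)
  have h2κ : (2 : κ) ≠ 0 := two_ne_zero_of_hom (IsUnit.mk0 _ h2) (algebraMap F κ)
  obtain ⟨d, hd⟩ := exists_res_par h2L hπ hy.inj hy.surj ψ hψ 1
  have hc := coord_X F
  obtain ⟨v, hv, v0, v1, v2⟩ := hc.exists_par
  obtain ⟨d', hd'⟩ := hv.exists_fun h2κ (fun w => Ψ (w 2 + w 3) (w 3))
  refine ⟨d'.comp d, fun q hq => Unr_le_ker _ (fun a ha => ?_) (h1 q hq), ?_⟩
  · have := hd 0 a ha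
    simp only [pow_zero, one_mul] at this
    simp [this]
  · intro γ e0 e1 e2 e3 hγ
    have hn : ¬ (X 0 : S4 F) ∣ C γ * (1 - X 0 * X 1) ^ e1 * X 2 ^ e2 * (1 - X 2 * X 3) ^ e3 := by
      intro h
      rcases hπ.dvd_or_dvd h with h | h
      · rcases hπ.dvd_or_dvd h with h | h
        · rcases hπ.dvd_or_dvd h with h | h
          · exact n4 γ hγ h
          · exact n1 (hπ.dvd_of_dvd_pow h)
        · exact n2 (hπ.dvd_of_dvd_pow h)
      · exact n3 (hπ.dvd_of_dvd_pow h)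
    have := hd e0 _ hn
    have e1' : ev F y (X 0 ^ e0 * (C γ * (1 - X 0 * X 1) ^ e1 * X 2 ^ e2 * (1 - X 2 * X 3) ^ e3))
        = algebraMap F L γ * y 0 ^ e0 * (1 - y 0 * y 1) ^ e1 * y 2 ^ e2
            * (1 - y 2 * y 3) ^ e3 := by
      simp only [map_mul, map_pow, map_sub, map_one, ev_X, ev_C]; ring
    have e2' : ψ (C γ * (1 - X 0 * X 1) ^ e1 * X 2 ^ e2 * (1 - X 2 * X 3) ^ e3)
        = algebraMap F κ γ * algebraMap (S4 F) κ (X 2) ^ e2
          * (1 - algebraMap (S4 F) κ (X 2) * algebraMap (S4 F) κ (X 3)) ^ e3 := by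
      simp [ψ, IsScalarTower.algebraMap_apply F (S4 F) κ]
    rw [e1', e2'] at this
    rw [AddMonoidHom.comp_apply, this]
    have z1 : algebraMap F κ γ ≠ 0 := by simpa using hγ
    have z2 := hc.ne_zero_X 2
    have z3 := hc.ne_zero_sub 2 3
    rcases Nat.mod_two_eq_zero_or_one e0 with h | h
    · rw [if_neg (by omega), map_zero, ← ZMod.natCast_mod e0 2, h]; simp
    · rw [if_pos h, ← ZMod.natCast_mod e0 2, h, hd' _ (by positivity),
        hv.mul _ _ (by positivity) (by positivity), hv.mul _ _ z1 (by positivity), hv.pow z2,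
        hv.pow z3, v0 γ hγ, v1, v2]
      have : ∀ a b : ZMod 2, a + b + b = a := by decide
      simp [this]

end Pool.Agent.P.MP_a9963e_ag
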