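import Mathlib
import Pool.Agent.P.MP_a9963e_ag.Divisor

namespace Pool.Agent.P.MP_a9963e_ag

open MvPolynomial

variable {F L : Type} [Field F] [Field L] [Algebra F L]

/-- the first chart -/
def y1 (a s b c : L) : Fin 4 → L := ![a⁻¹, (1 - s) * a, b / s, (1 - c) * s / b]

/-- the first chart, with the two factors exchanged -/
def y3 (a s b c : L) : Fin 4 → L := ![b / s, (1 - c) * s / b, a⁻¹, (1 - s) * a]

/-- the second chart -/
def y2 (a s b c : L) : Fin 4 → L :=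
  ![a, (1 - s / a ^ 2 * c) / a, b * a / s, (1 - c) * s / (a * b)]

/-- the coordinate ring of the glued variety -/
noncomputable def Glue (F : Type) [Field F] [Algebra F L] (a s b c : L) : Subalgebra F L :=
  Oc F (y1 a s b c) ⊓ Oc F (y2 a s b c)

variable {a s b c : L} (hx : Coord F ![a, s, b, c])
include hx

theorem Coord.ne4 : a ≠ 0 ∧ s ≠ 0 ∧ b ≠ 0 ∧ c ≠ 0 :=
  ⟨hx.ne_zero_X 0, hx.ne_zero_X 1, hx.ne_zero_X 2, hx.ne_zero_X 3⟩

theorem Coord.eqs : 1 - a⁻¹ * ((1 - s) * a) = s ∧ 1 - b / s * ((1 - c) * s / b) = c ∧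
    1 - a * ((1 - s / a ^ 2 * c) / a) = s / a ^ 2 * c ∧
    1 - b * a / s * ((1 - c) * s / (a * b)) = c := by
  obtain ⟨ha, hs, hb, hc⟩ := hx.ne4
  refine ⟨?_, ?_, ?_, ?_⟩ <;> field_simp <;> ring

theorem Coord.of_four {y : Fin 4 → L} (K : IntermediateField F L)
    (hK : K = IntermediateField.adjoin F (Set.range y))
    (h : (∀ i, y i ∈ K) → a ∈ K ∧ s ∈ K ∧ b ∈ K ∧ c ∈ K) : Coord F y := by
  subst hK
  obtain ⟨h0, h1, h2, h3⟩ := h fun i => IntermediateField.subset_adjoin _ _ ⟨i, rfl⟩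
  refine hx.of_mem fun i => ?_
  fin_cases i
  exacts [h0, h1, h2, h3]

theorem Coord.mem_one (K : IntermediateField F L) (h0 : a⁻¹ ∈ K) (h1 : (1 - s) * a ∈ K)
    (h2 : b / s ∈ K) (h3 : (1 - c) * s / b ∈ K) : a ∈ K ∧ s ∈ K ∧ b ∈ K ∧ c ∈ K := by
  obtain ⟨ha, hs, hb, hc⟩ := hx.ne4
  obtain ⟨e1, e2, e3, e4⟩ := hx.eqs
  have ms : s ∈ K := e1 ▸ sub_mem (one_mem _) (mul_mem h0 h1)
  refine ⟨by simpa using inv_mem h0, ms, ?_, e2 ▸ sub_mem (one_mem _) (mul_mem h2 h3)⟩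
  convert mul_mem h2 ms using 1
  field_simp

theorem Coord.c1 : Coord F (y1 a s b c) :=
  hx.of_four _ rfl fun h => hx.mem_one _ (h 0) (h 1) (h 2) (h 3)

theorem Coord.c3 : Coord F (y3 a s b c) :=
  hx.of_four _ rfl fun h => hx.mem_one _ (h 2) (h 3) (h 0) (h 1)

theorem Coord.c2 : Coord F (y2 a s b c) := by
  refine hx.of_four _ rfl fun h => ?_
  generalize IntermediateField.adjoin F (Set.range (y2 a s b c)) = K at h ⊢
  obtain ⟨ha, hs, hb, hc⟩ := hx.ne4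
  obtain ⟨e1, e2, e3, e4⟩ := hx.eqs
  have ma : a ∈ K := h 0
  have m1 : s / a ^ 2 * c ∈ K := e3 ▸ sub_mem (one_mem _) (mul_mem (h 0) (h 1))
  have mc : c ∈ K := e4 ▸ sub_mem (one_mem _) (mul_mem (h 2) (h 3))
  have m2 : b * a / s ∈ K := h 2
  have ms : s ∈ K := by
    convert div_mem (mul_mem m1 (mul_mem ma ma)) mc using 1
    field_simp
  refine ⟨ma, ms, ?_, mc⟩
  convert div_mem (mul_mem m2 ms) ma using 1
  field_simp

theorem Coord.O1_mem : a⁻¹ ∈ Oc F (y1 a s b c) ∧ (1 - s) * a ∈ Oc F (y1 a s b c) ∧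
    b / s ∈ Oc F (y1 a s b c) ∧ (1 - c) * s / b ∈ Oc F (y1 a s b c) ∧ s ∈ Oc F (y1 a s b c) ∧
    c ∈ Oc F (y1 a s b c) ∧ s⁻¹ ∈ Oc F (y1 a s b c) ∧ c⁻¹ ∈ Oc F (y1 a s b c) := by
  obtain ⟨e1, e2, e3, e4⟩ := hx.eqs
  have h := mem_Oc (F := F) (y1 a s b c)
  refine ⟨h 0, h 1, h 2, h 3, ?_, ?_, ?_, ?_⟩
  · convert sub_mem (one_mem _) (mul_mem (h 0) (h 1)) using 1; exact e1.symm
  · convert sub_mem (one_mem _) (mul_mem (h 2) (h 3)) using 1; exact e2.symm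
  · convert hx.c1.inv_mem_Oc.1 using 2; exact e1.symm
  · convert hx.c1.inv_mem_Oc.2 using 2; exact e2.symm

theorem Coord.O2_mem : a ∈ Oc F (y2 a s b c) ∧ (1 - s / a ^ 2 * c) / a ∈ Oc F (y2 a s b c) ∧
    b * a / s ∈ Oc F (y2 a s b c) ∧ (1 - c) * s / (a * b) ∈ Oc F (y2 a s b c) ∧
    s / a ^ 2 ∈ Oc F (y2 a s b c) ∧ c ∈ Oc F (y2 a s b c) ∧ (s / a ^ 2)⁻¹ ∈ Oc F (y2 a s b c) ∧
    c⁻¹ ∈ Oc F (y2 a s b c) := by
  obtain ⟨ha, hs, hb, hc⟩ := hx.ne4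
  obtain ⟨e1, e2, e3, e4⟩ := hx.eqs
  have h := mem_Oc (F := F) (y2 a s b c)
  have m1 : s / a ^ 2 * c ∈ Oc F (y2 a s b c) := e3 ▸ sub_mem (one_mem _) (mul_mem (h 0) (h 1))
  have mc : c ∈ Oc F (y2 a s b c) := by
    convert sub_mem (one_mem _) (mul_mem (h 2) (h 3)) using 1; exact e4.symm
  have m2 : (s / a ^ 2 * c)⁻¹ ∈ Oc F (y2 a s b c) := by
    convert hx.c2.inv_mem_Oc.1 using 2; exact e3.symm
  have m3 : c⁻¹ ∈ Oc F (y2 a s b c) := by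
    convert hx.c2.inv_mem_Oc.2 using 2; exact e4.symm
  refine ⟨h 0, h 1, h 2, h 3, ?_, mc, ?_, m3⟩
  · convert mul_mem m1 m3 using 1
    field_simp
  · convert mul_mem m2 mc using 1
    field_simp

theorem Coord.A_mem : s ∈ Glue F a s b c ∧ s / a ^ 2 ∈ Glue F a s b c ∧ c ∈ Glue F a s b c ∧
    c⁻¹ ∈ Glue F a s b c ∧ s / a ∈ Glue F a s b c ∧ (1 - s) * a ∈ Glue F a s b c ∧ b ∈ Glue F a s b c ∧
    (1 - c) * s / b ∈ Glue F a s b c ∧ (1 - s / a ^ 2 * c) / a ∈ Glue F a s b c ∧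
    b / a ∈ Glue F a s b c ∧ (1 - c) * s / (a * b) ∈ Glue F a s b c ∧
    (1 - s / a ^ 2 * c) ^ 2 / s ∈ Glue F a s b c := by
  obtain ⟨ha, hs, hb, hc⟩ := hx.ne4
  obtain ⟨p0, p1, p2, p3, p4, p5, p6, p7⟩ := hx.O1_mem
  obtain ⟨q0, q1, q2, q3, q4, q5, q6, q7⟩ := hx.O2_mem
  have q8 : s ∈ Oc F (y2 a s b c) := by
    convert mul_mem q4 (mul_mem q0 q0) using 1; field_simp
  have p8 : s / a ^ 2 ∈ Oc F (y1 a s b c) := by
    convert mul_mem p4 (mul_mem p0 p0) using 1; field_simp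
  have p9 := sub_mem (one_mem _) (mul_mem p8 p5)
  simp only [Glue, Algebra.mem_inf]
  refine ⟨⟨p4, q8⟩, ⟨p8, q4⟩, ⟨p5, q5⟩, ⟨p7, q7⟩, ⟨?_, ?_⟩,
    ⟨p1, mul_mem (sub_mem (one_mem _) q8) q0⟩, ⟨?_, ?_⟩,
    ⟨p3, ?_⟩, ⟨?_, q1⟩, ⟨?_, ?_⟩, ⟨?_, q3⟩, ⟨?_, ?_⟩⟩
  · convert mul_mem p4 p0 using 1; field_simp
  · convert mul_mem q4 q0 using 1; field_simp
  · convert mul_mem p2 p4 using 1; field_simp
  · convert mul_mem q4 (mul_mem q0 q2) using 1; field_simp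
  · convert mul_mem q3 q0 using 1; field_simp
  · convert mul_mem p9 p0 using 1; field_simp
  · convert mul_mem p4 (mul_mem p2 p0) using 1; field_simp
  · convert mul_mem q2 q4 using 1; field_simp
  · convert mul_mem p3 p0 using 1; field_simp
  · convert mul_mem (mul_mem p9 p9) p6 using 1; field_simp
  · convert mul_mem (mul_mem q1 q1) q6 using 1; field_simp

theorem Coord.y1_mem (i : Fin 4) : y1 a s b c i ∈ loc (Glue F a s b c) s hx.A_mem.1 := by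
  obtain ⟨ha, hs, hb, hc⟩ := hx.ne4
  obtain ⟨m0, m1, m2, m3, m4, m5, m6, m7, m8, m9, m10, m11⟩ := hx.A_mem
  fin_cases i
  · exact mem_loc_one _ (by convert m4 using 1; simp [y1]; field_simp)
  · exact le_loc _ m5
  · exact mem_loc_one _ (by convert m6 using 1; simp [y1]; field_simp)
  · exact le_loc _ m7

theorem Coord.y3_mem (i : Fin 4) : y3 a s b c i ∈ loc (Glue F a s b c) s hx.A_mem.1 := by
  fin_cases i
  exacts [hx.y1_mem 2, hx.y1_mem 3, hx.y1_mem 0, hx.y1_mem 1]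

theorem Coord.y2_mem (i : Fin 4) :
    y2 a s b c i ∈ loc (Glue F a s b c) (s / a ^ 2) hx.A_mem.2.1 := by
  obtain ⟨ha, hs, hb, hc⟩ := hx.ne4
  obtain ⟨m0, m1, m2, m3, m4, m5, m6, m7, m8, m9, m10, m11⟩ := hx.A_mem
  fin_cases i
  · exact mem_loc_one _ (by convert m4 using 1; simp [y2]; field_simp)
  · exact le_loc _ m8
  · exact mem_loc_one _ (by convert m9 using 1; simp [y2]; field_simp)
  · exact le_loc _ m10

theorem Coord.x_mem (i : Fin 4) :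
    ![a, s, b, c] i ∈ loc (Glue F a s b c) (s / a) hx.A_mem.2.2.2.2.1 := by
  obtain ⟨ha, hs, hb, hc⟩ := hx.ne4
  obtain ⟨m0, m1, m2, m3, m4, m5, m6, m7, m8, m9, m10, m11⟩ := hx.A_mem
  fin_cases i
  · exact mem_loc_one _ (by convert m0 using 1; simp; field_simp)
  · exact le_loc _ m0
  · exact le_loc _ m6
  · exact le_loc _ m2

theorem Coord.unit_ideal : (1 - s / a ^ 2 * c) ^ 2 / s * s +
    (2 * (1 - s / a ^ 2 * c) * c + s / a ^ 2 * c ^ 2) * (s / a ^ 2) = 1 ∧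
    2 * (1 - s / a ^ 2 * c) * c + s / a ^ 2 * c ^ 2 ∈ Glue F a s b c := by
  obtain ⟨ha, hs, hb, hc⟩ := hx.ne4
  obtain ⟨m0, m1, m2, m3, m4, m5, m6, m7, m8, m9, m10, m11⟩ := hx.A_mem
  constructor
  · field_simp; ring
  · exact add_mem (mul_mem (mul_mem (ofNat_mem _ 2) (sub_mem (one_mem _) (mul_mem m1 m2))) m2)
      (mul_mem m1 (pow_mem m2 2))

theorem Coord.smooth_A : Algebra.Smooth F (Glue F a s b c) := by
  obtain ⟨ha, hs, hb, hc⟩ := hx.ne4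
  obtain ⟨e1, e2, e3, e4⟩ := hx.eqs
  obtain ⟨m0, m1, m2, m3, m4, m5, m6, m7, m8, m9, m10, m11⟩ := hx.A_mem
  refine smooth_glue inf_le_left inf_le_right m0 m1 hs (by positivity) hx.O1_mem.2.2.2.2.2.2.1
    hx.O2_mem.2.2.2.2.2.2.1 (hx.c1.Oc_le hx.y1_mem ?_ ?_) (hx.c2.Oc_le hx.y2_mem ?_ ?_) m11
    hx.unit_ideal.2 hx.unit_ideal.1 hx.c1.smooth_Oc hx.c2.smooth_Oc
  · convert inv_mem_loc m0 using 2; exact e1
  · convert le_loc m0 m3 using 2; exact e2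
  · convert mul_mem (inv_mem_loc m1) (le_loc m1 m3) using 1
    rw [← mul_inv]; congr 1
  · convert le_loc m1 m3 using 2; exact e4

theorem Coord.frac_A : IsFractionRing (Glue F a s b c) L := by
  refine isFractionRing_of_fracSurj Subtype.val_injective fun x => ?_
  obtain ⟨ha, hs, hb, hc⟩ := hx.ne4
  obtain ⟨f, g, hg, e⟩ := hx.surj x
  obtain ⟨n, hn⟩ := range_le hx.x_mem ⟨f, rfl⟩
  obtain ⟨m, hm⟩ := range_le hx.x_mem ⟨g, rfl⟩
  have hu := hx.A_mem.2.2.2.2.1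
  refine ⟨⟨_, mul_mem hn (pow_mem hu m)⟩, ⟨_, mul_mem hm (pow_mem hu n)⟩, ?_, ?_⟩
  · change ev F _ g * (s / a) ^ m * (s / a) ^ n ≠ 0
    positivity
  · change x * (ev F _ g * (s / a) ^ m * (s / a) ^ n) = ev F _ f * (s / a) ^ n * (s / a) ^ m
    rw [← e]; ring

end Pool.Agent.P.MP_a9963e_ag
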