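import Mathlib
import Pool.Agent.P.MP_a9963e_ag.Geom

namespace Pool.Agent.P.MP_a9963e_ag

open MvPolynomial IsDedekindDomain

section DVR

variable {L : Type} [Field L] (O : Type) [CommRing O] [IsDomain O] [IsDiscreteValuationRing O]
  [Algebra O L] [IsFractionRing O L]

theorem ord_mul (f g : Lˣ) : ord O (f * g) = ord O f + ord O g := by
  simp only [ord, Units.val_mul, map_mul]
  rw [WithZero.log_mul (by simp) (by simp), neg_add]

theorem ord_inv (f : Lˣ) : ord O f⁻¹ = -ord O f := by
  simp only [ord, Units.val_inv_eq_inv_val, map_inv₀, WithZero.log_inv]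

/-- principal units -/
noncomputable def UU (L : Type) [Field L] (O : Type) [CommRing O] [IsDomain O]
    [IsDiscreteValuationRing O] [Algebra O L] [IsFractionRing O L] : Subgroup Lˣ where
  carrier := {u | vv L O ((u : L) - 1) < 1}
  one_mem' := by simp
  mul_mem' := by
    intro u w hu hw
    have h1 : vv L O (w : L) = 1 := by
      simpa using (vv L O).map_one_add_of_lt hw
    have : ((u * w : Lˣ) : L) - 1 = ((u : L) - 1) * w + ((w : L) - 1) := by simp; ring
    change vv L O _ < 1
    rw [this]
    exact (vv L O).map_add_lt (by rw [map_mul, h1, mul_one]; exact hu) hw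
  inv_mem' := by
    intro u hu
    have h1 : vv L O (u : L) = 1 := by
      simpa using (vv L O).map_one_add_of_lt hu
    have : ((u⁻¹ : Lˣ) : L) - 1 = -((u : L) - 1) * (u : L)⁻¹ := by simp; field_simp
    change vv L O _ < 1
    rw [this, map_mul, map_inv₀, h1, Valuation.map_neg, inv_one, mul_one]
    exact hu

theorem zpow_mem_UU {u z : Lˣ} (hz : vv L O z ≤ 1) (hu : vv L O ((1 - (u : L)) / z) ≤ 1) :
    u ^ ord O z ∈ UU L O := by
  rcases hz.eq_or_lt with h | h
  · rw [(ord_eq_zero_iff O z).2 h, zpow_zero]; exact one_mem _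
  · refine zpow_mem ?_ _
    change vv L O _ < 1
    rw [Valuation.map_sub_swap, ← div_mul_cancel₀ (1 - (u : L)) z.ne_zero, map_mul]
    exact mul_lt_one_of_nonneg_of_lt_one_right hu zero_le h

end DVR

variable {F L : Type} [Field F] [Field L] [Algebra F L]

theorem vv_le_one {A : Subalgebra F L} [IsFractionRing A L] (P : Ideal A) [P.IsPrime]
    [IsDiscreteValuationRing (locAt A L P)] {x : L} (hx : x ∈ A) : vv L (locAt A L P) x ≤ 1 :=
  HeightOneSpectrum.valuation_le_one _ (algebraMap A (locAt A L P) ⟨x, hx⟩)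

variable {a s b c : Lˣ} (hx : Coord F ![(a : L), s, b, c])
include hx

theorem Coord.cases [IsFractionRing (Glue F (a : L) s b c) L] (P : Ideal (Glue F (a : L) s b c))
    [P.IsPrime] [IsDiscreteValuationRing (locAt _ L P)] :
    vv L (locAt _ L P) c = 1 ∧ (vv L (locAt _ L P) s = 1 ∨ vv L (locAt _ L P) (s / a ^ 2) = 1) := by
  obtain ⟨m0, m1, m2, m3, m4, m5, m6, m7, m8, m9, m10, m11⟩ := hx.A_mem
  constructor
  · refine le_antisymm (vv_le_one P m2) ?_
    have := vv_le_one P m3
    rwa [map_inv₀, inv_le_one₀ (by simp [zero_lt_iff])] at this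
  · by_contra h
    push Not at h
    have h1 := lt_of_le_of_ne (vv_le_one P m0) h.1
    have h2 := lt_of_le_of_ne (vv_le_one P m1) h.2
    have := (vv L (locAt _ L P)).map_add_lt
      (x := (1 - s / a ^ 2 * c) ^ 2 / s * s)
      (y := (2 * (1 - s / a ^ 2 * c) * c + s / a ^ 2 * c ^ 2) * (s / a ^ 2))
      (by rw [map_mul]; exact mul_lt_one_of_nonneg_of_lt_one_right (vv_le_one P m11) zero_le h1)
      (by
        rw [map_mul]
        exact mul_lt_one_of_nonneg_of_lt_one_right (vv_le_one P hx.unit_ideal.2) zero_le h2)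
    rw [hx.unit_ideal.1, map_one] at this
    exact lt_irrefl _ this

theorem Coord.tame [IsFractionRing (Glue F (a : L) s b c) L] (P : Ideal (Glue F (a : L) s b c))
    [P.IsPrime] [IsDiscreteValuationRing (locAt _ L P)] :
    TameTrivial (locAt _ L P) ![a, b] ![s, c] := by
  obtain ⟨m0, m1, m2, m3, m4, m5, m6, m7, m8, m9, m10, m11⟩ := hx.A_mem
  obtain ⟨hc, h⟩ := hx.cases P
  change _ ∈ UU L (locAt _ L P)
  have oc := (ord_eq_zero_iff _ c).2 hc
  simp only [Fin.prod_univ_two, Matrix.cons_val_zero, Matrix.cons_val_one, oc, mul_zero,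
    zpow_zero, one_mul]
  rcases h with hs | ht
  · have os := (ord_eq_zero_iff _ s).2 hs
    have h1 := zpow_mem_UU (locAt _ L P) (u := s) (z := a⁻¹) (by
      have := vv_le_one P m4
      rwa [div_eq_mul_inv, map_mul, hs, one_mul, ← Units.val_inv_eq_inv_val] at this)
      (by simpa using vv_le_one P m5)
    have h2 := zpow_mem_UU (locAt _ L P) (u := c) (z := b * s⁻¹) (by
      have := vv_le_one P m6
      simpa [hs] using this) (by
      convert vv_le_one P m7 using 2
      simp; field_simp)
    rw [ord_mul, ord_inv, os, neg_zero, add_zero] at h2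
    rw [ord_inv, zpow_neg] at h1
    simpa [os] using mul_mem h1 (inv_mem h2)
  · have ot := (ord_eq_zero_iff (locAt _ L P) (s * (a * a)⁻¹)).2 (by
      convert ht using 2; simp; field_simp)
    have h1 := zpow_mem_UU (locAt _ L P) (u := s * (a * a)⁻¹ * c) (z := a) (by
      have := vv_le_one P m4
      rw [show (s : L) / a = s / a ^ 2 * a by field_simp, map_mul, ht, one_mul] at this
      exact this) (by
      convert vv_le_one P m8 using 2
      simp; field_simp)
    have h2 := zpow_mem_UU (locAt _ L P) (u := c) (z := b * a * s⁻¹) (by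
      have := vv_le_one P m9
      rw [show (b : L) / a = s / a ^ 2 * (b * a * s⁻¹ : Lˣ) by simp; field_simp, map_mul, ht,
        one_mul] at this
      exact this) (by
      convert vv_le_one P m10 using 2
      simp; field_simp)
    simp only [ord_mul, ord_inv] at ot h2
    generalize ord (locAt _ L P) a = n at *
    generalize ord (locAt _ L P) b = k at *
    generalize ord (locAt _ L P) s = m at *
    obtain rfl : m = n + n := by omega
    rw [Even.neg_one_zpow ⟨n * n, by ring⟩]
    convert inv_mem (mul_mem h1 h2) using 1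
    simp only [zpow_add, zpow_neg, mul_zpow, inv_zpow]
    ext
    simp
    field_simp

theorem Coord.pf_unram [IsFractionRing (Glue F (a : L) s b c) L] (P : Ideal (Glue F (a : L) s b c))
    [P.IsPrime] [IsDiscreteValuationRing (locAt _ L P)] : ResidueZero (locAt _ L P) (pf s) := by
  apply residueZero_of_mem
  rw [pf, ← wf_units, ← wf_units]
  refine add_mem (AddSubgroup.subset_closure ⟨_, by simp, rfl⟩) ?_
  rcases (hx.cases P).2 with h | h
  · exact AddSubgroup.subset_closure ⟨_, by simpa using h, rfl⟩
  · refine AddSubgroup.subset_closure ⟨-(s / a ^ 2), by simpa using h, ?_⟩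
    rw [← wf_mul_sq (-((s : L) / a ^ 2)) a.ne_zero]
    congr 1
    simp

end Pool.Agent.P.MP_a9963e_ag
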