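import Mathlib
import Pool.Agent.P.MP_a9963e_ag.Tame

namespace Pool.Agent.P.MP_a9963e_ag

open MvPolynomial

variable {F L : Type} [Field F] [Field L] [Algebra F L]

theorem ev_monomial (y : Fin 4 → L) (m : Fin 4 →₀ ℕ) (γ : F) : ev F y (monomial m γ) =
    algebraMap F L γ * y 0 ^ m 0 * y 1 ^ m 1 * y 2 ^ m 2 * y 3 ^ m 3 := by
  rw [ev_apply, aeval_monomial, Finsupp.prod_fintype _ _ (by simp), Fin.prod_univ_four]
  ring

theorem exists_monomial (f : S4 F) : f ≠ 0 → (∀ π, Prime π → π ∣ f → ∃ i, π ∣ X i) →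
    ∃ m γ, γ ≠ 0 ∧ f = monomial m γ := by
  refine UniqueFactorizationMonoid.induction_on_prime f (by simp) ?_ ?_
  · intro x hx _ _
    obtain ⟨r, hr, rfl⟩ := isUnit_iff_eq_C_of_isReduced.1 hx
    exact ⟨0, r, hr.ne_zero, rfl⟩
  · intro g π hg hπ ih _ h
    obtain ⟨m, γ, hγ, rfl⟩ := ih hg fun p hp hd => h p hp (hd.mul_left _)
    obtain ⟨i, hi⟩ := h π hπ (dvd_mul_right _ _)
    obtain ⟨u, hu⟩ := (hπ.associated_of_dvd X_prime hi).symm
    obtain ⟨r, hr, e⟩ := isUnit_iff_eq_C_of_isReduced.1 u.isUnit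
    refine ⟨Finsupp.single i 1 + m, r * γ, mul_ne_zero hr.ne_zero hγ, ?_⟩
    rw [← hu, e, X, C_apply, monomial_mul, monomial_mul]
    simp

variable (h2 : (2 : F) ≠ 0) {a s b c : L} (hx : Coord F ![a, s, b, c])
  [IsFractionRing (Glue F a s b c) L]
include h2 hx

theorem Coord.torus {π : S4 F} (hπ : Prime π) (h : ∀ i, ¬ π ∣ X i) :
    ∃ (P : Ideal (Glue F a s b c)) (_ : P.IsPrime) (_ : IsDiscreteValuationRing (locAt _ L P)),
      (∀ q : Witt L, ResidueZero (locAt _ L P) q → q ∈ Unr (ev F ![a, s, b, c]) π) ∧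
      (∀ g, ¬ π ∣ g → vv L (locAt _ L P) (ev F ![a, s, b, c] g) = 1) ∧
      vv L (locAt _ L P) (ev F ![a, s, b, c] π) < 1 := by
  obtain ⟨ha, hs, hb, hc⟩ := hx.ne4
  obtain ⟨e1, e2, e3, e4⟩ := hx.eqs
  have m := mem_locP ![a, s, b, c] hπ
  have n : ∀ i, (![a, s, b, c] i)⁻¹ ∈ locP F ![a, s, b, c] hπ := fun i => by
    simpa using inv_mem_locP hx hπ (h i)
  refine transfer h2 hx hπ _ (inf_le_left.trans (hx.c1.Oc_le (fun i => ?_) ?_ ?_)) _ hx.x_mem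
    (h 1) (h 0) (by simp [ha])
  · fin_cases i
    · exact n 0
    · exact mul_mem (sub_mem (one_mem _) (m 1)) (m 0)
    · convert mul_mem (m 2) (n 1) using 1; exact div_eq_mul_inv b s
    · convert mul_mem (mul_mem (sub_mem (one_mem _) (m 3)) (m 1)) (n 2) using 1
      exact div_eq_mul_inv _ b
  · convert n 1 using 2; exact e1
  · convert n 3 using 2; exact e2

theorem Coord.divE2 :
    ∃ (P : Ideal (Glue F a s b c)) (_ : P.IsPrime) (_ : IsDiscreteValuationRing (locAt _ L P)),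
      (∃ μ : Witt L →+ ZMod 2, (∀ q, ResidueZero (locAt _ L P) q → μ q = 0) ∧
        ∀ (γ : F) (i j k l : ℕ), γ ≠ 0 → μ (wf (algebraMap F L γ * a ^ i * s ^ j * b ^ k * c ^ l))
          = i * ((1 + k) * (1 + l))) ∧
      ∃ z, 0 < z ∧ z ≠ 1 ∧ ∀ (γ : F) (i j k l : ℕ), γ ≠ 0 →
        vv L (locAt _ L P) (algebraMap F L γ * a ^ i * s ^ j * b ^ k * c ^ l) = z ^ i := by
  obtain ⟨ha, hs, hb, hc⟩ := hx.ne4
  obtain ⟨e1, e2, e3, e4⟩ := hx.eqs
  obtain ⟨P, hP, hD, h1, v0, v1, v2, v3, v4⟩ := divisor h2 hx.c1 (Glue F a s b c) inf_le_left _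
    hx.y1_mem
    (f := 1 - X 0 * X 1) (g := 1) (by simp) (by simp) (by simpa [y1, y3] using e1.symm)
  simp only [y1, Matrix.cons_val_zero, Matrix.cons_val_one, Matrix.cons_val, e1, e2]
    at h1 v0 v1 v2 v3
  obtain ⟨μ, hμ, hμ'⟩ := h1 fun x y => (1 + x) * (1 + y)
  refine ⟨P, hP, hD, ⟨μ, hμ, fun γ i j k l hγ => ?_⟩, vv L (locAt _ L P) a,
    by simp [zero_lt_iff, ha], fun h => by simp [h] at v0, fun γ i j k l hγ => ?_⟩
  · rw [← hμ' γ i (j + k) k l hγ, ← wf_mul_sq _ (pow_ne_zero i (inv_ne_zero ha))]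
    congr 2
    simp only [div_pow, inv_pow, pow_add]
    field_simp
  · rw [map_div₀, v1, div_one] at v2
    simp [v1, v2, v3, v4 γ hγ]

theorem Coord.divE3 :
    ∃ (P : Ideal (Glue F a s b c)) (_ : P.IsPrime) (_ : IsDiscreteValuationRing (locAt _ L P)),
      (∃ μ : Witt L →+ ZMod 2, (∀ q, ResidueZero (locAt _ L P) q → μ q = 0) ∧
        ∀ (γ : F) (i j k l : ℕ), γ ≠ 0 → μ (wf (algebraMap F L γ * a ^ i * s ^ j * b ^ k * c ^ l))
          = k * (i * (j + k + 1))) ∧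
      ∃ z, 0 < z ∧ z ≠ 1 ∧ ∀ (γ : F) (i j k l : ℕ), γ ≠ 0 →
        vv L (locAt _ L P) (algebraMap F L γ * a ^ i * s ^ j * b ^ k * c ^ l) = z ^ k := by
  obtain ⟨ha, hs, hb, hc⟩ := hx.ne4
  obtain ⟨e1, e2, e3, e4⟩ := hx.eqs
  obtain ⟨P, hP, hD, h1, v0, v1, v2, v3, v4⟩ := divisor h2 hx.c3 (Glue F a s b c) (inf_le_left.trans
    (hx.c1.Oc_le (fun i => by
      fin_cases i
      exacts [mem_Oc _ 2, mem_Oc _ 3, mem_Oc _ 0, mem_Oc _ 1])
      hx.c3.inv_mem_Oc.2 hx.c3.inv_mem_Oc.1)) _ hx.y3_mem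
    (f := 1 - X 2 * X 3) (g := 1) (by simp) (by simp) (by simpa [y1, y3] using e1.symm)
  simp only [y3, Matrix.cons_val_zero, Matrix.cons_val_one, Matrix.cons_val, e1, e2]
    at h1 v0 v1 v2 v3
  obtain ⟨μ, hμ, hμ'⟩ := h1 fun x y => x * (y + 1)
  rw [map_div₀, v3, div_one] at v0
  refine ⟨P, hP, hD, ⟨μ, hμ, fun γ i j k l hγ => ?_⟩, vv L (locAt _ L P) b,
    by simp [zero_lt_iff, hb], v0.ne, fun γ i j k l hγ => ?_⟩
  · rw [← Nat.cast_add, ← hμ' γ k l i (j + k) hγ, ← wf_mul_sq _ (pow_ne_zero i (inv_ne_zero ha))]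
    congr 2
    simp only [div_pow, inv_pow, pow_add]
    field_simp
  · rw [map_inv₀, inv_eq_one] at v2
    simp [v1, v2, v3, v4 γ hγ]

theorem Coord.divE1 :
    ∃ (P : Ideal (Glue F a s b c)) (_ : P.IsPrime) (_ : IsDiscreteValuationRing (locAt _ L P)),
      (∃ μ : Witt L →+ ZMod 2, (∀ q, ResidueZero (locAt _ L P) q → μ q = 0) ∧
        ∀ (γ : F) (i j k l : ℕ), γ ≠ 0 → μ (wf (algebraMap F L γ * a ^ i * s ^ j * b ^ k * c ^ l))
          = (i + 2 * j + k) * ((1 + k) * (1 + (l + j + k)))) ∧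
      ∃ z, 0 < z ∧ z ≠ 1 ∧ ∀ (γ : F) (i j k l : ℕ), γ ≠ 0 →
        vv L (locAt _ L P) (algebraMap F L γ * a ^ i * s ^ j * b ^ k * c ^ l)
          = z ^ (i + 2 * j + k) := by
  obtain ⟨ha, hs, hb, hc⟩ := hx.ne4
  obtain ⟨e1, e2, e3, e4⟩ := hx.eqs
  obtain ⟨P, hP, hD, h1, v0, v1, v2, v3, v4⟩ := divisor h2 hx.c2 (Glue F a s b c) inf_le_right _
    hx.y2_mem
    (f := 1 - X 0 * X 1) (g := 1 - X 2 * X 3) (by simp) (by simp) (by
      simp only [map_sub, map_one, map_mul, ev_X]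
      exact (congrArg _ e4).trans e3.symm)
  simp only [y2, Matrix.cons_val_zero, Matrix.cons_val_one, Matrix.cons_val, e3, e4]
    at h1 v0 v1 v2 v3
  obtain ⟨μ, hμ, hμ'⟩ := h1 fun x y => (1 + x) * (1 + y)
  have key : ∀ (γ : F) (i j k l : ℕ), algebraMap F L γ * a ^ i * s ^ j * b ^ k * c ^ l *
      (c ^ (j + k)) ^ 2 = algebraMap F L γ * a ^ (i + 2 * j + k) * (s / a ^ 2 * c) ^ (j + k) *
      (b * a / s) ^ k * c ^ (l + j + k) := by
    intro γ i j k l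
    simp only [div_pow, mul_pow, pow_add, sq, two_mul]
    field_simp
  refine ⟨P, hP, hD, ⟨μ, hμ, fun γ i j k l hγ => ?_⟩, vv L (locAt _ L P) a,
    by simp [zero_lt_iff, ha], v0.ne, fun γ i j k l hγ => ?_⟩
  · rw [← wf_mul_sq _ (pow_ne_zero (j + k) hc), key, hμ' _ _ _ _ _ hγ]
    push_cast
    rfl
  · have := congrArg (vv L (locAt _ L P)) (key γ i j k l)
    simpa only [map_mul (vv L _) _ (_ ^ _), map_pow, v1, v2, v3, v4 γ hγ, one_pow, mul_one,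
      one_mul] using this

theorem Coord.obstruction : ∃ v : L → Fin 4 → ZMod 2, Par v ∧
    (∀ i, v (![a, s, b, c] i) = Pi.single i 1) ∧
    ∀ d : Witt L →+ ZMod 2, (∀ x, x ≠ 0 → d (wf x) = v x 0 * v x 1) → ∀ q : Witt L,
      (∀ (P : Ideal (Glue F a s b c)) [P.IsPrime] [IsDiscreteValuationRing (locAt _ L P)],
        ResidueZero (locAt _ L P) q) → d q = 0 := by
  obtain ⟨ha, hs, hb, hc⟩ := hx.ne4
  obtain ⟨v, hv, v0, v1, -⟩ := hx.exists_par
  refine ⟨v, hv, v1, fun d hd q hq => ?_⟩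
  obtain ⟨P1, _, _, ⟨μ1, k1, f1⟩, -⟩ := hx.divE1 h2
  obtain ⟨P2, _, _, ⟨μ2, k2, f2⟩, -⟩ := hx.divE2 h2
  obtain ⟨P3, _, _, ⟨μ3, k3, f3⟩, -⟩ := hx.divE3 h2
  have hm := torus_mono h2 4 _ hx.inj hx.surj q fun π hπ h => by
    obtain ⟨P, _, _, h1, -⟩ := hx.torus h2 hπ h
    exact h1 q (hq P)
  have : d q = (μ1 + μ2 + μ3) q := by
    refine (AddSubgroup.closure_le (d.eqLocus (μ1 + μ2 + μ3))).2 ?_ hm
    rintro _ ⟨m, γ, rfl⟩
    by_cases hγ : γ = 0
    · simp [hγ]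
    have z : algebraMap F L γ ≠ 0 := by simpa using hγ
    change d _ = μ1 _ + μ2 _ + μ3 _
    have va := v1 0
    have vs := v1 1
    have vb := v1 2
    have vc := v1 3
    rw [ev_monomial]
    simp only [Matrix.cons_val_zero, Matrix.cons_val_one, Matrix.cons_val] at va vs vb vc ⊢
    rw [f1 _ _ _ _ _ hγ, f2 _ _ _ _ _ hγ, f3 _ _ _ _ _ hγ, hd _ (by positivity),
      hv.mul _ _ (by positivity) (by positivity), hv.mul _ _ (by positivity) (by positivity),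
      hv.mul _ _ (by positivity) (by positivity), hv.mul _ _ z (by positivity),
      hv.pow ha, hv.pow hs, hv.pow hb, hv.pow hc, v0 γ hγ, va, vs, vb, vc]
    generalize (m 0 : ZMod 2) = i, (m 1 : ZMod 2) = j, (m 2 : ZMod 2) = k, (m 3 : ZMod 2) = l
    revert i j k l
    decide
  rw [this, AddMonoidHom.add_apply, AddMonoidHom.add_apply, k1 q (hq P1), k2 q (hq P2),
    k3 q (hq P3), add_zero, add_zero]

theorem Coord.global_unit {v : L → Fin 4 → ZMod 2} (hv : Par v)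
    (v0 : ∀ γ : F, γ ≠ 0 → v (algebraMap F L γ) = 0) (v1 : ∀ i, v (![a, s, b, c] i) = Pi.single i 1)
    {f : L} (hf0 : f ≠ 0)
    (hf : ∀ (P : Ideal (Glue F a s b c)) [P.IsPrime] [IsDiscreteValuationRing (locAt _ L P)],
      vv L (locAt _ L P) f = 1) : v f 1 = 0 := by
  obtain ⟨ha, hs, hb, hc⟩ := hx.ne4
  obtain ⟨n, d, hd, e⟩ := hx.surj f
  obtain ⟨n, d, k, hr, rfl, rfl⟩ := UniqueFactorizationMonoid.exists_reduced_factors' n d
    (by rintro rfl; simp at hd)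
  rw [map_mul, mul_ne_zero_iff] at hd
  replace e : f * ev F _ d = ev F _ n := mul_left_cancel₀ hd.1 (by
    rw [← map_mul, ← e, map_mul]; ring)
  have key : ∀ {f : L} {n d : S4 F}, f ≠ 0 → ev F ![a, s, b, c] d ≠ 0 → IsRelPrime n d →
      f * ev F ![a, s, b, c] d = ev F ![a, s, b, c] n →
      (∀ (P : Ideal (Glue F a s b c)) [P.IsPrime] [IsDiscreteValuationRing (locAt _ L P)],
        vv L (locAt _ L P) f = 1) → ∃ m γ, γ ≠ 0 ∧ n = monomial m γ := by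
    intro f n d hf0 hd hr e hf
    have hn : n ≠ 0 := by
      rintro rfl
      exact mul_ne_zero hf0 hd (by simpa using e)
    refine exists_monomial n hn fun π hπ h => ?_
    by_contra hc
    push Not at hc
    obtain ⟨P, _, _, -, h1, h3⟩ := hx.torus h2 hπ hc
    obtain ⟨k, n', hn', rfl⟩ := exists_pow_factor hπ hn
    have := congrArg (vv L (locAt _ L P)) e
    rw [map_mul, hf P, h1 d (fun hd => hπ.not_isUnit (hr h hd)), map_mul, map_mul, h1 n' hn',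
      map_pow, map_pow, mul_one, mul_one] at this
    have hk : k ≠ 0 := by rintro rfl; exact hn' (by simpa using h)
    exact (pow_lt_one₀ zero_le h3 hk).ne this.symm
  obtain ⟨m, γ, hγ, rfl⟩ := key hf0 hd.2 hr e hf
  obtain ⟨m', γ', hγ', rfl⟩ := key (f := f⁻¹) (inv_ne_zero hf0)
    (by rw [← e]; exact mul_ne_zero hf0 hd.2) hr.symm (by rw [← e]; field_simp)
    (fun P _ _ => by rw [map_inv₀, hf P, inv_one])
  rw [ev_monomial, ev_monomial] at e
  have va := v1 0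
  have vs := v1 1
  have vb := v1 2
  have vc := v1 3
  simp only [Matrix.cons_val_zero, Matrix.cons_val_one, Matrix.cons_val] at va vs vb vc e
  obtain ⟨P1, _, _, -, z1, p1, n1, f1⟩ := hx.divE1 h2
  obtain ⟨P2, _, _, -, z2, p2, n2, f2⟩ := hx.divE2 h2
  obtain ⟨P3, _, _, -, z3, p3, n3, f3⟩ := hx.divE3 h2
  have g1 := congrArg (vv L (locAt _ L P1)) e
  have g2 := congrArg (vv L (locAt _ L P2)) e
  have g3 := congrArg (vv L (locAt _ L P3)) e
  rw [map_mul, hf P1, one_mul, f1 _ _ _ _ _ hγ, f1 _ _ _ _ _ hγ', pow_right_inj₀ p1 n1] at g1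
  rw [map_mul, hf P2, one_mul, f2 _ _ _ _ _ hγ, f2 _ _ _ _ _ hγ', pow_right_inj₀ p2 n2] at g2
  rw [map_mul, hf P3, one_mul, f3 _ _ _ _ _ hγ, f3 _ _ _ _ _ hγ', pow_right_inj₀ p3 n3] at g3
  have hj : m' 1 = m 1 := by omega
  have hm : ∀ (γ : F) (i j k l : ℕ), γ ≠ 0 →
      v (algebraMap F L γ * a ^ i * s ^ j * b ^ k * c ^ l) 1 = j := by
    intro γ i j k l hγ
    have z : algebraMap F L γ ≠ 0 := by simpa using hγ
    rw [hv.mul _ _ (by positivity) (by positivity), hv.mul _ _ (by positivity) (by positivity),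
      hv.mul _ _ (by positivity) (by positivity), hv.mul _ _ z (by positivity),
      hv.pow ha, hv.pow hs, hv.pow hb, hv.pow hc, v0 γ hγ, va, vs, vb, vc]
    simp
  have z : algebraMap F L γ' ≠ 0 := by simpa using hγ'
  have := congrArg (fun x => v x 1) e
  rw [hv.mul _ _ hf0 (by positivity), Pi.add_apply, hm _ _ _ _ _ hγ, hm _ _ _ _ _ hγ', hj] at this
  simpa using this

end Pool.Agent.P.MP_a9963e_ag
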