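import Mathlib
import Pool.Agent.P.MP_a9963e_ag.Defs

/-!
Milnor K-theory of a field and tame symbols in all degrees.
-/

namespace Pool.Agent.P.MP_a9963e_ag

/-- The relations `a ⊗ (1 - a) = 0` and `a ⊗ (-a) = 0` in the tensor algebra on `Lˣ`. -/
def Steinberg (L : Type) [Field L] (x y : TensorAlgebra ℤ (Additive Lˣ)) : Prop :=
  y = 0 ∧ ∃ a b : Lˣ, ((a : L) + b = 1 ∨ (a : L) + b = 0) ∧
    x = TensorAlgebra.ι ℤ (Additive.ofMul a) * TensorAlgebra.ι ℤ (Additive.ofMul b)

/-- The Milnor ring `K_*(L)`. -/
def KM (L : Type) [Field L] : Type := RingQuot (Steinberg L)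

/-- The quotient ring structure. -/
noncomputable instance (L : Type) [Field L] : Ring (KM L) :=
  RingQuot.instRing (Steinberg L)

/-- The symbol `{a}` of degree one. -/
noncomputable def sym {L : Type} [Field L] (a : Lˣ) : KM L :=
  RingQuot.mkRingHom (Steinberg L) (TensorAlgebra.ι ℤ (Additive.ofMul a))

/-- The symbol `{a₁, …, aₙ}`. -/
noncomputable def symb {L : Type} [Field L] (a : List Lˣ) : KM L := (a.map sym).prod

variable {L : Type} [Field L] (O : Type) [CommRing O] [IsDomain O] [IsDiscreteValuationRing O]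
  [Algebra O L] [IsFractionRing O L]

/-- `α` is killed by the tame symbol of the discrete valuation ring `O`: for a uniformizer `π` this
is the additive map `d` with `d {u₁, …, uₙ} = 0` and `d {π, u₁, …, uₙ} = {ū₁, …, ūₙ}` for all `n`
and all units `uᵢ` of `O`. -/
def TameZero (α : KM L) : Prop :=
  ∀ (π : O) (πL : Lˣ), Irreducible π → (πL : L) = algebraMap O L π →
    ∃ d : KM L →+ KM (IsLocalRing.ResidueField O),
      (∀ u : List Oˣ, d (symb (u.map (Units.map (algebraMap O L : O →* L)))) = 0 ∧
        d (symb (πL :: u.map (Units.map (algebraMap O L : O →* L)))) =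
          symb (u.map (Units.map (IsLocalRing.residue O : O →* IsLocalRing.ResidueField O)))) ∧
      d α = 0

end Pool.Agent.P.MP_a9963e_ag
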