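import Mathlib
import Pool.Agent.P.MP_a9963e_ag.KDefs
import Pool.Agent.P.MP_a9963e_ag.Local

namespace Pool.Agent.P.MP_a9963e_ag

variable {L : Type} [Field L]

theorem sym_mul (a b : Lˣ) : sym (a * b) = sym a + sym b := by
  simp only [sym, ofMul_mul, map_add]
  rfl

theorem sym_one : sym (1 : Lˣ) = 0 := by
  simp only [sym, ofMul_one, map_zero]
  rfl

theorem sym_inv (a : Lˣ) : sym a⁻¹ = -sym a := by
  rw [eq_neg_iff_add_eq_zero, ← sym_mul, inv_mul_cancel, sym_one]

theorem sym_zpow (a : Lˣ) (k : ℤ) : sym (a ^ k) = k • sym a := by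
  simp only [sym, ofMul_zpow, map_zsmul]
  rfl

theorem sym_rel {a b : Lˣ} (h : (a : L) + b = 1 ∨ (a : L) + b = 0) : sym a * sym b = 0 := by
  have := RingQuot.mkRingHom_rel (r := Steinberg L) ⟨rfl, a, b, h, rfl⟩
  rw [map_mul, map_zero] at this
  exact this

theorem sym_neg_self (a : Lˣ) : sym a * sym (-a) = 0 := sym_rel (Or.inr (by simp))

theorem sym_neg (a : Lˣ) : sym (-a) = sym (-1) + sym a := by rw [← sym_mul, neg_one_mul]

theorem sym_two : sym (-1 : Lˣ) + sym (-1) = 0 := by rw [← sym_mul, neg_mul_neg, one_mul, sym_one]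

theorem sym_anti (a b : Lˣ) : sym a * sym b = -(sym b * sym a) := by
  have h := sym_neg_self (a * b)
  have h1 : sym (-(a * b)) = sym (-a) + sym b := by rw [← sym_mul, neg_mul]
  have h2 : sym (-(a * b)) = sym (-b) + sym a := by rw [← sym_mul, neg_mul, mul_comm]
  rw [sym_mul, add_mul] at h
  nth_rewrite 1 [h1] at h
  rw [h2, mul_add, mul_add, sym_neg_self, sym_neg_self, zero_add, zero_add] at h
  exact eq_neg_of_add_eq_zero_left h

theorem sym_self_two (a : Lˣ) : sym a * sym a + sym a * sym a = 0 := by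
  nth_rewrite 1 [sym_anti a a]
  exact neg_add_cancel _

@[simp] theorem symb_nil : symb ([] : List Lˣ) = 1 := rfl

@[simp] theorem symb_cons (a : Lˣ) (l : List Lˣ) : symb (a :: l) = sym a * symb l := by
  simp [symb]

theorem KM_lift {R : Type} [Ring R] (T : Lˣ → R) (hT : ∀ a b, T (a * b) = T a + T b)
    (hS : ∀ a b : Lˣ, ((a : L) + b = 1 ∨ (a : L) + b = 0) → T a * T b = 0) :
    ∃ θ : KM L →+* R, ∀ a, θ (sym a) = T a := by
  let T' : Additive Lˣ →+ R := AddMonoidHom.mk' (fun a => T a.toMul) fun a b => hT _ _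
  let g := (TensorAlgebra.lift ℤ T'.toIntLinearMap).toRingHom
  have hg : ∀ a, g (TensorAlgebra.ι ℤ (Additive.ofMul a)) = T a := fun a => by simp [g, T']
  refine ⟨RingQuot.lift ⟨g, ?_⟩, fun a => ?_⟩
  · rintro _ _ ⟨rfl, a, b, h, rfl⟩
    rw [map_mul, hg, hg, hS a b h, map_zero]
  · exact (RingQuot.lift_mkRingHom_apply g _ _).trans (hg a)

theorem KM_intCast {k : ℤ} (h : (k : KM L) = 0) : k = 0 := by
  obtain ⟨θ, -⟩ := KM_lift (L := L) (R := ℤ) (fun _ => 0) (by simp) (by simp)
  simpa using congrArg θ h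

/-- the subring generated by the symbols of units -/
noncomputable def UK {Γ : Type} [LinearOrderedCommGroupWithZero Γ] (v : Valuation L Γ) :
    Subring (KM L) := Subring.closure {x | ∃ u : Lˣ, v u = 1 ∧ x = sym u}

section val

variable {Γ : Type} [LinearOrderedCommGroupWithZero Γ] (v : Valuation L Γ)

theorem sym_mem {u : Lˣ} (hu : v u = 1) : sym u ∈ UK v := Subring.subset_closure ⟨u, hu, rfl⟩

theorem mem_UK_aux {z u : Lˣ} (hu : v u = 1) (h : v ((1 - (u : L)) / z) = 1) :
    sym z * sym u ∈ UK v := by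
  have h0 : (1 - (u : L)) / z ≠ 0 := by intro h0; simp [h0] at h
  have := sym_rel (a := z * Units.mk0 _ h0) (b := u) (Or.inl (by simp; field_simp; ring))
  rw [sym_mul, add_mul] at this
  rw [eq_neg_of_add_eq_zero_left this]
  exact neg_mem (mul_mem (sym_mem v h) (sym_mem v hu))

theorem mem_UK {z u : Lˣ} (hz : v z ≤ 1) (hu : v u = 1) (h : v ((1 - (u : L)) / z) ≤ 1) :
    sym z * sym u ∈ UK v := by
  rcases hz.eq_or_lt with hz | hz
  · exact mul_mem (sym_mem v hz) (sym_mem v hu)
  rcases h.eq_or_lt with h | h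
  · exact mem_UK_aux v hu h
  have h1 : v (1 - (z : L)) = 1 := v.map_one_sub_of_lt hz
  have h0 : 1 - (z : L) ≠ 0 := by intro h0; simp [h0] at h1
  have h2 := sym_rel (a := z) (b := Units.mk0 _ h0) (Or.inl (by simp))
  have h3 := mem_UK_aux v (z := z) (u := u * (Units.mk0 _ h0)⁻¹) (by simp [hu, h1]) (by
    have : (1 - ((u * (Units.mk0 _ h0)⁻¹ : Lˣ) : L)) / z = -(1 - (1 - (u : L)) / z) / (1 - z) := by
      simp; field_simp; ring
    rw [this, map_div₀, Valuation.map_neg, h1, v.map_one_sub_of_lt h, div_one])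
  rwa [sym_mul, sym_inv, mul_add, mul_neg, h2, neg_zero, add_zero] at h3

end val

section DVR

variable (O : Type) [CommRing O] [IsDomain O] [IsDiscreteValuationRing O]
  [Algebra O L] [IsFractionRing O L]

open IsLocalRing

theorem exists_unit_of_vv {y : Lˣ} (hy : vv L O y = 1) :
    ∃ u : Oˣ, y = Units.map (algebraMap O L : O →* L) u := by
  have : (y : L) ∈ MonoidHom.mker (vv L O) := hy
  rw [IsDiscreteValuationRing.mker_valuation_eq_isUnitSubmonoid] at this
  obtain ⟨_, ⟨u, rfl⟩, h⟩ := this
  exact ⟨u, Units.ext h.symm⟩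

variable {O}

omit [IsFractionRing O L] in
theorem res_eq {π : O} (hπ : Irreducible π) {πL : Lˣ} (h : (πL : L) = algebraMap O L π)
    {k m : ℤ} (hk : m ≤ k) : ∃ x : O, algebraMap O L x = (πL : L) ^ k * (πL : L) ^ (-m) ∧
      residue O x = if k = m then 1 else 0 := by
  obtain ⟨n, rfl⟩ := Int.le.dest hk
  refine ⟨π ^ n, ?_, ?_⟩
  · rw [← zpow_add₀ πL.ne_zero, map_pow, ← h, ← zpow_natCast]
    congr 1
    ring
  · have : residue O π = 0 := (residue_eq_zero_iff _).2 hπ.not_isUnit
    rw [map_pow, this]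
    cases n <;> simp
    omega

theorem exists_split {π : O} (hπ : Irreducible π) {πL : Lˣ} (h : (πL : L) = algebraMap O L π) :
    ∃ (k : Lˣ → ℤ) (u : Lˣ → Oˣ), (∀ f, f = πL ^ k f * Units.map (algebraMap O L : O →* L) (u f)) ∧
      ∀ (n : ℤ) (w : Oˣ), k (πL ^ n * Units.map (algebraMap O L : O →* L) w) = n ∧
        u (πL ^ n * Units.map (algebraMap O L : O →* L) w) = w := by
  have hi := IsFractionRing.injective O L
  have hex : ∀ f : Lˣ, ∃ (n : ℤ) (w : Oˣ), f = πL ^ n * Units.map (algebraMap O L : O →* L) w := by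
    intro f
    obtain ⟨n, w, e⟩ := IsDiscreteValuationRing.exists_units_eq_smul_zpow_of_irreducible hπ
      f.ne_zero
    exact ⟨n, w, Units.ext (by simp [e, h, Units.smul_def, Algebra.smul_def, mul_comm])⟩
  have hle : ∀ (n m : ℤ) (w w' : Oˣ), πL ^ n * Units.map (algebraMap O L : O →* L) w =
      πL ^ m * Units.map (algebraMap O L : O →* L) w' → m ≤ n → n = m := by
    intro n m w w' e hk
    obtain ⟨x, hx, hr⟩ := res_eq hπ h hk
    have e1 := congrArg Units.val e
    simp only [Units.val_mul, Units.val_zpow_eq_zpow_val, Units.coe_map, MonoidHom.coe_coe] at e1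
    have : x * w = w' := hi (by
      rw [map_mul, hx, mul_right_comm, e1, mul_right_comm, ← zpow_add₀ πL.ne_zero]; simp)
    by_contra hne
    have := congrArg (residue O) this
    rw [map_mul, hr, if_neg hne, zero_mul] at this
    exact (w'.isUnit.map (residue O)).ne_zero this.symm
  choose k u hku using hex
  refine ⟨k, u, hku, fun n w => ?_⟩
  have e := hku (πL ^ n * Units.map (algebraMap O L : O →* L) w)
  have hn : k (πL ^ n * Units.map (algebraMap O L : O →* L) w) = n := by
    rcases le_total n (k (πL ^ n * Units.map (algebraMap O L : O →* L) w)) with h1 | h1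
    · exact hle _ _ _ _ e.symm h1
    · exact (hle _ _ _ _ e h1).symm
  refine ⟨hn, ?_⟩
  rw [hn] at e
  exact (Units.map_injective hi (mul_left_cancel e)).symm

theorem res_cases {π : O} (hπ : Irreducible π) {πL : Lˣ} (h : (πL : L) = algebraMap O L π)
    {k k' : ℤ} {u w : Oˣ} {δ : L} (hδ : δ = 1 ∨ δ = 0)
    (e : ((πL ^ k * Units.map (algebraMap O L : O →* L) u : Lˣ) : L) +
      (πL ^ k' * Units.map (algebraMap O L : O →* L) w : Lˣ) = δ) :
    (k = 0 ∧ residue O u = 1) ∨ (k' = 0 ∧ residue O w = 1) ∨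
      (k = 0 ∧ k' = 0 ∧ residue O u + residue O w = 1) ∨
      (k = k' ∧ residue O u + residue O w = 0) := by
  have hi := IsFractionRing.injective O L
  have hu := (u.isUnit.map (residue O)).ne_zero
  have hw := (w.isUnit.map (residue O)).ne_zero
  simp only [Units.val_mul, Units.val_zpow_eq_zpow_val, Units.coe_map, MonoidHom.coe_coe] at e
  rcases hδ with rfl | rfl
  · obtain ⟨x, hx, rx⟩ := res_eq hπ h (k := k) (m := min (min k k') 0) (by omega)
    obtain ⟨y, hy, ry⟩ := res_eq hπ h (k := k') (m := min (min k k') 0) (by omega)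
    obtain ⟨z, hz, rz⟩ := res_eq hπ h (k := 0) (m := min (min k k') 0) (by omega)
    have : x * u + y * w = z := hi (by
      rw [map_add, map_mul, map_mul, hx, hy, hz, zpow_zero, ← e]; ring)
    have := congrArg (residue O) this
    rw [map_add, map_mul, map_mul, rx, ry, rz] at this
    split_ifs at this with h1 h2 h3 h3 h2 h3 h3
    · exact Or.inr (Or.inr (Or.inl ⟨by omega, by omega, by simpa using this⟩))
    · exact Or.inr (Or.inr (Or.inr ⟨by omega, by simpa using this⟩))
    · exact Or.inl ⟨by omega, by simpa using this⟩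
    · simp [hu] at this
    · exact Or.inr (Or.inl ⟨by omega, by simpa using this⟩)
    · simp [hw] at this
    · simp at this
    · omega
  · obtain ⟨x, hx, rx⟩ := res_eq hπ h (k := k) (m := min k k') (by omega)
    obtain ⟨y, hy, ry⟩ := res_eq hπ h (k := k') (m := min k k') (by omega)
    have : x * u + y * w = 0 := hi (by
      rw [map_add, map_mul, map_mul, hx, hy, map_zero]
      linear_combination (πL : L) ^ (-min k k') * e)
    have := congrArg (residue O) this
    rw [map_add, map_mul, map_mul, rx, ry, map_zero] at this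
    split_ifs at this with h1 h2 h2
    · exact Or.inr (Or.inr (Or.inr ⟨by omega, by simpa using this⟩))
    · simp [hu] at this
    · simp [hw] at this
    · omega

/-- the matrix by which `π ^ k * u` acts -/
noncomputable def tm {κ : Type} [Field κ] (k : ℤ) (u : κˣ) : Matrix (Fin 2) (Fin 2) (KM κ) :=
  !![sym u, 0; k, -sym u + k • sym (-1)]

theorem tm_mul {κ : Type} [Field κ] {k k' : ℤ} {u w : κˣ} (h1 : sym u * sym w = 0)
    (h2 : k • sym w - k' • sym u + (k * k') • sym (-1 : κˣ) = 0) : tm k u * tm k' w = 0 := by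
  have e2 : ∀ x : KM κ, -(sym (-1 : κˣ) * x) = sym (-1 : κˣ) * x := fun x => by
    rw [neg_eq_iff_add_eq_zero, ← add_mul, sym_two, zero_mul]
  have h3 := congrArg (sym (-1 : κˣ) * ·) h2
  simp only [mul_add, mul_sub, mul_smul_comm, mul_zero] at h3
  have a1 : (k : KM κ) * sym w + (-sym u + k • sym (-1)) * (k' : KM κ) = 0 := by
    rw [← h2, ← Int.cast_comm, ← zsmul_eq_mul, ← zsmul_eq_mul, smul_add, smul_smul, smul_neg,
      mul_comm k' k]
    abel
  have a2 : (-sym u + k • sym (-1)) * (-sym w + k' • sym (-1)) = 0 := by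
    have b1 : -sym u * sym (-1) = -(sym (-1) * sym u) := by rw [neg_mul, sym_anti u, neg_neg, e2]
    have b2 : sym (-1) * -sym w = sym (-1) * sym w := by rw [mul_neg, e2]
    rw [add_mul, mul_add, mul_add, neg_mul_neg, h1, mul_smul_comm, b1, smul_mul_assoc, b2,
      smul_mul_smul_comm, zero_add, ← h3, smul_neg]
    abel
  rw [tm, tm, Matrix.mul_fin_two, a1, h1, mul_zero, mul_zero, zero_mul, zero_mul, zero_add, zero_add,
    a2]
  ext i j
  fin_cases i <;> fin_cases j <;> rfl

/-- existence of the tame symbol -/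
theorem exists_tame {π : O} (hπ : Irreducible π) {πL : Lˣ} (h : (πL : L) = algebraMap O L π) :
    ∃ θ : KM L →+* Matrix (Fin 2) (Fin 2) (KM (ResidueField O)), ∀ (n : ℤ) (w : Oˣ),
      θ (sym (πL ^ n * Units.map (algebraMap O L : O →* L) w)) =
        tm n (Units.map (residue O : O →* ResidueField O) w) := by
  obtain ⟨k, u, h1, h2⟩ := exists_split hπ h
  obtain ⟨θ, hθ⟩ := KM_lift (fun f => tm (k f) (Units.map (residue O : O →* ResidueField O) (u f)))
    (fun a b => by
      have e : a * b = πL ^ (k a + k b) * Units.map (algebraMap O L : O →* L) (u a * u b) := by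
        nth_rewrite 1 [h1 a, h1 b]
        rw [zpow_add, map_mul, mul_mul_mul_comm]
      rw [e, (h2 _ _).1, (h2 _ _).2, map_mul]
      ext i j
      fin_cases i <;> fin_cases j <;> simp [tm, sym_mul, add_mul]
      abel)
    (fun a b hab => by
      have hab' : ((a : L) + b = 1 ∨ (a : L) + b = 0) := hab
      have e : ((πL ^ k a * Units.map (algebraMap O L : O →* L) (u a) : Lˣ) : L) +
          (πL ^ k b * Units.map (algebraMap O L : O →* L) (u b) : Lˣ) = (a : L) + b := by
        rw [← h1, ← h1]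
      rcases res_cases hπ h hab' e with ⟨h3, h4⟩ | ⟨h3, h4⟩ | ⟨h3, h4, h5⟩ | ⟨h3, h4⟩
      · have : Units.map (residue O : O →* ResidueField O) (u a) = 1 := Units.ext h4
        exact tm_mul (by rw [this, sym_one, zero_mul]) (by simp [this, h3, sym_one])
      · have : Units.map (residue O : O →* ResidueField O) (u b) = 1 := Units.ext h4
        exact tm_mul (by rw [this, sym_one, mul_zero]) (by simp [this, h3, sym_one])
      · exact tm_mul (sym_rel (Or.inl h5)) (by simp [h3, h4])
      · refine tm_mul (sym_rel (Or.inr h4)) ?_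
        have : Units.map (residue O : O →* ResidueField O) (u b) =
            -Units.map (residue O : O →* ResidueField O) (u a) :=
          Units.ext (eq_neg_of_add_eq_zero_right h4)
        obtain ⟨r, hr⟩ := Int.even_mul_succ_self (k b)
        rw [this, sym_neg, h3, smul_add, add_sub_cancel_right, ← add_smul,
          show k b + k b * k b = r + r by linear_combination hr, add_smul, ← smul_add, sym_two,
          smul_zero])
  exact ⟨θ, fun n w => by rw [hθ, (h2 _ _).1, (h2 _ _).2]⟩

variable (O)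

theorem tameZero_of_mem {α : KM L} (hα : α ∈ UK (vv L O)) : TameZero O α := by
  intro π πL hπ h
  obtain ⟨θ, hθ⟩ := exists_tame hπ h
  have hu : ∀ w : Oˣ, θ (sym (Units.map (algebraMap O L : O →* L) w)) =
      tm 0 (Units.map (residue O : O →* ResidueField O) w) := fun w => by simpa using hθ 0 w
  have hp : θ (sym πL) = tm 1 1 := by simpa using hθ 1 1
  have hl : ∀ u : List Oˣ, θ (symb (u.map (Units.map (algebraMap O L : O →* L)))) 1 0 = 0 ∧
      θ (symb (u.map (Units.map (algebraMap O L : O →* L)))) 0 0 =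
        symb (u.map (Units.map (residue O : O →* ResidueField O))) := by
    intro u
    induction u with
    | nil => simp
    | cons a u ih => simp [hu, tm, Matrix.mul_apply, Fin.sum_univ_two, ih]
  refine ⟨AddMonoidHom.mk' (fun x => θ x 1 0) fun x y => by simp, fun u => ⟨(hl u).1, ?_⟩, ?_⟩
  · simp [hp, tm, Matrix.mul_apply, Fin.sum_univ_two, hl u]
  · change θ α 1 0 = 0
    induction hα using Subring.closure_induction with
    | mem x hx =>
      obtain ⟨u, h1, rfl⟩ := hx
      obtain ⟨w, rfl⟩ := exists_unit_of_vv O h1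
      simp [hu, tm]
    | zero => simp
    | one => simp
    | add x y _ _ hx hy => simp [hx, hy]
    | neg x _ hx => simp [hx]
    | mul x y _ _ hx hy => simp [Matrix.mul_apply, Fin.sum_univ_two, hx, hy]

theorem vv_of_tameZero {f : Lˣ} (hf : TameZero O (sym f)) : vv L O f = 1 := by
  obtain ⟨π, hπ⟩ := IsDiscreteValuationRing.exists_irreducible O
  have h0 : algebraMap O L π ≠ 0 :=
    (map_ne_zero_iff _ (IsFractionRing.injective O L)).2 hπ.ne_zero
  obtain ⟨d, hd, h⟩ := hf π (Units.mk0 _ h0) hπ rfl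
  obtain ⟨k, u, h1, -⟩ := exists_split hπ (πL := Units.mk0 _ h0) rfl
  have e1 := (hd [u f]).1
  have e2 := (hd []).2
  simp only [List.map_cons, List.map_nil, symb_cons, symb_nil, mul_one] at e1 e2
  rw [h1 f, sym_mul, sym_zpow, map_add, map_zsmul, e1, e2, add_zero, zsmul_one] at h
  rw [h1 f, KM_intCast h, zpow_zero, one_mul]
  change vv L O (algebraMap O L (u f)) = 1
  rw [IsDedekindDomain.HeightOneSpectrum.valuation_eq_one_iff_notMem]
  exact fun h => h (u f).isUnit

end DVR

end Pool.Agent.P.MP_a9963e_ag
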