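import Mathlib
import Pool.Agent.P.MP_a9963e_ag.Local

/-! The second residue lowers the fundamental filtration by one. -/

namespace Pool.Agent.P.MP_a9963e_ag

variable {S L κ : Type} [CommRing S] [IsDomain S] [WfDvdMonoid S] [Field L] [Field κ] {π : S}
  {φ : S →+* L} {ψ : S →+* κ} {d0 d1 : Witt L →+ Witt κ}

/-- the two residue maps -/
structure IsRes (π : S) (φ : S →+* L) (ψ : S →+* κ) (d0 d1 : Witt L →+ Witt κ) : Prop where
  prime : Prime π
  inj : Function.Injective φ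
  surj : FracSurj φ
  ker : ∀ a, ψ a = 0 ↔ π ∣ a
  eq : ∀ a : S, ¬ π ∣ a → d0 (wf (φ a)) = wf (ψ a) ∧ d0 (wf (φ (π * a))) = 0 ∧
      d1 (wf (φ a)) = 0 ∧ d1 (wf (φ (π * a))) = wf (ψ a)

theorem pf_mem (f : Lˣ) : pf f ∈ fund L := Ideal.subset_span ⟨1, -f, rfl⟩

theorem pf_eq (f : Lˣ) : pf f = 1 - wf (f : L) := by
  rw [pf, ← wf_units, ← wf_units, Units.val_neg, wf_neg, Units.val_one, wf_one, sub_eq_add_neg]

theorem two_mem : (2 : Witt L) ∈ fund L :=
  Ideal.subset_span ⟨1, 1, by rw [form_one, one_add_one_eq_two]⟩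

namespace IsRes

variable (h : IsRes π φ ψ d0 d1)
include h

theorem mul (x y : Witt L) : d0 (x * y) = d0 x * d0 y + d1 x * d1 y ∧
    d1 (x * y) = d0 x * d1 y + d1 x * d0 y := by
  have hπ0 : φ π ≠ 0 := (map_ne_zero_iff φ h.inj).2 h.prime.ne_zero
  have hmul : ∀ {a b : S}, ¬ π ∣ a → ¬ π ∣ b → ¬ π ∣ a * b := fun ha hb h1 =>
    (h.prime.dvd_or_dvd h1).elim ha hb
  let N : Witt L → AddSubgroup (Witt L) := fun x =>
    { carrier := {y | d0 (x * y) = d0 x * d0 y + d1 x * d1 y ∧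
        d1 (x * y) = d0 x * d1 y + d1 x * d0 y}
      add_mem' := fun {a b} ha hb => by
        simp only [Set.mem_ofPred_eq, mul_add, map_add, ha.1, ha.2, hb.1, hb.2]
        constructor <;> ring
      zero_mem' := by simp
      neg_mem' := fun {a} ha => by
        simp only [Set.mem_ofPred_eq, mul_neg, map_neg, ha.1, ha.2]
        constructor <;> ring }
  have hs : ∀ x y, y ∈ N x → x ∈ N y := fun x y h1 => by
    refine ⟨?_, ?_⟩
    · rw [mul_comm y x, h1.1]; ring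
    · rw [mul_comm y x, h1.2]; ring
  have k1 : ∀ a b, ¬ π ∣ a → ¬ π ∣ b → wf (φ b) ∈ N (wf (φ a)) ∧ wf (φ (π * b)) ∈ N (wf (φ a)) ∧
      wf (φ (π * b)) ∈ N (wf (φ (π * a))) := fun a b ha hb => by
    obtain ⟨a1, a2, a3, a4⟩ := h.eq a ha
    obtain ⟨b1, b2, b3, b4⟩ := h.eq b hb
    obtain ⟨c1, c2, c3, c4⟩ := h.eq _ (hmul ha hb)
    have e1 : wf (φ a) * wf (φ b) = wf (φ (a * b)) := by rw [← wf_mul, map_mul]
    have e2 : wf (φ a) * wf (φ (π * b)) = wf (φ (π * (a * b))) := by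
      rw [← wf_mul, ← map_mul, mul_left_comm]
    have e3 : wf (φ (π * a)) * wf (φ (π * b)) = wf (φ (a * b)) := by
      rw [← wf_mul, ← wf_mul_sq (φ (a * b)) hπ0]
      simp only [map_mul]
      congr 1
      ring
    rw [map_mul ψ, wf_mul] at c1 c4
    refine ⟨⟨?_, ?_⟩, ⟨?_, ?_⟩, ?_, ?_⟩ <;>
      simp only [e1, e2, e3, a1, a2, a3, a4, b1, b2, b3, b4, c1, c2, c3, c4, mul_zero, zero_mul,
        add_zero, zero_add]
  refine witt_mem_prime h.prime h.inj h.surj (N x) (fun b hb => ⟨hs _ _ ?_, hs _ _ ?_⟩) y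
  · exact witt_mem_prime h.prime h.inj h.surj _
      (fun a ha => ⟨(k1 b a hb ha).1, (k1 b a hb ha).2.1⟩) x
  · exact witt_mem_prime h.prime h.inj h.surj _
      (fun a ha => ⟨hs _ _ (k1 a b ha hb).2.1, (k1 b a hb ha).2.2⟩) x

theorem sp_mul (x y : Witt L) : d0 (x * y) + d1 (x * y) = (d0 x + d1 x) * (d0 y + d1 y) := by
  rw [(h.mul x y).1, (h.mul x y).2]; ring

theorem sp_form (a : Lˣ) : ∃ b : κˣ, d0 (form a) + d1 (form a) = form b := by
  have hπ0 : φ π ≠ 0 := (map_ne_zero_iff φ h.inj).2 h.prime.ne_zero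
  obtain ⟨f, g, hg, e⟩ := h.surj a
  have h0 : f * g ≠ 0 := fun h1 => by
    have := congrArg φ h1
    rw [map_mul, ← e, map_zero] at this
    exact mul_ne_zero (mul_ne_zero a.ne_zero hg) hg this
  obtain ⟨n, c, hc, e1⟩ := exists_pow_factor h.prime h0
  refine ⟨Units.mk0 (ψ c) ((h.ker c).not.2 hc), ?_⟩
  rw [← wf_units, ← wf_units, wf_frac hg e, e1, map_mul, map_pow, Units.val_mk0]
  rcases Nat.even_or_odd n with hn | hn
  · rw [wf_pow_even hπ0 hn, (h.eq c hc).1, (h.eq c hc).2.2.1, add_zero]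
  · rw [wf_pow_odd hπ0 hn, ← map_mul, (h.eq c hc).2.1, (h.eq c hc).2.2.2, zero_add]

theorem sp_fund {x : Witt L} (hx : x ∈ fund L) : d0 x + d1 x ∈ fund κ := by
  induction hx using Submodule.span_induction with
  | mem x hx =>
    obtain ⟨a, b, rfl⟩ := hx
    obtain ⟨a', ha⟩ := h.sp_form a
    obtain ⟨b', hb⟩ := h.sp_form b
    exact Ideal.subset_span ⟨a', b', by rw [map_add, map_add, add_add_add_comm, ha, hb]⟩
  | zero => simp
  | add x y _ _ hx hy => rw [map_add, map_add, add_add_add_comm]; exact add_mem hx hy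
  | smul r x _ hx => rw [smul_eq_mul, h.sp_mul]; exact Ideal.mul_mem_left _ _ hx

theorem pow_aux (k : ℕ) : ∀ x ∈ fund L ^ k, d0 x + d1 x ∈ fund κ ^ k ∧ d1 x ∈ fund κ ^ (k - 1) := by
  induction k with
  | zero => simp
  | succ k ih =>
    have hle : fund κ * fund κ ^ (k - 1) ≤ fund κ ^ k := by
      cases k with
      | zero => simp
      | succ k => rw [pow_succ']; simp
    intro x hx
    rw [pow_succ'] at hx
    refine Submodule.mul_induction_on hx (fun x hx y hy => ⟨?_, ?_⟩) fun x y hx hy => ⟨?_, ?_⟩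
    · rw [h.sp_mul, pow_succ']
      exact Ideal.mul_mem_mul (h.sp_fund hx) (ih y hy).1
    · have e : d1 (x * y) = (d0 x + d1 x) * d1 y + d1 x * (d0 y + d1 y) - d1 x * (2 * d1 y) := by
        rw [(h.mul x y).2]; ring
      rw [e, Nat.add_sub_cancel]
      exact sub_mem (add_mem (hle (Ideal.mul_mem_mul (h.sp_fund hx) (ih y hy).2))
        (Ideal.mul_mem_left _ _ (ih y hy).1))
        (Ideal.mul_mem_left _ _ (hle (Ideal.mul_mem_mul two_mem (ih y hy).2)))
    · rw [map_add, map_add, add_add_add_comm]; exact add_mem hx.1 hy.1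
    · rw [map_add]; exact add_mem hx.2 hy.2

theorem pow {k : ℕ} {x : Witt L} (hx : x ∈ fund L ^ (k + 1)) : d1 x ∈ fund κ ^ k :=
  (h.pow_aux (k + 1) x hx).2

omit [IsDomain S] [WfDvdMonoid S] in
theorem one : d0 1 = 1 ∧ d1 1 = 0 := by
  have := h.eq 1 h.prime.not_dvd_one
  simp only [map_one, wf_one] at this
  exact ⟨this.1, this.2.2.1⟩

theorem prod {ι : Type} (s : Finset ι) {x : ι → Witt L} {y : ι → Witt κ}
    (hx : ∀ i, d0 (x i) = y i ∧ d1 (x i) = 0) :
    d0 (∏ i ∈ s, x i) = ∏ i ∈ s, y i ∧ d1 (∏ i ∈ s, x i) = 0 := by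
  classical
  induction s using Finset.induction_on with
  | empty => simpa using h.one
  | insert i s hi ih =>
    rw [Finset.prod_insert hi, Finset.prod_insert hi, (h.mul _ _).1, (h.mul _ _).2, ih.1, ih.2,
      (hx i).1, (hx i).2]
    simp

end IsRes

end Pool.Agent.P.MP_a9963e_ag
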