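import Mathlib
import Pool.Agent.P.MP_a9963e_ag.KBasic
import Pool.Agent.P.MP_a9963e_ag.KRes
import Pool.Agent.P.MP_a9963e_ag.Main

/-! Counterexamples in all degrees from two on. -/

namespace Pool.Agent.P.MP_a9963e_ag

open Polynomial

/-- `α` is a combination of symbols of units at every valuation with a centre -/
def Good (A L : Type) [CommRing A] [Field L] [Algebra A L] (α : KM L) : Prop :=
  ∀ v : Valuation L (WithZero (Multiplicative ℤ)), (∀ x : A, v (algebraMap A L x) ≤ 1) → α ∈ UK v

/-- no unramified form is congruent to `φ` -/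
def Bad (A L : Type) [CommRing A] [IsDomain A] [Field L] [Algebra A L] [IsFractionRing A L]
    (φ : Witt L) (k : ℕ) : Prop :=
  ∀ q : Witt L, (∀ (P : Ideal A) [P.IsPrime] [IsDiscreteValuationRing (locAt A L P)],
    ResidueZero (locAt A L P) q) → q - φ ∉ fund L ^ k

/-- a counterexample in degree `n` -/
def Ex (F : Type) [Field F] (n : ℕ) : Prop :=
  ∃ (A L : Type) (_ : CommRing A) (_ : IsDomain A) (_ : Algebra F A) (_ : Field L)
    (_ : Algebra A L) (_ : IsFractionRing A L), Algebra.Smooth F A ∧
    ∃ (m : ℕ) (f : Fin m → Fin n → Lˣ), Good A L (∑ i, symb (List.ofFn (f i))) ∧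
      Bad A L (∑ i, ∏ j, pf (f i j)) (n + 1)

section base

variable {F L : Type} [Field F] [Field L] [Algebra F L] {a s b c : Lˣ}
  (hx : Coord F ![(a : L), s, b, c])
include hx

theorem Coord.good : Good (Glue F (a : L) s b c) L (sym a * sym s + sym b * sym c) := by
  intro v hv'
  have hv : ∀ {x : L}, x ∈ Glue F (a : L) s b c → v x ≤ 1 := fun h => hv' ⟨_, h⟩
  obtain ⟨m0, m1, m2, m3, m4, m5, m6, m7, m8, m9, m10, m11⟩ := hx.A_mem
  have hc : v c = 1 := by
    refine le_antisymm (hv m2) ?_
    have := hv m3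
    rwa [map_inv₀, inv_le_one₀ (by simp [zero_lt_iff])] at this
  have h : v s = 1 ∨ v (s / a ^ 2) = 1 := by
    by_contra h
    push Not at h
    have h1 := lt_of_le_of_ne (hv m0) h.1
    have h2 := lt_of_le_of_ne (hv m1) h.2
    have := v.map_add_lt
      (x := (1 - s / a ^ 2 * c) ^ 2 / s * s)
      (y := (2 * (1 - s / a ^ 2 * c) * c + s / a ^ 2 * c ^ 2) * (s / a ^ 2))
      (by rw [map_mul]; exact mul_lt_one_of_nonneg_of_lt_one_right (hv m11) zero_le h1)
      (by
        rw [map_mul]
        exact mul_lt_one_of_nonneg_of_lt_one_right (hv hx.unit_ideal.2) zero_le h2)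
    rw [hx.unit_ideal.1, map_one] at this
    exact lt_irrefl _ this
  rcases h with hs | ht
  · have h1 := mem_UK v (u := s) (z := a⁻¹) (by
      have := hv m4
      rwa [div_eq_mul_inv, map_mul, hs, one_mul, ← Units.val_inv_eq_inv_val] at this) hs
      (by simpa using hv m5)
    have h2 := mem_UK v (u := c) (z := b * s⁻¹) (by simpa [hs] using hv m6) hc (by
      convert hv m7 using 2
      simp; field_simp)
    have h3 := add_mem (add_mem (neg_mem h1) h2) (mul_mem (sym_mem v hs) (sym_mem v hc))
    convert h3 using 1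
    simp only [sym_mul, sym_inv, add_mul, neg_mul, neg_neg]
    abel
  · have hw : v (s * (a * a)⁻¹ : Lˣ) = 1 := by
      convert ht using 2; simp; field_simp
    have h1 := mem_UK v (u := s * (a * a)⁻¹ * c) (z := a) (by
      have := hv m4
      rw [show (s : L) / a = s / a ^ 2 * a by field_simp, map_mul, ht, one_mul] at this
      exact this) (by rw [Units.val_mul, map_mul, hw, hc, one_mul]) (by
      convert hv m8 using 2
      simp; field_simp)
    have h2 := mem_UK v (u := c) (z := b * a * s⁻¹) (by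
      have := hv m9
      rw [show (b : L) / a = s / a ^ 2 * (b * a * s⁻¹ : Lˣ) by simp; field_simp, map_mul, ht,
        one_mul] at this
      exact this) hc (by
      convert hv m10 using 2
      simp; field_simp)
    have h3 := add_mem (add_mem h1 h2) (mul_mem (sym_mem v hw) (sym_mem v hc))
    convert h3 using 1
    simp only [sym_mul, sym_inv, add_mul, mul_add, neg_mul, mul_neg, sym_self_two]
    abel

theorem Coord.bad (h2 : (2 : F) ≠ 0) [IsFractionRing (Glue F (a : L) s b c) L] :
    Bad (Glue F (a : L) s b c) L (pf a * pf s + pf b * pf c) 3 := by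
  intro q hq h3
  obtain ⟨v, hv, v1, hd⟩ := hx.obstruction h2
  obtain ⟨d, hd'⟩ := hv.exists_fun (two_ne_zero_of_hom (IsUnit.mk0 _ h2) (algebraMap F L))
    (fun w => w 0 * w 1)
  have h0 := hv.kill_cube 0 1 hd' h3
  rw [map_sub, hd d hd' q hq, zero_sub, neg_eq_zero] at h0
  have va := v1 0
  have vs := v1 1
  have vb := v1 2
  have vc := v1 3
  simp only [Matrix.cons_val_zero, Matrix.cons_val_one, Matrix.cons_val] at va vs vb vc
  simp only [pf, mul_add, add_mul, map_add, ← form_mul] at h0
  simp only [← wf_units, hd' _ (Units.ne_zero _)] at h0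
  simp only [Units.val_mul, Units.val_neg, Units.val_one, mul_one, one_mul, neg_mul_neg, hv.neg,
    hv.one, hv.mul _ _ (Units.ne_zero _) (Units.ne_zero _), va, vs, vb, vc] at h0
  revert h0
  decide

end base

theorem ex_two {F : Type} [Field F] (h2 : (2 : F) ≠ 0) : Ex F 2 := by
  let L := FractionRing (S4 F)
  have hc := coord_X F
  let x : Fin 4 → Lˣ := fun i => Units.mk0 _ (hc.ne_zero_X i)
  have hx : Coord F ![(x 0 : L), x 1, x 2, x 3] := by
    convert hc using 1
    ext i
    fin_cases i <;> rfl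
  have := hx.frac_A
  refine ⟨Glue F (x 0 : L) (x 1) (x 2) (x 3), L, inferInstance, inferInstance, inferInstance,
    inferInstance, inferInstance, this, hx.smooth_A, 2, ![![x 0, x 1], ![x 2, x 3]], ?_, ?_⟩
  · simpa using hx.good
  · simpa using hx.bad h2

theorem exists_kmap {L L' : Type} [Field L] [Field L'] (j : L →+* L') :
    ∃ θ : KM L →+* KM L', ∀ a, θ (sym a) = sym (Units.map (j : L →* L') a) :=
  KM_lift _ (fun a b => by rw [map_mul, sym_mul]) fun a b h => sym_rel (by
    simp only [Units.coe_map, MonoidHom.coe_coe, ← map_add]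
    exact h.imp (fun h => by rw [h, map_one]) fun h => by rw [h, map_zero])

section step

variable {A L L' A' : Type} [CommRing A] [IsDomain A] [Field L] [Algebra A L] [IsFractionRing A L]
  [CommRing A'] [IsDomain A'] [Field L'] [Algebra A' L'] [IsFractionRing A' L']
  [Algebra A[X] A'] [IsLocalization.Away (X : A[X]) A'] {j : L →+* L'} {t : L'ˣ}
  (hj : ∀ a : A, j (algebraMap A L a) = algebraMap A' L' (algebraMap A[X] A' (C a)))
  (ht : (t : L') = algebraMap A' L' (algebraMap A[X] A' X))

include hj ht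

omit [IsDomain A] [IsFractionRing A L] [IsDomain A'] [IsFractionRing A' L'] in
theorem good_step {m n : ℕ} {f : Fin m → Fin n → Lˣ} (h : Good A L (∑ i, symb (List.ofFn (f i)))) :
    Good A' L' (∑ i, symb (List.ofFn (Fin.cons t (fun k => Units.map (j : L →* L') (f i k)) :
      Fin (n + 1) → L'ˣ))) := by
  intro v hv
  obtain ⟨θ, hθ⟩ := exists_kmap j
  have hl : ∀ l : List Lˣ, θ (symb l) = symb (l.map (Units.map (j : L →* L'))) := fun l => by
    induction l with
    | nil => simp
    | cons a l ih => simp [hθ, ih]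
  have h1 := h (v.comap j) fun x => by rw [Valuation.comap_apply, hj]; exact hv _
  have h2 : UK (v.comap j) ≤ (UK v).comap θ := by
    rw [UK, Subring.closure_le]
    rintro _ ⟨u, hu, rfl⟩
    change θ _ ∈ UK v
    rw [hθ]
    exact sym_mem v hu
  have h3 : v t = 1 := by
    obtain ⟨u, hu⟩ := IsLocalization.Away.algebraMap_isUnit (S := A') (X : A[X])
    have h4 := hv ↑u⁻¹
    rw [ht, ← hu]
    refine le_antisymm (hv _) ?_
    have h5 : v (algebraMap A' L' u) * v (algebraMap A' L' ↑u⁻¹) = 1 := by
      rw [← map_mul, ← map_mul, Units.mul_inv, map_one, map_one]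
    rw [← h5]
    exact mul_le_of_le_one_right' h4
  have h6 : sym t * θ (∑ i, symb (List.ofFn (f i))) ∈ UK v := mul_mem (sym_mem v h3) (h2 h1)
  have h7 : sym t * ∑ i, θ (symb (List.ofFn (f i))) = ∑ i, sym t * θ (symb (List.ofFn (f i))) :=
    Finset.mul_sum _ _ _
  rw [map_sum, h7] at h6
  convert h6 using 2 with i
  rw [List.ofFn_succ, symb_cons, hl, List.map_ofFn]
  rfl

omit [IsDomain A] [IsFractionRing A L] [IsDomain A'] [IsFractionRing A' L']
  [IsLocalization.Away (X : A[X]) A'] in
theorem ring_step {R : Type} [CommRing R] (i : A →+* R) (ρ : R →+* L)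
    (hρ : ∀ a, ρ (i a) = algebraMap A L a) (p : A[X]) :
    eval₂RingHom (j.comp ρ) (t : L') (p.map i) = algebraMap A' L' (algebraMap A[X] A' p) := by
  have : (eval₂RingHom (j.comp ρ) (t : L')).comp (mapRingHom i) =
      (algebraMap A' L').comp (algebraMap A[X] A') := by
    apply Polynomial.ringHom_ext
    · intro a; simp [hρ, hj]
    · simp [ht]
  exact RingHom.congr_fun this p

omit [IsDomain A] [IsFractionRing A L] [IsDomain A'] [IsFractionRing A' L'] in
theorem surj_step {R : Type} [CommRing R] (i : A →+* R) (ρ : R →+* L)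
    (hρ : ∀ a, ρ (i a) = algebraMap A L a) (x : A') : ∃ (p : R[X]) (n : ℕ),
      algebraMap A' L' x * eval₂RingHom (j.comp ρ) (t : L') (X ^ n) =
        eval₂RingHom (j.comp ρ) (t : L') p := by
  obtain ⟨n, p, h⟩ := IsLocalization.Away.surj (X : A[X]) x
  refine ⟨p.map i, n, ?_⟩
  rw [ring_step hj ht i ρ hρ, ← h, map_mul, map_pow, map_pow, ← ht]
  simp

omit [IsDomain A] [IsFractionRing A L] in
theorem frac_step {R : Type} [CommRing R] (i : A →+* R) (ρ : R →+* L)
    (hρ : ∀ a, ρ (i a) = algebraMap A L a) : FracSurj (eval₂RingHom (j.comp ρ) (t : L')) := by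
  intro x
  obtain ⟨a, b, hb, h⟩ := fracSurj_algebraMap A' L' x
  obtain ⟨p, n, hp⟩ := surj_step hj ht i ρ hρ a
  obtain ⟨q, k, hq⟩ := surj_step hj ht i ρ hρ b
  have h0 : ∀ n, eval₂RingHom (j.comp ρ) (t : L') (X ^ n : R[X]) ≠ 0 := fun n => by simp
  refine ⟨p * X ^ k, q * X ^ n, ?_, ?_⟩
  · rw [map_mul, ← hq]
    exact mul_ne_zero (mul_ne_zero hb (h0 k)) (h0 n)
  · rw [map_mul, map_mul, ← hp, ← hq, ← h]
    ring

omit [IsDomain A'] in
theorem inj_step : Function.Injective (eval₂RingHom (j.comp (RingHom.id L)) (t : L')) := by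
  rw [injective_iff_map_eq_zero]
  intro f hf
  obtain ⟨r, f', hr, h⟩ := clear_denom (fracSurj_algebraMap A L) f
  have h1 := ring_step hj ht (algebraMap A L) (RingHom.id L) (fun _ => rfl) f'
  rw [h, map_mul, hf, mul_zero, eq_comm, map_eq_zero_iff _ (IsFractionRing.injective A' L'),
    map_eq_zero_iff _ (IsLocalization.injective A'
      (powers_le_nonZeroDivisors_of_noZeroDivisors (X_ne_zero (R := A))))] at h1
  rw [h1, Polynomial.map_zero] at h
  exact (mul_eq_zero.1 h.symm).resolve_left (by simpa using hr)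

theorem bad_step (h2 : IsUnit (2 : A)) {m n : ℕ} {f : Fin m → Fin n → Lˣ}
    (h : Bad A L (∑ i, ∏ k, pf (f i k)) (n + 1)) :
    Bad A' L' (∑ i, ∏ k, pf ((Fin.cons t (fun k => Units.map (j : L →* L') (f i k)) :
      Fin (n + 1) → L'ˣ) k)) (n + 1 + 1) := by
  intro q hq hmem
  have hi := inj_step hj ht
  have hs := frac_step hj ht (algebraMap A L) (RingHom.id L) fun _ => rfl
  have hL' : (2 : L') ≠ 0 := two_ne_zero_of_hom h2 (j.comp (algebraMap A L))
  have hk : ∀ a : L[X], evalRingHom 0 a = 0 ↔ X ∣ a := fun a => by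
    simp [X_dvd_iff, coeff_zero_eq_eval_zero]
  obtain ⟨d0, d1, hd⟩ := exists_res hL' (prime_X (R := L)) hi hs (evalRingHom 0) hk
  have hr : IsRes X _ (evalRingHom 0) d0 d1 := ⟨prime_X, hi, hs, hk, hd⟩
  have hC : ∀ a : L, a ≠ 0 → d0 (wf (j a)) = wf a ∧ d1 (wf (j a)) = 0 := fun a ha => by
    have := hd (C a) (by simpa [X_dvd_iff] using ha)
    simpa using And.intro this.1 this.2.2.1
  have hX : d0 (wf (t : L')) = 0 ∧ d1 (wf (t : L')) = 1 := by
    have := hd 1 prime_X.not_dvd_one
    simpa using And.intro this.2.1 this.2.2.2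
  refine h (-d1 q) (fun P _ _ => ?_) ?_
  · let O := locAt A L P
    let i : A →+* O := algebraMap A O
    let ρ : O →+* L := algebraMap O L
    have hρ : ∀ a, ρ (i a) = algebraMap A L a := fun _ => rfl
    let φ : O[X] →+* L' := eval₂RingHom (j.comp ρ) (t : L')
    have hφi : Function.Injective φ := by
      have : φ = (eval₂RingHom (j.comp (RingHom.id L)) (t : L')).comp (mapRingHom ρ) := by
        apply Polynomial.ringHom_ext
        · intro a; simp [φ]
        · simp [φ]
      rw [this]
      exact hi.comp (map_injective ρ Subtype.val_injective)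
    have h2O : IsUnit (2 : O) := by simpa only [map_ofNat] using h2.map i
    have hden : ∀ g : O[X], ∃ (s : P.primeCompl) (g' : A[X]), g'.map i = C (i s) * g := by
      intro g
      induction g using Polynomial.induction_on' with
      | add p q hp hq =>
        obtain ⟨r, f, h⟩ := hp
        obtain ⟨s, g, h'⟩ := hq
        refine ⟨r * s, C (s : A) * f + C (r : A) * g, ?_⟩
        simp only [Polynomial.map_add, Polynomial.map_mul, map_C, h, h', map_mul, Submonoid.coe_mul]
        ring
      | monomial n a =>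
        obtain ⟨⟨x, y⟩, h⟩ := IsLocalization.surj P.primeCompl a
        exact ⟨y, monomial n x, by rw [map_monomial, C_mul_monomial, ← h, mul_comm]⟩
    have hu : ∀ π : O[X], Prime π → ¬ π ∣ X → q ∈ Unr φ π := fun π hπ hX => by
      obtain ⟨P', _, _, h1, -⟩ := prime_transfer (A := A') (L := L')
        (by simpa only [map_ofNat] using h2O.map (C : O →+* O[X])) hφi hπ
        (fun x => by
          obtain ⟨p, n, hp⟩ := surj_step hj ht i ρ hρ x
          exact ⟨p, X ^ n, fun h => hX (hπ.dvd_of_dvd_pow h), hp⟩)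
        (fun g => by
          obtain ⟨s, g', hg⟩ := hden g
          refine ⟨algebraMap A[X] A' g', algebraMap A[X] A' (C (s : A)), C (i s), 1, fun h => ?_,
            hπ.not_dvd_one, ?_, ?_⟩
          · exact hπ.not_isUnit (isUnit_of_dvd_unit h
              ((IsLocalization.map_units O s).map (C : O →+* O[X])))
          · rw [map_one, mul_one, ← ring_step hj ht i ρ hρ, map_C]
          · rw [← ring_step hj ht i ρ hρ, ← ring_step hj ht i ρ hρ, hg, map_C, map_mul, mul_comm])
      exact h1 q (hq P')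
    obtain ⟨w, q0, q1, hw, e, hun⟩ := torus_step h2O (IsFractionRing.injective O L)
      (fracSurj_algebraMap O L) hφi (frac_step hj ht i ρ hρ) (q := q) fun π hπ _ hX => hu π hπ hX
    obtain ⟨ϖ, hϖ⟩ := IsDiscreteValuationRing.exists_irreducible O
    have h1 := (hun ϖ hϖ.prime (hu _ (prime_C_iff.2 hϖ.prime) fun h =>
      hϖ.prime.not_dvd_one (by simpa using (C_dvd_iff_dvd_coeff _ _).1 h 1))).2
    have h3 : ∀ x, x ∈ (d0.comp w - AddMonoidHom.id _).ker ⊓ (d1.comp w).ker := fun x =>
      witt_mem_ring (fracSurj_algebraMap O L) _ (fun a ha => by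
        have h4 : φ (C a) = j (algebraMap O L a) := by simp [φ, ρ]
        simp only [AddSubgroup.mem_inf, AddMonoidHom.mem_ker, AddMonoidHom.sub_apply,
          AddMonoidHom.comp_apply, hw, h4, hC _ ha, AddMonoidHom.id_apply, sub_self, and_self]) x
    simp only [AddSubgroup.mem_inf, AddMonoidHom.mem_ker, AddMonoidHom.sub_apply,
      AddMonoidHom.comp_apply, AddMonoidHom.id_apply, sub_eq_zero] at h3
    have h4 : φ X = t := by simp [φ]
    have h5 : d1 q = q1 := by
      rw [e, map_add, (h3 q0).2, (hr.mul _ _).2, h4, hX.1, hX.2, (h3 q1).1]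
      simp
    rw [h5]
    refine residueZero_of_mem _ (neg_mem (AddSubgroup.closure_mono ?_ h1))
    rintro _ ⟨a, ha, rfl⟩
    refine ⟨_, ?_, rfl⟩
    rw [IsDedekindDomain.HeightOneSpectrum.valuation_eq_one_iff_notMem]
    exact fun h => h ((not_dvd_iff_isUnit O hϖ a).1 ha)
  · have h1 := neg_mem (hr.pow hmem)
    have h4 : ∀ i, d1 (∏ k, pf ((Fin.cons t (fun k => Units.map (j : L →* L') (f i k)) :
        Fin (n + 1) → L'ˣ) k)) = -∏ k, pf (f i k) := fun i => by
      have h3 := hr.prod Finset.univ (x := fun k => pf (Units.map (j : L →* L') (f i k)))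
        (y := fun k => pf (f i k)) fun k => by
          simp only [pf_eq, map_sub, hr.one, Units.coe_map, MonoidHom.coe_coe,
            hC _ (f i k).ne_zero, sub_zero, and_self]
      rw [Fin.prod_univ_succ, (hr.mul _ _).2]
      simp only [Fin.cons_zero, Fin.cons_succ, h3, pf_eq t, map_sub, hr.one, hX]
      simp
    have h5 : ∑ i, -∏ k, pf (f i k) = -∑ i, ∏ k, pf (f i k) := Finset.sum_neg_distrib _
    simp only [map_sub, map_sum, h4, h5] at h1
    convert h1 using 1
    ring

end step

theorem ex_succ {F : Type} [Field F] (h2 : (2 : F) ≠ 0) {n : ℕ} (h : Ex F n) : Ex F (n + 1) := by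
  obtain ⟨A, L, _, _, _, _, _, _, hs, m, f, hg, hb⟩ := h
  let A' := Localization.Away (X : A[X])
  have hle := powers_le_nonZeroDivisors_of_noZeroDivisors (X_ne_zero (R := A))
  have : IsDomain A' := IsLocalization.isDomain_localization hle
  let L' := FractionRing A'
  have hi : Function.Injective ((algebraMap A' L').comp (algebraMap A[X] A')) :=
    (IsFractionRing.injective A' L').comp (IsLocalization.injective A' hle)
  obtain ⟨j, hj⟩ := exists_field_lift (IsFractionRing.injective A L) (fracSurj_algebraMap A L)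
    (g := ((algebraMap A' L').comp (algebraMap A[X] A')).comp C) (hi.comp C_injective)
  let t : L'ˣ := Units.mk0 _ ((map_ne_zero_iff _ hi).2 X_ne_zero)
  have h1 : Algebra.Smooth A[X] A' := Algebra.Smooth.of_isLocalization_Away (X : A[X])
  have h3 : Algebra.Smooth A A[X] := {}
  have h4 : Algebra.Smooth F A[X] := .comp F A _
  exact ⟨A', L', inferInstance, this, inferInstance, inferInstance, inferInstance, inferInstance,
    .comp F A[X] _, m, _, good_step (t := t) hj rfl hg, bad_step (t := t) hj rfl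
      (by simpa only [map_ofNat] using (IsUnit.mk0 _ h2).map (algebraMap F A)) hb⟩

theorem ex_all {F : Type} [Field F] (h2 : (2 : F) ≠ 0) {n : ℕ} (hn : 2 ≤ n) : Ex F n := by
  induction n, hn using Nat.le_induction with
  | base => exact ex_two h2
  | succ n _ ih => exact ex_succ h2 ih

end Pool.Agent.P.MP_a9963e_ag
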